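import Pool.Agent.H24.S3.Mkb

/-!
# [H24 S3 LDA] the local relator is in the commutator subgroup

`ab_mk`: `w ∈ FreeGroup ι`, `ι` finite, all exponent sums `≡ 0` modulo `p ^ k`: `w ∈ commutator ⊔ Mk`. Proof: modulo the commutator subgroup `w = ∏ x_i^(n i)`, `n i = p ^ k * n' i`, and `x_i ^ p ^ k ∈ Mk` (`mk_pow`).
`lda`: Proof. Kummer characters of order `p ^ k`: `klr` (H24/RK/Nrm.lean) gives for `b ∈ Kˣ` `Θ : Γ → ZMod (p ^ k)` with `KC p k z b Θ`, a homomorphism of finite type with reduction `kk b` modulo `p` (`KC.cast` with `k = n + 1`; `KC` additivity lemmas are in the same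
file or H24/RK). `ZMod (p ^ k)` is small (`zm_sml`), so residually small (`sml_rsm`), so `Θ (ev ρ) = 0`. `Θ (ev ρ) = ∑ n_i Θ (x_i)` with the exponent sums `n_i` of `ρ` modulo `p ^ k`. For `b = b_j`: the matrix `Θ_j (x_i)` over `ZMod (p ^ k)` is the identity
modulo `p` (`Lgn.dual`), so invertible (determinant a unit), and `n = 0`. `ab_mk`.
-/

set_option autoImplicit false
set_option linter.dupNamespace false

open scoped NumberField commutatorElement
open IsDedekindDomain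
open scoped Classical

noncomputable section

namespace H24.S3

open H63.MA H38.BB H38.BG H57.PC H57.BRA H89.BRG H57.RQ H24.RK Pool.Agent.H19.NF
  Pool.Agent.H19.AB Pool.Agent.H19.A2 Pool.Agent.H19 H77.WD H77.WE H77.GL H77.S3 H82.SF

variable {K : Type} [Field K] [NumberField K] {Ω : Type} [Field Ω] [Algebra K Ω]
  [IsAlgClosure K Ω] {p m : ℕ} {ζ : K}

/-- the exponent sum of `x_i` -/
private def es {r : ℕ} (i : Fin r) : FreeGroup (Fin r) →* Multiplicative ℤ :=
  FreeGroup.lift fun j => Multiplicative.ofAdd (if j = i then (1 : ℤ) else 0)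

private theorem es_prod {r : ℕ} {A : Type} [CommGroup A] (f : FreeGroup (Fin r) →* A)
    (w : FreeGroup (Fin r)) :
    f w = ∏ i, f (FreeGroup.of i) ^ (Multiplicative.toAdd (es i w)) := by
  have h : f = ∏ i, (zpowersHom A (f (FreeGroup.of i))).comp (es i) := by
    apply FreeGroup.ext_hom
    intro j
    rw [MonoidHom.finsetProd_apply]
    have h1 : ∀ i, ((zpowersHom A (f (FreeGroup.of i))).comp (es i)) (FreeGroup.of j) =
        if j = i then f (FreeGroup.of i) else 1 := by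
      intro i
      rw [MonoidHom.comp_apply, es, FreeGroup.lift_apply_of, zpowersHom_apply, toAdd_ofAdd]
      split_ifs
      · rw [zpow_one]
      · rw [zpow_zero]
    rw [Finset.prod_congr rfl fun i _ => h1 i, Finset.prod_ite_eq, if_pos (Finset.mem_univ j)]
  conv_lhs => rw [h]
  rw [MonoidHom.finsetProd_apply]
  rfl

private theorem ab_mk {k M r : ℕ} {w : FreeGroup (Fin r)}
    (h : ∀ i, ((p ^ k : ℕ) : ℤ) ∣ Multiplicative.toAdd (es i w)) :
    w ∈ commutator (FreeGroup (Fin r)) ⊔ Mk p k M (FreeGroup (Fin r)) := by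
  choose n' hn' using h
  obtain ⟨y, hy⟩ : ∃ y : FreeGroup (Fin r),
      y = (List.ofFn fun i : Fin r => (FreeGroup.of i ^ n' i) ^ p ^ k).prod := ⟨_, rfl⟩
  have hyM : y ∈ Mk p k M (FreeGroup (Fin r)) := by
    rw [hy]
    apply Subgroup.list_prod_mem
    intro a ha
    rw [List.mem_ofFn] at ha
    obtain ⟨i, rfl⟩ := ha
    exact mk_pow _
  have h1 : Abelianization.of w = Abelianization.of y := by
    rw [es_prod Abelianization.of w, hy, map_list_prod, List.map_ofFn, List.prod_ofFn]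
    apply Finset.prod_congr rfl
    intro i _
    rw [Function.comp_apply, map_pow, map_zpow, hn' i, ← zpow_natCast, ← zpow_mul, mul_comm]
  have h2 : w * y⁻¹ ∈ commutator (FreeGroup (Fin r)) := by
    rw [← Abelianization.ker_of, MonoidHom.mem_ker, map_mul, map_inv, h1, mul_inv_cancel]
  have h3 : w = w * y⁻¹ * y := by rw [inv_mul_cancel_right]
  rw [h3]
  exact Subgroup.mul_mem _ (Subgroup.mem_sup_left h2) (Subgroup.mem_sup_right hyM)

private theorem isUnit_of_cast {n : ℕ} (hp : p.Prime) [NeZero (p ^ (n + 1))] {a : ZMod (p ^ (n + 1))}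
    (h : ZMod.castHom (dvd_pow_self p (Nat.succ_ne_zero n)) (ZMod p) a = 1) : IsUnit a := by
  have hf : Fact p.Prime := ⟨hp⟩
  rw [ZMod.castHom_apply, ← ZMod.natCast_val] at h
  rw [← ZMod.natCast_zmod_val a, ZMod.isUnit_iff_coprime]
  apply Nat.Coprime.pow_right
  rw [Nat.coprime_comm, Nat.Prime.coprime_iff_not_dvd hp]
  intro h1
  rw [← ZMod.natCast_eq_zero_iff] at h1
  rw [h1] at h
  exact zero_ne_one h

theorem lda (hp : p.Prime) (hζ : IsPrimitiveRoot ζ p) {n k M : ℕ} (hk : k = n + 1) {z : K}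
    (hz : IsPrimitiveRoot z (p ^ (n + 1))) (hzζ : z ^ p ^ n = ζ) (hM : p ^ k ≤ M) {Q : DP K Ω}
    {v : Pl K} {r : ℕ} (x : Lgn p ζ Q v r) {ρ : FreeGroup (Fin r)}
    (hρ : ∀ (R : Type) [Group R] [Finite R], Rsm p k M R → ∀ φ : Gal(Ω/K) →* R, H38.ML.FT φ →
      φ (FreeGroup.lift x.x ρ) = 1) :
    ρ ∈ commutator (FreeGroup (Fin r)) ⊔ Mk p k M (FreeGroup (Fin r)) := by
  subst hk
  have hne : NeZero (p ^ (n + 1)) := ⟨pow_ne_zero _ hp.ne_zero⟩
  choose Θ hΘ using fun j : Fin r => klr (Ω := Ω) hp hz (x.b j)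
  have h1 : ∀ j, Θ j 1 = 0 := by
    intro j
    have h := (hΘ j).mul 1 1
    rw [mul_one] at h
    exact left_eq_add.1 h
  let Φ : Fin r → (Gal(Ω/K) →* Multiplicative (ZMod (p ^ (n + 1)))) := fun j =>
    { toFun := fun σ => Multiplicative.ofAdd (Θ j σ)
      map_one' := by rw [h1, ofAdd_zero]
      map_mul' := fun σ τ => by rw [(hΘ j).mul, ofAdd_add] }
  have hΦ : ∀ j σ, Multiplicative.toAdd (Φ j σ) = Θ j σ := fun j σ => rfl
  have hFT : ∀ j, H38.ML.FT (Φ j) := by
    intro j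
    obtain ⟨E, hE, hE2⟩ := (hΘ j).lev
    refine ⟨E, hE, fun u hu => ?_⟩
    rw [MonoidHom.mem_ker]
    apply Multiplicative.toAdd.injective
    have h2 := hE2 1 u hu
    rw [one_mul, h1] at h2
    rw [hΦ, h2, toAdd_one]
  have hrsm : Rsm p (n + 1) M (Multiplicative (ZMod (p ^ (n + 1)))) :=
    sml_rsm (zm_sml hp le_rfl hM)
  have hker : ∀ j, Φ j (FreeGroup.lift x.x ρ) = 1 := fun j => hρ _ hrsm (Φ j) (hFT j)
  obtain ⟨T, hT⟩ : ∃ T : Matrix (Fin r) (Fin r) (ZMod (p ^ (n + 1))), ∀ j i, T j i = Θ j (x.x i) :=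
    ⟨Matrix.of fun j i => Θ j (x.x i), fun j i => rfl⟩
  obtain ⟨N, hN⟩ : ∃ N : Fin r → ZMod (p ^ (n + 1)), ∀ i, N i =
      ((Multiplicative.toAdd (es i ρ) : ℤ) : ZMod (p ^ (n + 1))) := ⟨_, fun i => rfl⟩
  have hTN : T.mulVec N = 0 := by
    funext j
    have h2 := es_prod ((Φ j).comp (FreeGroup.lift x.x)) ρ
    rw [MonoidHom.comp_apply, hker j] at h2
    have h3 := congrArg Multiplicative.toAdd h2
    rw [toAdd_one, toAdd_prod] at h3
    rw [Pi.zero_apply, h3]
    change ∑ i, T j i * N i = _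
    apply Finset.sum_congr rfl
    intro i _
    rw [toAdd_zpow, MonoidHom.comp_apply, FreeGroup.lift_apply_of, hΦ, hT, hN, zsmul_eq_mul, mul_comm]
  have hdet : IsUnit T.det := by
    apply isUnit_of_cast hp
    rw [RingHom.map_det]
    have h4 : (ZMod.castHom (dvd_pow_self p (Nat.succ_ne_zero n)) (ZMod p)).mapMatrix T = 1 := by
      ext j i
      rw [RingHom.mapMatrix_apply, Matrix.map_apply, hT, ZMod.castHom_apply, ← ZMod.natCast_val,
        (hΘ j).cast hp hz hζ hzζ, x.dual, Matrix.one_apply]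
    rw [h4, Matrix.det_one]
  have hN0 : N = 0 := by
    have h5 : T⁻¹.mulVec (T.mulVec N) = N := by
      rw [Matrix.mulVec_mulVec, Matrix.nonsing_inv_mul T hdet, Matrix.one_mulVec]
    rw [← h5, hTN, Matrix.mulVec_zero]
  apply ab_mk
  intro i
  have h6 : ((Multiplicative.toAdd (es i ρ) : ℤ) : ZMod (p ^ (n + 1))) = 0 := by
    rw [← hN, hN0, Pi.zero_apply]
  exact (ZMod.intCast_zmod_eq_zero_iff_dvd _ _).1 h6

end H24.S3
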