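import Pool.Agent.H24.S3.Df

/-!
# [H24 S3 U3A] the unitriangular group: calculus

`Xt e he` (H57/BRA/Def.lean): pairs `(r, z)`, `(r, z)(r', z') = (r r', z + z' + e r r')`, here `e = e2 p`, `e2 (a, b) (a', b') = a b'`.
* `u3_r`: the first component is `(ch ψ₁ w, ch ψ₂ w)` (both sides are homomorphisms, `FreeGroup.ext_hom`).
* `ch_com`: `ch` is `1` on the commutator subgroup (values in a commutative group; `Abelianization.commutator_subset_ker` or similar).
* `u3_mul`, `u3_inv`: for `w` in the commutator subgroup `u3 w = (1, z)`, so `z` is additive: `(w w').z = w.z + w'.z + e 1 _`, the same with `w` on the right side; inverse.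
* `u3_br`: in `Xt (e2 p)`: `⁅x, y⁆.z = x.r.1 * y.r.2 - y.r.1 * x.r.2` (entries, direct computation), `⁅x, y⁆.r = 1`.
* `u3_cw`: induction over the list.
* `u3_sml`: `Xt (e2 p)` is a small group: order `p ^ 3` (bijection to `ZMod p × ZMod p × ZMod p`), a `p`-group (`IsPGroup.of_card`), and exponent: `x ^ n = (n r, n z + n (n - 1) / 2 * r.1 * r.2)`; `x ^ p ^ k = 1` for
  `k ≥ 1` if `p` is odd and for `k ≥ 2` if `p = 2` (for `p = 2`: `x ^ 2 = (1, _)`, `x ^ 4 = 1`).
* `xt_fin`: `Xt` is finite if `R` is.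
-/

set_option autoImplicit false
set_option linter.dupNamespace false

open scoped NumberField commutatorElement
open IsDedekindDomain
open scoped Classical

noncomputable section

namespace H24.S3

open H63.MA H38.BB H38.BG H57.PC H57.BRA H89.BRG H57.RQ H24.RK Pool.Agent.H19.NF
  Pool.Agent.H19.AB Pool.Agent.H19.A2 Pool.Agent.H19 H77.WD H77.WE H77.GL H77.S3

variable {p : ℕ} {ι : Type}

private def rh (p : ℕ) : Xt (e2 p) (e2_coc p) →* Multiplicative (ZMod p) × Multiplicative (ZMod p) where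
  toFun x := x.r
  map_one' := rfl
  map_mul' _ _ := rfl

private theorem xt_mul_z (x y : Xt (e2 p) (e2_coc p)) : (x * y).z = x.z + y.z + e2 p x.r y.r := rfl

private theorem xt_mul_r (x y : Xt (e2 p) (e2_coc p)) : (x * y).r = x.r * y.r := rfl

private theorem xt_inv_z (x : Xt (e2 p) (e2_coc p)) : (x⁻¹).z = -x.z - e2 p x.r⁻¹ x.r := rfl

private theorem xt_com_r (x y : Xt (e2 p) (e2_coc p)) : (⁅x, y⁆).r = 1 := by
  have h : rh p ⁅x, y⁆ = 1 := by
    rw [map_commutatorElement]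
    exact commutatorElement_eq_one_iff_mul_comm.2 (mul_comm _ _)
  exact h

private theorem xt_com_z (x y : Xt (e2 p) (e2_coc p)) :
    (⁅x, y⁆).z = e2 p x.r y.r - e2 p y.r x.r := by
  have h1 : ⁅x, y⁆ * (y * x) = x * y := by
    rw [commutatorElement_def]
    group
  have h2 := congrArg Xt.z h1
  rw [xt_mul_z, xt_com_r, (e2_coc p).l1, xt_mul_z, xt_mul_z] at h2
  linear_combination h2

private theorem xt_pow (x : Xt (e2 p) (e2_coc p)) (n : ℕ) : (x ^ n).r = x.r ^ n ∧
    (x ^ n).z = n * x.z + (Nat.choose n 2 : ZMod p) *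
      (Multiplicative.toAdd x.r.1 * Multiplicative.toAdd x.r.2) := by
  induction n with
  | zero =>
    refine ⟨by rw [pow_zero, pow_zero]; rfl, ?_⟩
    rw [pow_zero, Nat.cast_zero, zero_mul, Nat.choose_eq_zero_of_lt (by norm_num), Nat.cast_zero,
      zero_mul, add_zero]
    rfl
  | succ n ih =>
    obtain ⟨h1, h2⟩ := ih
    refine ⟨by rw [pow_succ, xt_mul_r, h1, pow_succ], ?_⟩
    rw [pow_succ, xt_mul_z, h1, h2, Nat.choose_succ_succ' n 1, Nat.choose_one_right]
    unfold e2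
    rw [Prod.pow_fst, toAdd_pow, nsmul_eq_mul]
    push_cast
    ring

theorem ch_of (ψ : ι → ZMod p) (i : ι) : Multiplicative.toAdd (ch p ψ (FreeGroup.of i)) = ψ i := by
  unfold ch
  rw [FreeGroup.lift_apply_of]
  rfl

theorem u3_r (ψ₁ ψ₂ : ι → ZMod p) (w : FreeGroup ι) : (u3 p ψ₁ ψ₂ w).r = (ch p ψ₁ w, ch p ψ₂ w) := by
  have h : (rh p).comp (u3 p ψ₁ ψ₂) = (ch p ψ₁).prod (ch p ψ₂) := by
    refine FreeGroup.ext_hom _ _ fun i => ?_
    rw [MonoidHom.comp_apply, MonoidHom.prod_apply, u3, ch, ch, FreeGroup.lift_apply_of,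
      FreeGroup.lift_apply_of, FreeGroup.lift_apply_of]
    rfl
  exact DFunLike.congr_fun h w

theorem ch_com (ψ : ι → ZMod p) {w : FreeGroup ι} (hw : w ∈ commutator (FreeGroup ι)) :
    ch p ψ w = 1 :=
  Abelianization.commutator_subset_ker (ch p ψ) hw

theorem u3_mul (ψ₁ ψ₂ : ι → ZMod p) {w w' : FreeGroup ι} (hw : w ∈ commutator (FreeGroup ι)) :
    (u3 p ψ₁ ψ₂ (w * w')).z = (u3 p ψ₁ ψ₂ w).z + (u3 p ψ₁ ψ₂ w').z := by
  rw [map_mul, xt_mul_z, u3_r, ch_com _ hw, ch_com _ hw, ← Prod.one_eq_mk, (e2_coc p).l1, add_zero]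

theorem u3_inv (ψ₁ ψ₂ : ι → ZMod p) {w : FreeGroup ι} (hw : w ∈ commutator (FreeGroup ι)) :
    (u3 p ψ₁ ψ₂ w⁻¹).z = -(u3 p ψ₁ ψ₂ w).z := by
  rw [map_inv, xt_inv_z, u3_r, ch_com _ hw, ch_com _ hw, ← Prod.one_eq_mk, (e2_coc p).r1, sub_zero]

theorem cw_com {G κ : Type} [Group G] (l : List κ) (a b : κ → G) : cw l a b ∈ commutator G := by
  unfold cw
  refine Subgroup.list_prod_mem _ fun x hx => ?_
  obtain ⟨i, -, rfl⟩ := List.mem_map.1 hx
  rw [commutator_def]
  exact Subgroup.commutator_mem_commutator (Subgroup.mem_top _) (Subgroup.mem_top _)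

theorem u3_cw (ψ₁ ψ₂ : ι → ZMod p) {κ : Type} (l : List κ) (a b : κ → FreeGroup ι) :
    (u3 p ψ₁ ψ₂ (cw l a b)).z = (l.map fun i =>
      Multiplicative.toAdd (ch p ψ₁ (a i)) * Multiplicative.toAdd (ch p ψ₂ (b i)) -
      Multiplicative.toAdd (ch p ψ₁ (b i)) * Multiplicative.toAdd (ch p ψ₂ (a i))).sum := by
  induction l with
  | nil =>
    change (u3 p ψ₁ ψ₂ 1).z = 0
    rw [map_one]
    rfl
  | cons i l ih =>
    have h1 : cw (i :: l) a b = ⁅a i, b i⁆ * cw l a b := rfl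
    have h2 : ⁅a i, b i⁆ ∈ commutator (FreeGroup ι) := by
      rw [commutator_def]
      exact Subgroup.commutator_mem_commutator (Subgroup.mem_top _) (Subgroup.mem_top _)
    rw [h1, u3_mul ψ₁ ψ₂ h2, ih, map_commutatorElement, xt_com_z, u3_r, u3_r, List.map_cons,
      List.sum_cons]
    rfl

theorem xt_fin [NeZero p] {R : Type} [Group R] [Finite R] (e : R → R → ZMod p) (he : Coc p e) :
    Finite (Xt e he) :=
  Finite.of_injective (fun x : Xt e he => (x.r, x.z)) fun x y h => by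
    obtain ⟨h1, h2⟩ := Prod.mk.inj h
    exact Xt.ext h1 h2

theorem u3_sml (hp : p.Prime) {k M : ℕ} (hk : 1 ≤ k) (hk2 : p = 2 → 2 ≤ k) (hM : p ^ 3 ≤ M) :
    Sml p k M (Xt (e2 p) (e2_coc p)) := by
  have hne : NeZero p := ⟨hp.ne_zero⟩
  have hcard : Nat.card (Xt (e2 p) (e2_coc p)) = p ^ 3 := by
    let E : Xt (e2 p) (e2_coc p) ≃
        (Multiplicative (ZMod p) × Multiplicative (ZMod p)) × ZMod p :=
      { toFun := fun x => (x.r, x.z)
        invFun := fun x => ⟨x.1, x.2⟩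
        left_inv := fun _ => rfl
        right_inv := fun _ => rfl }
    have h0 : Nat.card (Multiplicative (ZMod p)) = p := by
      rw [Nat.card_congr (Multiplicative.toAdd (α := ZMod p)), Nat.card_zmod]
    rw [Nat.card_congr E, Nat.card_prod, Nat.card_prod, h0, Nat.card_zmod]
    ring
  refine ⟨IsPGroup.of_card hcard, hcard.le.trans hM, fun x => ?_⟩
  obtain ⟨h1, h2⟩ := xt_pow x (p ^ k)
  have hz : ((p ^ k : ℕ) : ZMod p) = 0 := by
    rw [ZMod.natCast_eq_zero_iff]
    exact dvd_pow_self p (by omega)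
  have hne2 : 2 ≠ p ^ k := by
    intro h
    rcases hp.eq_two_or_odd' with h3 | h3
    · have h4 := hk2 h3
      rw [h3] at h
      have h5 : 2 ^ 2 ≤ 2 ^ k := Nat.pow_le_pow_right (by norm_num) h4
      omega
    · have h4 : Odd (p ^ k) := h3.pow
      rw [← h] at h4
      exact absurd h4 (by decide)
  have hc : ((Nat.choose (p ^ k) 2 : ℕ) : ZMod p) = 0 := by
    rw [ZMod.natCast_eq_zero_iff]
    exact hp.dvd_choose_pow (by norm_num) hne2
  refine Xt.ext ?_ ?_
  · rw [h1]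
    change x.r ^ p ^ k = 1
    have h3 : ∀ y : Multiplicative (ZMod p), y ^ p ^ k = 1 := by
      intro y
      apply Multiplicative.toAdd.injective
      rw [toAdd_pow, nsmul_eq_mul, hz, zero_mul, toAdd_one]
    exact Prod.ext (h3 _) (h3 _)
  · rw [h2, hz, hc, zero_mul, zero_mul, add_zero]
    rfl

end H24.S3
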