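import Pool.Agent.H24.S3.Ivb
import Pool.Agent.H24.S3.U3a
import Pool.Agent.H77.S3.Blk

/-!
# [H24 S3 LDB] the leading term of the local relator is the symbol

`ldb`: `z (u3 (kk c ∘ x) (kk c' ∘ x) ρ) = - hs v c c'`.
Proof. `Lcr.inv` with `H = Xt (e2 p)` (small by `u3_sml`, `sml_lw`; finite `xt_fin`), `H' = ZMod p × ZMod p` (`sml_rsm` and `rsm_prod`-like, or `sml_surj`), `π = r`, `e = tz ∘ e2`, `c = tz ∘ z` (`ST.tz p m : ZMod p →+ ZMod (p ^ m)`, injective for `m ≥ 1`: `ST.tz_inj`;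
H19/ST/Tz.lean), the kernel of `r` is central, `lam = (kc c, kc c')` (finite type: `ff_ft` in H82/SF/Ff.lean is private, copy it), `θ = u3 (kk c ∘ x) (kk c' ∘ x)`: `Iv D Q I v (tz (cu c c')) = toAddCircle (tz z(θ ρ))` (`cu p ζ c c' σ τ = kk c σ * kk c' τ`).
On the other side: `at_exS` (H82/SF/Lvc.lean) for `S0`: `c1` with `Lv v (c1 c⁻¹)`, `Lv v' c1` for the other `v' ∈ S0`. On `dec v` `kk c1 = kk c` (`lv_cong`, `dc_dec`), so `Iv (tz cu c c') = Iv (tz cu c1 c')` (`iv_congr`), and `iv_glob` for `Ψ = tz (cu c1 c')` (closed: `cu` is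
biadditive; `LfK`: copy `ff_lfk` of H82/SF/Ff.lean; zero on `dec v'`) gives `toAddCircle (TS1 Ψ) = toAddCircle (tz (tsx Fr c1 c'))` (copy `ff_ts`), `tsx Fr c1 c' = - hs v c1 c' = - hs v c c'` (`tsx_hs`, H82/SF/Fin.lean; `hs_cong`, H82/SF/Hsb.lean). `toAddCircle` and `tz` are injective.
-/

set_option autoImplicit false
set_option linter.dupNamespace false

open scoped NumberField commutatorElement
open IsDedekindDomain
open scoped Classical

noncomputable section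

namespace H24.S3

open H63.MA H38.BB H38.BG H57.PC H57.BRA H89.BRG H57.RQ H24.RK Pool.Agent.H19.NF
  Pool.Agent.H19.AB Pool.Agent.H19.A2 Pool.Agent.H19 H77.WD H77.WE H77.GL H77.S3 H82.SF

variable {K : Type} [Field K] [NumberField K] {Ω : Type} [Field Ω] [Algebra K Ω]
  [IsAlgClosure K Ω] {p m : ℕ} {ζ : K}

private theorem ldb_ft (hp : p.Prime) (hζ : IsPrimitiveRoot ζ p) (x b : Kˣ) :
    H38.ML.FT ((kc p ζ Ω x).prod (kc p ζ Ω b)) := by
  obtain ⟨E, hE, h1⟩ := kc_ft (Ω := Ω) hp hζ x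
  obtain ⟨E', hE', h2⟩ := kc_ft (Ω := Ω) hp hζ b
  refine ⟨E ⊔ E', IntermediateField.finiteDimensional_sup _ _, fun u hu => ?_⟩
  have h3 := h1 (IntermediateField.fixingSubgroup_antitone le_sup_left hu)
  have h4 := h2 (IntermediateField.fixingSubgroup_antitone le_sup_right hu)
  rw [MonoidHom.mem_ker] at h3 h4 ⊢
  rw [MonoidHom.prod_apply, h3, h4]
  rfl

private theorem ldb_lfk {k : ℕ} (hk : 0 < k) (hp : p.Prime) (hζ : IsPrimitiveRoot ζ p)
    {D : RD0 K p ζ} (L : LDs D Ω) (x b : Kˣ) :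
    LfK k L (fun σ τ : Gal(Ω/K) => ST.tz p m (cu p ζ x b σ τ)) := by
  have : NeZero p := ⟨hp.ne_zero⟩
  refine ⟨Multiplicative (ZMod p) × Multiplicative (ZMod p), inferInstance, inferInstance,
    (kc p ζ Ω x).prod (kc p ζ Ω b),
    fun r r' => ST.tz p m (Multiplicative.toAdd r.1 * Multiplicative.toAdd r'.2),
    fun v _ τ _ => ?_, ldb_ft hp hζ x b, fun r => ?_, fun r => ?_, fun σ τ => rfl⟩
  · have h1 : ∀ r : Multiplicative (ZMod p) × Multiplicative (ZMod p), r ^ p = 1 := by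
      intro r
      refine Prod.ext ?_ ?_
      · apply Multiplicative.toAdd.injective
        rw [Prod.pow_fst, toAdd_pow, nsmul_eq_mul, CharP.cast_eq_zero, zero_mul]
        rfl
      · apply Multiplicative.toAdd.injective
        rw [Prod.pow_snd, toAdd_pow, nsmul_eq_mul, CharP.cast_eq_zero, zero_mul]
        rfl
    obtain ⟨j, rfl⟩ : ∃ j, k = j + 1 := ⟨k - 1, by omega⟩
    rw [pow_succ', pow_mul, h1, one_pow]
  · show ST.tz p m (Multiplicative.toAdd (1 : Multiplicative (ZMod p)) * _) = 0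
    rw [toAdd_one, zero_mul, map_zero]
  · show ST.tz p m (_ * Multiplicative.toAdd (1 : Multiplicative (ZMod p))) = 0
    rw [toAdd_one, mul_zero, map_zero]

private theorem ldb_ts (hp : p.Prime) (hm : 1 ≤ m) {D : RD0 K p ζ} {L : LDs D Ω}
    (Fr : FR L) (x b : Kˣ) :
    TS1 L Fr (fun σ τ : Gal(Ω/K) => ST.tz p m (cu p ζ x b σ τ)) = ST.tz p m (tsx Fr x b) := by
  unfold TS1 tsx
  rw [AddMonoidHom.map_finsum_of_injective _ (ST.tz_inj hp hm)]
  refine finsum_congr fun w => ?_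
  by_cases hw : w ∈ D.S0
  · rw [if_pos hw, map_zero, br, t_S0 L hw]
    simp only [cu]
    rw [kk_one, kk_one, zero_mul, mul_zero, sub_self]
  · rw [if_neg hw, map_sub, br]

/-- the local invariant of a cup product -/
theorem iv_cu (hp : p.Prime) (hp2 : MOne p K) (hζ : IsPrimitiveRoot ζ p) {k : ℕ} (hk : 1 ≤ k)
    (hm : 1 ≤ m) [NeZero (p ^ m)] {D : RD0 K p ζ}
    {L : LDs D Ω} {Q : DP K Ω} {Fr : FR L} {I : Fnl K Ω p m} (hI : FnC p k m D L Q Fr I)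
    {v : Pl K} (hv : v ∈ D.S0) (c c' : Kˣ) :
    Iv D Q I v (fun σ τ => ST.tz p m (cu p ζ c c' σ τ)) =
      ZMod.toAddCircle (ST.tz p m (-hs p ζ Ω v c c')) := by
  obtain ⟨c1, h1, h2⟩ := at_exS (Ω := Ω) hp hζ D.S0 v c
  have h3 : ∀ σ ∈ dec (K := K) (Q.P v), kk p ζ c1 σ = kk p ζ c σ := fun σ hσ =>
    lv_cong hp hζ h1 (Q.prime v) (Q.under v) σ ((dc_dec _ _).2 hσ)
  have h4 : ∀ v' ∈ D.S0, v' ≠ v → ∀ σ ∈ dec (K := K) (Q.P v'), kk p ζ c1 σ = 0 :=
    fun v' hv' hne σ hσ => h2 v' hv' hne (Q.P v') (Q.prime v') (Q.under v') σ ((dc_dec _ _).2 hσ)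
  have h5 : Iv D Q I v (fun σ τ => ST.tz p m (cu p ζ c c' σ τ)) =
      Iv D Q I v (fun σ τ => ST.tz p m (cu p ζ c1 c' σ τ)) := by
    refine iv_congr fun σ hσ τ hτ => ?_
    simp only [cu]
    rw [h3 σ hσ]
  rw [h5, iv_glob hI (ldb_lfk hk hp hζ L c1 c') (fun σ τ υ => ?_) (fun v' hv' hne σ hσ τ hτ => ?_),
    ldb_ts hp hm, tsx_hs hp hp2 hζ Q Fr hv h4, hs_cong hp hp2 hζ h1]
  · show ST.tz p m (cu p ζ c1 c' τ υ) - ST.tz p m (cu p ζ c1 c' (σ * τ) υ) +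
      ST.tz p m (cu p ζ c1 c' σ (τ * υ)) - ST.tz p m (cu p ζ c1 c' σ τ) = 0
    rw [← map_sub, ← map_add, ← map_sub, ← map_zero (ST.tz p m)]
    congr 1
    simp only [cu]
    rw [kk_mul, kk_mul]
    ring
  · simp only [cu]
    rw [h4 v' hv' hne σ hσ, zero_mul, map_zero]

theorem ldb (hp : p.Prime) (hp2 : MOne p K) (hζ : IsPrimitiveRoot ζ p) {k M : ℕ} (hk : 1 ≤ k)
    (hk2 : p = 2 → 2 ≤ k) (hM : p ^ 3 ≤ M) (hm : 1 ≤ m) [NeZero (p ^ m)] {D : RD0 K p ζ}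
    {L : LDs D Ω} {Q : DP K Ω} {Fr : FR L} {I : Fnl K Ω p m} (hI : FnC p k m D L Q Fr I)
    {v : Pl K} (hv : v ∈ D.S0) {r : ℕ} {x : Fin r → Gal(Ω/K)} {ρ : FreeGroup (Fin r)}
    (hρ : Lcr k M D Q I v x ρ) (c c' : Kˣ) :
    (u3 p (fun i => kk p ζ c (x i)) (fun i => kk p ζ c' (x i)) ρ).z = -hs p ζ Ω v c c' := by
  have hp0 : NeZero p := ⟨hp.ne_zero⟩
  have hfin : Finite (Xt (e2 p) (e2_coc p)) := xt_fin _ _
  have hS : Sml p k M (Xt (e2 p) (e2_coc p)) := u3_sml hp hk hk2 hM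
  let π : Xt (e2 p) (e2_coc p) →* Multiplicative (ZMod p) × Multiplicative (ZMod p) :=
    { toFun := fun x => x.r
      map_one' := rfl
      map_mul' := fun _ _ => rfl }
  have hπ : Function.Surjective π := fun r => ⟨⟨r, 0⟩, rfl⟩
  have hcen : ∀ z, π z = 1 → ∀ h, z * h = h * z := by
    intro z hz h
    have h0 : z.r = 1 := hz
    refine Xt.ext ?_ ?_
    · show z.r * h.r = h.r * z.r
      rw [h0, one_mul, mul_one]
    · show z.z + h.z + e2 p z.r h.r = h.z + z.z + e2 p h.r z.r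
      rw [h0, (e2_coc p).l1, (e2_coc p).r1, add_comm z.z]
  have h1 := hρ.inv (Xt (e2 p) (e2_coc p)) (Multiplicative (ZMod p) × Multiplicative (ZMod p)) π
    (fun r s => ST.tz p m (e2 p r s)) (fun x => ST.tz p m x.z) hπ hcen
    (fun x => by rw [(e2_coc p).l1, map_zero]) (fun x => by rw [(e2_coc p).r1, map_zero])
    (fun x y => by
      show ST.tz p m (x.z + y.z + e2 p x.r y.r) = _
      rw [map_add, map_add]
      rfl)
    (sml_lw hS) (sml_rsm (sml_surj hS π hπ)) ((kc p ζ Ω c).prod (kc p ζ Ω c'))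
    (ldb_ft hp hζ c c') (u3 p (fun i => kk p ζ c (x i)) (fun i => kk p ζ c' (x i)))
    (fun i => by
      unfold u3
      rw [FreeGroup.lift_apply_of]
      rfl)
  have h2 : (fun σ τ : Gal(Ω/K) => ST.tz p m (e2 p (((kc p ζ Ω c).prod (kc p ζ Ω c')) σ)
      (((kc p ζ Ω c).prod (kc p ζ Ω c')) τ))) = fun σ τ => ST.tz p m (cu p ζ c c' σ τ) := rfl
  rw [h2, iv_cu hp hp2 hζ hk hm hI hv] at h1
  exact (ST.tz_inj hp hm (ZMod.toAddCircle_injective (N := p ^ m) h1)).symm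

end H24.S3
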