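import Pool.Agent.H24.S3.Df

/-!
# [H24 S3 LGX] generators of the decomposition groups modulo `p`-th powers

`lgx`: existence of `Lgn`. Proof. `D = dec (Q.P v)` (`dc_dec`, H89/BRG/Qd.lean: the same as `Dc K (Q.P v)`). The functions `c ↦ kk c |_D`: `kk (c c') σ = kk c σ + kk c' σ` (`kk_mul_arg`), additive in `σ` (`kk_mul`). `kk c |_D = 0` iff `Lv v c`
(`lv_of`). By `lv_fin` there are finitely many functions `kk c |_D`: they form a finite dimensional space `V` over `ZMod p` of functions on `D` (a subspace: `n • kk c = kk (c ^ n)`). Choose a MAXIMAL `r` (or: a basis by induction) such that there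
are `b_1..b_r ∈ Kˣ`, `x_1..x_r ∈ D` with `kk b_i (x_j) = δ_ij` (`r ≤ dim V`). If for some `c`, `σ` in `D` `kk c σ ≠ ∑ kk c (x_i) kk b_i σ`: put `c' = c ∏ b_i^(- kk c (x_i))` and `σ' = σ ∏ x_i^(- kk b_i σ)`: `kk c' (x_j) = 0`, `kk b_j (σ') = 0`,
`kk c' (σ') ≠ 0`: `r` was not maximal (`b_(r+1)` a power of `c'`, `x_(r+1) = σ'`).
-/

set_option autoImplicit false
set_option linter.dupNamespace false

open scoped NumberField commutatorElement
open IsDedekindDomain
open scoped Classical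

noncomputable section

namespace H24.S3

open H63.MA H38.BB H38.BG H57.PC H57.BRA H89.BRG H57.RQ H24.RK Pool.Agent.H19.NF
  Pool.Agent.H19.AB Pool.Agent.H19.A2 Pool.Agent.H19 H77.WD H77.WE H77.GL H77.S3 H82.SF

variable {K : Type} [Field K] [NumberField K] {Ω : Type} [Field Ω] [Algebra K Ω]
  [IsAlgClosure K Ω] {p m : ℕ} {ζ : K}

section pairing

variable {q : ℕ} {C Γ : Type} [CommGroup C] [Group Γ] {B : C → Γ → ZMod q}

private theorem lp_one1 (hC : ∀ a b σ, B (a * b) σ = B a σ + B b σ) (σ : Γ) : B 1 σ = 0 := by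
  have h := hC 1 1 σ
  rw [mul_one] at h
  exact left_eq_add.1 h

private theorem lp_one2 (hΓ : ∀ a σ τ, B a (σ * τ) = B a σ + B a τ) (a : C) : B a 1 = 0 := by
  have h := hΓ a 1 1
  rw [mul_one] at h
  exact left_eq_add.1 h

private theorem lp_pow1 (hC : ∀ a b σ, B (a * b) σ = B a σ + B b σ) (a : C) (σ : Γ) (n : ℕ) :
    B (a ^ n) σ = n * B a σ := by
  induction n with
  | zero => rw [pow_zero, lp_one1 hC, Nat.cast_zero, zero_mul]
  | succ n ih =>
    rw [pow_succ, hC, ih]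
    push_cast
    ring

private theorem lp_pow2 (hΓ : ∀ a σ τ, B a (σ * τ) = B a σ + B a τ) (a : C) (σ : Γ) (n : ℕ) :
    B a (σ ^ n) = n * B a σ := by
  induction n with
  | zero => rw [pow_zero, lp_one2 hΓ, Nat.cast_zero, zero_mul]
  | succ n ih =>
    rw [pow_succ, hΓ, ih]
    push_cast
    ring

private theorem lp_smul1 [NeZero q] (hC : ∀ a b σ, B (a * b) σ = B a σ + B b σ) (t : ZMod q)
    (a : C) : ∃ c : C, ∀ σ, B c σ = t * B a σ := by
  refine ⟨a ^ t.val, fun σ => ?_⟩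
  rw [lp_pow1 hC, ZMod.natCast_zmod_val]

private theorem lp_comb1 [NeZero q] (hC : ∀ a b σ, B (a * b) σ = B a σ + B b σ) {ι : Type}
    (s : Finset ι) (t : ι → ZMod q) (b : ι → C) :
    ∃ c : C, ∀ σ, B c σ = ∑ i ∈ s, t i * B (b i) σ := by
  classical
  induction s using Finset.induction_on with
  | empty => exact ⟨1, fun σ => by rw [Finset.sum_empty, lp_one1 hC]⟩
  | insert i s hi ih =>
    obtain ⟨c, hc⟩ := ih
    obtain ⟨d, hd⟩ := lp_smul1 hC (t i) (b i)
    refine ⟨d * c, fun σ => ?_⟩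
    rw [Finset.sum_insert hi, hC, hd, hc]

private theorem lp_comb2 [NeZero q] (hΓ : ∀ a σ τ, B a (σ * τ) = B a σ + B a τ) {ι : Type}
    (D : Subgroup Γ) (s : Finset ι) (t : ι → ZMod q) (x : ι → Γ) (hx : ∀ i, x i ∈ D) :
    ∃ g ∈ D, ∀ a, B a g = ∑ i ∈ s, t i * B a (x i) := by
  classical
  induction s using Finset.induction_on with
  | empty => exact ⟨1, D.one_mem, fun a => by rw [Finset.sum_empty, lp_one2 hΓ]⟩
  | insert i s hi ih =>
    obtain ⟨g, hg, hg2⟩ := ih
    refine ⟨x i ^ (t i).val * g, D.mul_mem (D.pow_mem (hx i) _) hg, fun a => ?_⟩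
    rw [Finset.sum_insert hi, hΓ, hg2, lp_pow2 hΓ, ZMod.natCast_zmod_val]

private theorem lp_main (hq : q.Prime) (hC : ∀ a b σ, B (a * b) σ = B a σ + B b σ)
    (hΓ : ∀ a σ τ, B a (σ * τ) = B a σ + B a τ) (D : Subgroup Γ) (R : Finset C)
    (hR : ∀ x, ∃ y ∈ R, ∀ σ ∈ D, B x σ = B y σ) :
    ∃ (r : ℕ) (x : Fin r → Γ) (b : Fin r → C), (∀ i, x i ∈ D) ∧
      (∀ i j, B (b i) (x j) = if i = j then 1 else 0) ∧
      ∀ c, ∀ σ ∈ D, B c σ = ∑ i, B c (x i) * B (b i) σ := by
  classical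
  have hfact : Fact q.Prime := ⟨hq⟩
  let P : ℕ → Prop := fun r => ∃ (x : Fin r → Γ) (b : Fin r → C), (∀ i, x i ∈ D) ∧
    ∀ i j, B (b i) (x j) = if i = j then 1 else 0
  have hP0 : P 0 := ⟨fun i => i.elim0, fun i => i.elim0, fun i => i.elim0, fun i => i.elim0⟩
  have hPle : ∀ r, P r → r ≤ R.card := by
    rintro r ⟨x, b, hx, hd⟩
    choose y hy hy2 using hR
    have h1 : (Finset.univ : Finset (Fin r)).card ≤ R.card := by
      refine Finset.card_le_card_of_injOn (fun i => y (b i)) (fun i _ => hy (b i)) ?_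
      intro i _ j _ hij
      by_contra hne
      have h2 := hy2 (b i) (x i) (hx i)
      have h3 := hy2 (b j) (x i) (hx i)
      have h4 : y (b i) = y (b j) := hij
      rw [h4, ← h3, hd, hd, if_pos rfl, if_neg (fun h => hne h.symm)] at h2
      exact one_ne_zero h2
    simpa using h1
  obtain ⟨r, hr, hr2⟩ : ∃ r, P r ∧ ¬ P (r + 1) := by
    by_contra hcon
    push Not at hcon
    have h1 : ∀ r, P r := by
      intro r
      induction r with
      | zero => exact hP0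
      | succ r ih => exact hcon r ih
    have h2 := hPle _ (h1 (R.card + 1))
    omega
  obtain ⟨x, b, hx, hd⟩ := hr
  refine ⟨r, x, b, hx, hd, ?_⟩
  by_contra hcon
  push Not at hcon
  obtain ⟨c, σ, hσ, hne⟩ := hcon
  apply hr2
  obtain ⟨c2, hc2⟩ := lp_comb1 hC Finset.univ (fun i => - B c (x i)) b
  obtain ⟨g, hg, hg2⟩ := lp_comb2 hΓ D Finset.univ (fun i => - B (b i) σ) x hx
  have e1 : ∀ τ, B (c * c2) τ = B c τ - ∑ i, B c (x i) * B (b i) τ := by
    intro τ
    rw [hC, hc2, sub_eq_add_neg, ← Finset.sum_neg_distrib]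
    congr 1
    exact Finset.sum_congr rfl fun i _ => by ring
  have e2 : ∀ a, B a (σ * g) = B a σ - ∑ i, B (b i) σ * B a (x i) := by
    intro a
    rw [hΓ, hg2, sub_eq_add_neg, ← Finset.sum_neg_distrib]
    congr 1
    exact Finset.sum_congr rfl fun i _ => by ring
  have e3 : ∀ j, B (c * c2) (x j) = 0 := by
    intro j
    rw [e1, Finset.sum_eq_single j]
    · rw [hd, if_pos rfl, mul_one, sub_self]
    · intro i _ hij
      rw [hd, if_neg hij, mul_zero]
    · intro h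
      exact absurd (Finset.mem_univ j) h
  have e4 : ∀ j, B (b j) (σ * g) = 0 := by
    intro j
    rw [e2, Finset.sum_eq_single j]
    · rw [hd, if_pos rfl, mul_one, sub_self]
    · intro i _ hij
      rw [hd, if_neg (fun h => hij h.symm), mul_zero]
    · intro h
      exact absurd (Finset.mem_univ j) h
  have e5 : B (c * c2) (σ * g) ≠ 0 := by
    rw [e2, Finset.sum_eq_zero fun i _ => by rw [e3, mul_zero], sub_zero, e1, sub_ne_zero]
    exact hne
  obtain ⟨c3, hc3⟩ := lp_smul1 hC (B (c * c2) (σ * g))⁻¹ (c * c2)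
  refine ⟨Fin.cons (σ * g) x, Fin.cons c3 b, ?_, ?_⟩
  · intro i
    refine Fin.cases ?_ (fun i => ?_) i
    · rw [Fin.cons_zero]
      exact D.mul_mem hσ hg
    · rw [Fin.cons_succ]
      exact hx i
  · intro i j
    refine Fin.cases ?_ (fun i => ?_) i
    · refine Fin.cases ?_ (fun j => ?_) j
      · rw [Fin.cons_zero, Fin.cons_zero, hc3, inv_mul_cancel₀ e5, if_pos rfl]
      · rw [Fin.cons_zero, Fin.cons_succ, hc3, e3, mul_zero, if_neg (Fin.succ_ne_zero j).symm]
    · refine Fin.cases ?_ (fun j => ?_) j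
      · rw [Fin.cons_zero, Fin.cons_succ, e4, if_neg (Fin.succ_ne_zero i)]
      · rw [Fin.cons_succ, Fin.cons_succ, hd]
        simp only [Fin.succ_inj]

end pairing

theorem lgx (hp : p.Prime) (hp2 : MOne p K) (hζ : IsPrimitiveRoot ζ p) (Q : DP K Ω) (v : Pl K) :
    ∃ r, Nonempty (Lgn p ζ Q v r) := by
  obtain ⟨R, hR⟩ := lv_fin (Ω := Ω) hp hp2 hζ v
  obtain ⟨r, x, b, hx, hd, hall⟩ := lp_main (B := fun (a : Kˣ) (σ : Gal(Ω/K)) => kk p ζ a σ) hp
    (fun a b σ => kk_mul_arg hp hζ a b σ) (fun a σ τ => kk_mul a σ τ)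
    (dec (K := K) (Q.P v)) R (fun z => by
      obtain ⟨y, hy, hy2⟩ := hR z
      refine ⟨y, hy, fun σ hσ => ?_⟩
      have h1 := hy2 (Q.P v) (Q.prime v) (Q.under v) σ ((dc_dec (Q.P v) σ).2 hσ)
      have h2 := kk_mul_arg hp hζ (z * y⁻¹) y σ
      rw [inv_mul_cancel_right, h1, zero_add] at h2
      exact h2)
  exact ⟨r, ⟨⟨x, b, hx, hd, hall⟩⟩⟩

end H24.S3
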