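import Mathlib

/-!
# [H24 S3 ABS] the absorption lemma (think 1687, section 4)

`G` nilpotent, `R` normal, `u i` generators, the product of the `⁅u i, X i⁆` in `⁅R, ⊤⁆`: the `X i` can be changed by elements of `R` such that the product is `1`.
-/

set_option autoImplicit false

open scoped commutatorElement

namespace H24.S3

section cen

variable {G : Type} [Group G]

/-- central factors -/
theorem ofFn_mul_cen {n : ℕ} (a c : Fin n → G) (hc : ∀ i, c i ∈ Subgroup.center G) :
    (List.ofFn fun i => a i * c i).prod = (List.ofFn a).prod * (List.ofFn c).prod := by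
  induction n with
  | zero => simp
  | succ n ih =>
    rw [List.ofFn_succ, List.ofFn_succ, List.ofFn_succ, List.prod_cons, List.prod_cons,
      List.prod_cons, ih (fun i => a i.succ) (fun i => c i.succ) fun i => hc i.succ]
    have h1 := Subgroup.mem_center_iff.1 (hc 0) (List.ofFn fun i => a i.succ).prod
    calc a 0 * c 0 * ((List.ofFn fun i => a i.succ).prod * (List.ofFn fun i => c i.succ).prod)
        = a 0 * (c 0 * (List.ofFn fun i => a i.succ).prod) * (List.ofFn fun i => c i.succ).prod := by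
          group
      _ = a 0 * ((List.ofFn fun i => a i.succ).prod * c 0) * (List.ofFn fun i => c i.succ).prod := by
          rw [h1]
      _ = _ := by group

theorem ofFn_one {n : ℕ} (f : Fin n → G) (h : ∀ i, f i = 1) : (List.ofFn f).prod = 1 := by
  rw [List.prod_eq_one]
  intro x hx
  obtain ⟨i, rfl⟩ := (List.mem_ofFn' _ _).1 hx
  exact h i

theorem ofFn_single {n : ℕ} (f : Fin n → G) (j : Fin n) (h : ∀ i, i ≠ j → f i = 1) :
    (List.ofFn f).prod = f j := by
  induction n with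
  | zero => exact j.elim0
  | succ n ih =>
    rw [List.ofFn_succ, List.prod_cons]
    induction j using Fin.cases with
    | zero => rw [ofFn_one _ fun i => h _ (Fin.succ_ne_zero i), mul_one]
    | succ j =>
      rw [h 0 (Fin.succ_ne_zero j).symm, one_mul]
      exact ih (fun i => f i.succ) j fun i hi => h _ fun h' => hi (Fin.succ_injective _ h')

theorem com_mul_left {g h a : G} (hc : ⁅h, a⁆ ∈ Subgroup.center G) :
    ⁅g * h, a⁆ = ⁅g, a⁆ * ⁅h, a⁆ := by
  have h1 := Subgroup.mem_center_iff.1 hc g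
  have h2 : ⁅g * h, a⁆ = g * ⁅h, a⁆ * g⁻¹ * ⁅g, a⁆ := by
    simp only [commutatorElement_def]
    group
  have h3 := Subgroup.mem_center_iff.1 hc ⁅g, a⁆
  rw [h2, h1, h3]
  group

theorem com_mul_right {g a b : G} (hc : ⁅g, b⁆ ∈ Subgroup.center G) :
    ⁅g, a * b⁆ = ⁅g, a⁆ * ⁅g, b⁆ := by
  have h1 := Subgroup.mem_center_iff.1 hc a
  have h2 : ⁅g, a * b⁆ = ⁅g, a⁆ * (a * ⁅g, b⁆ * a⁻¹) := by
    simp only [commutatorElement_def]
    group
  rw [h2, h1]
  group

/-- `⁅N, ⊤⁆` central: its elements are products of `⁅u i, r i⁆` -/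
theorem abs_c (N : Subgroup G) (hc : ∀ g : G, ∀ a ∈ N, ⁅g, a⁆ ∈ Subgroup.center G) {n : ℕ} (u : Fin n → G)
    (hu : Subgroup.closure (Set.range u) = ⊤) (w : G) (hw : w ∈ ⁅N, (⊤ : Subgroup G)⁆) :
    ∃ r : Fin n → G, (∀ i, r i ∈ N) ∧ (List.ofFn fun i => ⁅u i, r i⁆).prod = w := by
  have hone : ∀ i, ⁅u i, (1 : G)⁆ = 1 := fun i => commutatorElement_one_right _
  let F : Subgroup G :=
    { carrier := {w | ∃ r : Fin n → G, (∀ i, r i ∈ N) ∧ (List.ofFn fun i => ⁅u i, r i⁆).prod = w}
      one_mem' := ⟨fun _ => 1, fun _ => N.one_mem, by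
        exact ofFn_one _ fun i => hone i⟩
      mul_mem' := by
        rintro _ _ ⟨r, hr, rfl⟩ ⟨r', hr', rfl⟩
        refine ⟨fun i => r i * r' i, fun i => N.mul_mem (hr i) (hr' i), ?_⟩
        rw [← ofFn_mul_cen _ _ fun i => hc _ _ (hr' i)]
        congr 2
        funext i
        exact com_mul_right (hc _ _ (hr' i))
      inv_mem' := by
        rintro _ ⟨r, hr, rfl⟩
        refine ⟨fun i => (r i)⁻¹, fun i => N.inv_mem (hr i), ?_⟩
        apply eq_inv_of_mul_eq_one_left
        rw [← ofFn_mul_cen _ _ fun i => hc _ _ (hr i)]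
        refine ofFn_one _ fun i => ?_
        rw [← com_mul_right (hc _ _ (hr i)), inv_mul_cancel, commutatorElement_one_right] }
  have h1 : ∀ g ∈ Subgroup.closure (Set.range u), ∀ a ∈ N, ⁅g, a⁆ ∈ F := by
    intro g hg
    induction hg using Subgroup.closure_induction with
    | mem x hx =>
      obtain ⟨j, rfl⟩ := hx
      intro a ha
      refine ⟨fun i => if i = j then a else 1, fun i => ?_, ?_⟩
      · change (if i = j then a else 1) ∈ N
        split_ifs
        · exact ha
        · exact N.one_mem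
      · rw [ofFn_single _ j]
        · change ⁅u j, (if j = j then a else 1 : G)⁆ = ⁅u j, a⁆
          rw [if_pos rfl]
        · intro i hij
          simp only
          rw [if_neg hij, hone]
    | one =>
      intro a _
      rw [commutatorElement_one_left]
      exact F.one_mem
    | mul x y _ _ hx hy =>
      intro a ha
      rw [com_mul_left (hc _ _ ha)]
      exact F.mul_mem (hx a ha) (hy a ha)
    | inv x _ hx =>
      intro a ha
      have h2 : ⁅x⁻¹, a⁆ * ⁅x, a⁆ = 1 := by
        rw [← com_mul_left (hc _ _ ha), inv_mul_cancel, commutatorElement_one_left]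
      rw [eq_inv_of_mul_eq_one_left h2]
      exact F.inv_mem (hx a ha)
  have h2 : ⁅N, (⊤ : Subgroup G)⁆ ≤ F := by
    rw [Subgroup.commutator_le]
    intro a ha g _
    have h3 := h1 g (by rw [hu]; exact Subgroup.mem_top g) a ha
    have h4 : ⁅a, g⁆ = ⁅g, a⁆⁻¹ := (commutatorElement_inv g a).symm
    rw [h4]
    exact F.inv_mem h3
  exact h2 hw

end cen

section main

variable {G : Type} [Group G]

/-- the chain `R, ⁅R, ⊤⁆, ⁅⁅R, ⊤⁆, ⊤⁆, ...` -/
def Rs (R : Subgroup G) : ℕ → Subgroup G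
  | 0 => R
  | n + 1 => ⁅Rs R n, (⊤ : Subgroup G)⁆

theorem rs_normal (R : Subgroup G) [R.Normal] : ∀ n, (Rs R n).Normal
  | 0 => inferInstanceAs R.Normal
  | n + 1 => by
    have := rs_normal R n
    exact inferInstanceAs (⁅Rs R n, (⊤ : Subgroup G)⁆).Normal

theorem rs_le (R : Subgroup G) : ∀ n, Rs R n ≤ Subgroup.lowerCentralSeries (⊤ : Subgroup G) n
  | 0 => le_top
  | n + 1 => Subgroup.commutator_mono (rs_le R n) le_rfl

theorem rs_succ_le (R : Subgroup G) [R.Normal] (n : ℕ) : Rs R (n + 1) ≤ Rs R n := by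
  have := rs_normal R n
  exact Subgroup.commutator_le_left _ _

theorem rs_le_zero (R : Subgroup G) [R.Normal] : ∀ n, Rs R n ≤ R
  | 0 => le_rfl
  | n + 1 => (rs_succ_le R n).trans (rs_le_zero R n)

/-- one step -/
theorem abs_step (R : Subgroup G) [R.Normal] {n : ℕ} (u X : Fin n → G)
    (hu : Subgroup.closure (Set.range u) = ⊤) (j : ℕ)
    (hw : (List.ofFn fun i => ⁅u i, X i⁆).prod ∈ Rs R (j + 1)) :
    ∃ r : Fin n → G, (∀ i, r i ∈ Rs R j) ∧
      (List.ofFn fun i => ⁅u i, X i * r i⁆).prod ∈ Rs R (j + 2) := by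
  have := rs_normal R j
  have := rs_normal R (j + 1)
  have := rs_normal R (j + 2)
  set M := Rs R (j + 2) with hM
  let π : G →* G ⧸ M := QuotientGroup.mk' M
  have hπ : Function.Surjective π := QuotientGroup.mk'_surjective M
  have hcen : ∀ g : G ⧸ M, ∀ a ∈ (Rs R j).map π, ⁅g, a⁆ ∈ Subgroup.center (G ⧸ M) := by
    rintro g _ ⟨a, ha, rfl⟩
    obtain ⟨g, rfl⟩ := hπ g
    rw [Subgroup.mem_center_iff]
    intro h
    obtain ⟨h, rfl⟩ := hπ h
    have h1 : ⁅g, a⁆ ∈ Rs R (j + 1) := by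
      change ⁅g, a⁆ ∈ ⁅Rs R j, (⊤ : Subgroup G)⁆
      rw [Subgroup.commutator_comm]
      exact Subgroup.commutator_mem_commutator (Subgroup.mem_top g) ha
    have h2 : ⁅⁅g, a⁆, h⁆ ∈ M := Subgroup.commutator_mem_commutator h1 (Subgroup.mem_top h)
    have h3 : π ⁅⁅g, a⁆, h⁆ = 1 := (QuotientGroup.eq_one_iff _).2 h2
    rw [map_commutatorElement, map_commutatorElement] at h3
    exact (commutatorElement_eq_one_iff_mul_comm.1 h3).symm
  have hu' : Subgroup.closure (Set.range fun i => π (u i)) = ⊤ := by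
    have h1 : Set.range (fun i => π (u i)) = π '' Set.range u := by
      rw [← Set.range_comp]
      rfl
    rw [h1, ← MonoidHom.map_closure, hu, ← MonoidHom.range_eq_map]
    exact MonoidHom.range_eq_top.2 hπ
  have hw' : (π (List.ofFn fun i => ⁅u i, X i⁆).prod)⁻¹ ∈
      ⁅(Rs R j).map π, (⊤ : Subgroup (G ⧸ M))⁆ := by
    apply Subgroup.inv_mem
    have h1 : (⊤ : Subgroup (G ⧸ M)) = (⊤ : Subgroup G).map π := by
      rw [← MonoidHom.range_eq_map]
      exact (MonoidHom.range_eq_top.2 hπ).symm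
    rw [h1, ← Subgroup.map_commutator]
    exact Subgroup.mem_map_of_mem π hw
  obtain ⟨r', hr', hr2⟩ := abs_c ((Rs R j).map π) hcen (fun i => π (u i)) hu' _ hw'
  choose r hr hrr using hr'
  refine ⟨r, hr, ?_⟩
  rw [← QuotientGroup.eq_one_iff]
  change π _ = 1
  have h1 : ∀ f : Fin n → G, π (List.ofFn f).prod = (List.ofFn fun i => π (f i)).prod := by
    intro f
    rw [map_list_prod, List.map_ofFn]
    rfl
  have h2 : ∀ i, π ⁅u i, X i * r i⁆ = π ⁅u i, X i⁆ * ⁅π (u i), r' i⁆ := by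
    intro i
    rw [map_commutatorElement, map_mul, hrr, com_mul_right, map_commutatorElement]
    rw [← hrr]
    exact hcen _ _ (Subgroup.mem_map_of_mem π (hr i))
  rw [h1]
  simp only [h2]
  rw [ofFn_mul_cen, hr2, h1, mul_inv_cancel]
  intro i
  rw [← hrr]
  exact hcen _ _ (Subgroup.mem_map_of_mem π (hr i))

/-- THE ABSORPTION LEMMA -/
theorem absb [Group.IsNilpotent G] (R : Subgroup G) [R.Normal] {n : ℕ} (u X : Fin n → G)
    (hu : Subgroup.closure (Set.range u) = ⊤)
    (hw : (List.ofFn fun i => ⁅u i, X i⁆).prod ∈ ⁅R, (⊤ : Subgroup G)⁆) :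
    ∃ r : Fin n → G, (∀ i, r i ∈ R) ∧ (List.ofFn fun i => ⁅u i, X i * r i⁆).prod = 1 := by
  have h1 : ∀ j, ∃ r : Fin n → G, (∀ i, r i ∈ R) ∧
      (List.ofFn fun i => ⁅u i, X i * r i⁆).prod ∈ Rs R (j + 1) := by
    intro j
    induction j with
    | zero =>
      refine ⟨fun _ => 1, fun _ => R.one_mem, ?_⟩
      simp only [mul_one]
      exact hw
    | succ j ih =>
      obtain ⟨r, hr, h⟩ := ih
      obtain ⟨r', hr', h'⟩ := abs_step R u (fun i => X i * r i) hu j h
      refine ⟨fun i => r i * r' i, fun i => R.mul_mem (hr i) (rs_le_zero R j (hr' i)), ?_⟩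
      simp only [← mul_assoc]
      exact h'
  obtain ⟨m, hm⟩ := Subgroup.nilpotent_iff_lowerCentralSeries.1 (inferInstance : Group.IsNilpotent G)
  obtain ⟨r, hr, h⟩ := h1 m
  refine ⟨r, hr, ?_⟩
  have h2 := rs_le R (m + 1) h
  have h3 : Subgroup.lowerCentralSeries (⊤ : Subgroup G) (m + 1) ≤
      Subgroup.lowerCentralSeries (⊤ : Subgroup G) m := Subgroup.lowerCentralSeries_antitone _ (Nat.le_succ m)
  have h4 := h3 h2
  rw [hm] at h4
  exact Subgroup.mem_bot.1 h4

end main

end H24.S3
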