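import Pool.Agent.H24.S3.Df
import Pool.Agent.H24.S3.Abs

/-!
# [H24 S3 NFP] the normal form of a symplectic relator

`nfp`: `G` a finite `p`-group generated by the `a i`, `b i`, `i ∈ l` (a list without repetitions), `ρ = ∏ [a i, b i]` modulo `[Φ, G]`, `Φ` generated by commutators and `p`-th powers: after changing the `a i`, `b i` by
elements of `Φ`: `ρ = ∏ [a' i, b' i]` exactly.
Proof. `N_1 := Φ`, `N_(j+1) := [N_j, G] N_j^p` (generated by `[N_j, G]` and the `p`-th powers of elements of `N_j`): normal subgroups, decreasing, `N_j = 1` for large `j`: otherwise some `N = N_j = N_(j+1) ≠ 1` (finite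
group), `[N,G] < N` (`G` nilpotent; `IsPGroup.isNilpotent`), `N / [N,G]` is a nontrivial abelian `p`-group in which all elements are products of `p`-th powers, contradiction.
Claim for all `j ≥ 1`: there are `a'`, `b'` as wanted with `ρ (cw a' b')⁻¹ ∈ [N_j, G]`. `j = 1`: hypothesis. Step: put `C := [N_(j+1), G]`, normal, `C ≥ [[N_j,G],G]`. Modulo `C`: for `n ∈ N_j`, `g ∈ G` the commutator `[n,g]` is
central and bimultiplicative in `(n,g)`, and trivial for `g ∈ Φ`: `[n, g^p] = [n,g]^p = [n^p,g] = 1` because `n^p ∈ N_(j+1)`, and `[n,[g,h]] = 1` by bimultiplicativity (or three subgroups). In particular `[N_j,N_j] ≤ C`.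
The `a' i`, `b' i` generate `G` (they generate `G` modulo `Φ`: Frattini argument; a proper subgroup of a finite `p`-group is contained in the kernel of a nontrivial homomorphism to `ZMod p`, `pg_char` in
H77/WD/Pg.lean, which kills `Φ`, so it would kill the `a i`, `b i`), so `w := ρ (cw a' b')⁻¹ ∈ [N_j,G]` is modulo `C` of the form `∏ [y i, b' i] [a' i, y' i]` with `y i, y' i ∈ N_j` (bimultiplicativity; compare
`abs_step` / `abs_c` in H24/S3/Abs.lean or H77/S3/Abs.lean with `u = Sum.elim a' b'`). Replace `a' i` by `a' i y i`, `b' i` by `b' i y' i`: modulo `C` `[a y, b y'] = [a,b] [y,b] [a,y']` (everything central except `[a,b]`,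
`[y,y'] = 1`), so `ρ (cw a'' b'')⁻¹ ∈ C = [N_(j+1), G]`. For large `j` the commutator subgroup is trivial.
-/

set_option autoImplicit false
set_option linter.dupNamespace false

open scoped NumberField commutatorElement
open IsDedekindDomain
open scoped Classical

noncomputable section

namespace H24.S3

open H63.MA H38.BB H38.BG H57.PC H57.BRA H89.BRG H57.RQ H24.RK Pool.Agent.H19.NF
  Pool.Agent.H19.AB Pool.Agent.H19.A2 Pool.Agent.H19 H77.WD H77.WE H77.GL H77.S3

section aux

variable {G : Type} [Group G]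

private theorem clo_norm (S : Set G) (hS : ∀ g : G, ∀ x ∈ S, g * x * g⁻¹ ∈ S) :
    (Subgroup.closure S).Normal := by
  refine ⟨fun n hn g => ?_⟩
  have h1 : Subgroup.closure S ≤ (Subgroup.closure S).comap (MulAut.conj g).toMonoidHom := by
    rw [Subgroup.closure_le]
    intro x hx
    change (MulAut.conj g) x ∈ Subgroup.closure S
    rw [MulAut.conj_apply]
    exact Subgroup.subset_closure (hS g x hx)
  have h2 := h1 hn
  change (MulAut.conj g) n ∈ Subgroup.closure S at h2
  rwa [MulAut.conj_apply] at h2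

/-- commutators with `N` and `p`-th powers of elements of `N` -/
private def Np (p : ℕ) (N : Subgroup G) : Subgroup G :=
  ⁅N, (⊤ : Subgroup G)⁆ ⊔ Subgroup.closure ((fun x => x ^ p) '' (N : Set G))

private theorem np_norm (p : ℕ) (N : Subgroup G) (hN : N.Normal) : (Np p N).Normal := by
  have h1 : (Subgroup.closure ((fun x => x ^ p) '' (N : Set G))).Normal := by
    apply clo_norm
    rintro g _ ⟨x, hx, rfl⟩
    exact ⟨g * x * g⁻¹, hN.conj_mem x hx g, conj_pow⟩
  unfold Np
  infer_instance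

private theorem np_le (p : ℕ) (N : Subgroup G) (hN : N.Normal) : Np p N ≤ N := by
  unfold Np
  rw [sup_le_iff]
  refine ⟨Subgroup.commutator_le_left _ _, ?_⟩
  rw [Subgroup.closure_le]
  rintro _ ⟨x, hx, rfl⟩
  exact N.pow_mem hx p

private theorem phi_norm (p : ℕ) : (Phi p G).Normal := by
  have h1 : (Subgroup.closure (Set.range fun x : G => x ^ p)).Normal := by
    apply clo_norm
    rintro g _ ⟨x, rfl⟩
    exact ⟨g * x * g⁻¹, conj_pow⟩
  unfold Phi
  infer_instance

private theorem np_bot {p : ℕ} (hp : p.Prime) [Finite G] (hG : IsPGroup p G) (N : Subgroup G)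
    (hN : N.Normal) (h : N ≤ Np p N) : N = ⊥ := by
  have : Fact p.Prime := ⟨hp⟩
  by_contra hne
  have hnil : Group.IsNilpotent G := hG.isNilpotent
  set D : Subgroup G := ⁅N, (⊤ : Subgroup G)⁆ with hD
  have hDN : ¬ N ≤ D := by
    intro hle
    apply hne
    have h1 : ∀ n, N ≤ Subgroup.lowerCentralSeries (⊤ : Subgroup G) n := by
      intro n
      induction n with
      | zero => exact le_top
      | succ n ih => exact hle.trans (Subgroup.commutator_mono ih le_rfl)
    obtain ⟨m, hm⟩ := Subgroup.nilpotent_iff_lowerCentralSeries.1 hnil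
    have h2 := h1 m
    rw [hm] at h2
    exact le_bot_iff.1 h2
  have hDn : D.Normal := inferInstance
  let π : G →* G ⧸ D := QuotientGroup.mk' D
  have hcen : ∀ x ∈ N, ∀ g : G ⧸ D, π x * g = g * π x := by
    intro x hx g
    obtain ⟨g, rfl⟩ := QuotientGroup.mk'_surjective D g
    have h1 : ⁅x, g⁆ ∈ D := Subgroup.commutator_mem_commutator hx (Subgroup.mem_top g)
    have h2 : π ⁅x, g⁆ = 1 := (QuotientGroup.eq_one_iff _).2 h1
    rw [map_commutatorElement] at h2
    exact commutatorElement_eq_one_iff_mul_comm.1 h2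
  let M : Subgroup (G ⧸ D) := N.map π
  have hM : ∀ x ∈ M, ∀ g, x * g = g * x := by
    rintro _ ⟨x, hx, rfl⟩ g
    exact hcen x hx g
  let S : Subgroup (G ⧸ D) :=
    { carrier := {y | ∃ x ∈ M, x ^ p = y}
      one_mem' := ⟨1, M.one_mem, one_pow p⟩
      mul_mem' := by
        rintro _ _ ⟨x, hx, rfl⟩ ⟨y, hy, rfl⟩
        exact ⟨x * y, M.mul_mem hx hy, Commute.mul_pow (hM x hx y) p⟩
      inv_mem' := by
        rintro _ ⟨x, hx, rfl⟩
        exact ⟨x⁻¹, M.inv_mem hx, inv_pow x p⟩ }
  have hMS : M ≤ S := by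
    have h1 : Np p N ≤ S.comap π := by
      unfold Np
      rw [sup_le_iff]
      constructor
      · intro x hx
        have h2 : π x = 1 := (QuotientGroup.eq_one_iff _).2 hx
        change π x ∈ S
        rw [h2]
        exact S.one_mem
      · rw [Subgroup.closure_le]
        rintro _ ⟨x, hx, rfl⟩
        change π (x ^ p) ∈ S
        exact ⟨π x, Subgroup.mem_map_of_mem π hx, (map_pow π x p).symm⟩
    rintro _ ⟨x, hx, rfl⟩
    exact h1 (h hx)
  have hsur : Function.Surjective fun x : M => (⟨x.1 ^ p, M.pow_mem x.2 p⟩ : M) := by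
    rintro ⟨y, hy⟩
    obtain ⟨x, hx, hxy⟩ := hMS hy
    exact ⟨⟨x, hx⟩, Subtype.ext hxy⟩
  have hinj := Finite.injective_iff_surjective.2 hsur
  obtain ⟨x, hx, hxD⟩ := Set.not_subset.1 hDN
  have hx1 : π x ≠ 1 := fun h' => hxD ((QuotientGroup.eq_one_iff _).1 h')
  obtain ⟨k, hk⟩ := hG x
  have h3 : ∀ k, (π x) ^ (p ^ k) = 1 → π x = 1 := by
    intro k
    induction k with
    | zero =>
      intro h'
      simpa using h'
    | succ k ih =>
      intro h'
      apply ih
      rw [pow_succ, pow_mul] at h'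
      have hm : (π x) ^ (p ^ k) ∈ M := M.pow_mem (Subgroup.mem_map_of_mem π hx) _
      have h4 := @hinj ⟨(π x) ^ (p ^ k), hm⟩ ⟨1, M.one_mem⟩ (Subtype.ext (by
        change ((π x) ^ (p ^ k)) ^ p = 1 ^ p
        rw [h', one_pow]))
      exact congrArg Subtype.val h4
  exact hx1 (h3 k (by rw [← map_pow, hk, map_one]))

private theorem map_mul_cen {ι : Type} (l : List ι) (a c : ι → G)
    (hc : ∀ i, c i ∈ Subgroup.center G) :
    (l.map fun i => a i * c i).prod = (l.map a).prod * (l.map c).prod := by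
  induction l with
  | nil => simp
  | cons i l ih =>
    simp only [List.map_cons, List.prod_cons]
    rw [ih]
    have h1 := Subgroup.mem_center_iff.1 (hc i) (l.map a).prod
    calc a i * c i * ((l.map a).prod * (l.map c).prod)
        = a i * (c i * (l.map a).prod) * (l.map c).prod := by group
      _ = a i * ((l.map a).prod * c i) * (l.map c).prod := by rw [h1]
      _ = _ := by group

private theorem map_one_prod {ι : Type} (l : List ι) (f : ι → G) (h : ∀ i ∈ l, f i = 1) :
    (l.map f).prod = 1 := by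
  apply List.prod_eq_one
  intro x hx
  obtain ⟨i, hi, rfl⟩ := List.mem_map.1 hx
  exact h i hi

private theorem map_single {ι : Type} {l : List ι} (hl : l.Nodup) (f : ι → G) {j : ι} (hj : j ∈ l)
    (h : ∀ i, i ≠ j → f i = 1) : (l.map f).prod = f j := by
  induction l with
  | nil => exact absurd hj List.not_mem_nil
  | cons i l ih =>
    rw [List.nodup_cons] at hl
    simp only [List.map_cons, List.prod_cons]
    by_cases hij : i = j
    · subst hij
      rw [map_one_prod l f fun k hk => h k fun h' => hl.1 (h' ▸ hk), mul_one]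
    · rw [h i hij, one_mul]
      exact ih hl.2 ((List.mem_cons.1 hj).resolve_left fun h' => hij h'.symm)

/-- the elements of `⁅N, ⊤⁆` as products -/
private theorem form (N : Subgroup G)
    (hc : ∀ n ∈ N, ∀ g : G, ⁅n, g⁆ ∈ Subgroup.center G) (P : Subgroup G)
    (hP : ∀ n ∈ N, ∀ f ∈ P, ⁅n, f⁆ = 1) {ι : Type} {l : List ι} (hl : l.Nodup)
    (a b a' b' : ι → G) (hgen : Subgroup.closure (a '' {i | i ∈ l} ∪ b '' {i | i ∈ l}) = ⊤)
    (ha : ∀ i, a' i * (a i)⁻¹ ∈ P) (hb : ∀ i, b' i * (b i)⁻¹ ∈ P) (w : G)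
    (hw : w ∈ ⁅N, (⊤ : Subgroup G)⁆) :
    ∃ y z : ι → G, (∀ i, y i ∈ N) ∧ (∀ i, z i ∈ N) ∧
      (l.map fun i => ⁅y i, b' i⁆ * ⁅a' i, z i⁆).prod = w := by
  have hc' : ∀ n ∈ N, ∀ g : G, ⁅g, n⁆ ∈ Subgroup.center G := by
    intro n hn g
    rw [← commutatorElement_inv]
    exact Subgroup.inv_mem _ (hc n hn g)
  have hcc : ∀ y z : ι → G, (∀ i, y i ∈ N) → (∀ i, z i ∈ N) → ∀ i,
      ⁅y i, b' i⁆ * ⁅a' i, z i⁆ ∈ Subgroup.center G := fun y z hy hz i =>
    Subgroup.mul_mem _ (hc _ (hy i) _) (hc' _ (hz i) _)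
  have hbil : ∀ y y' z z' : ι → G, (∀ i, y i ∈ N) → (∀ i, z i ∈ N) → (∀ i, y' i ∈ N) →
      (∀ i, z' i ∈ N) → ∀ i, ⁅y i * y' i, b' i⁆ * ⁅a' i, z i * z' i⁆ =
        (⁅y i, b' i⁆ * ⁅a' i, z i⁆) * (⁅y' i, b' i⁆ * ⁅a' i, z' i⁆) := by
    intro y y' z z' hy hz hy' hz' i
    rw [com_mul_left (hc _ (hy' i) _), com_mul_right (hc' _ (hz' i) _)]
    have h1 := Subgroup.mem_center_iff.1 (hc _ (hy' i) (b' i)) ⁅a' i, z i⁆
    calc ⁅y i, b' i⁆ * ⁅y' i, b' i⁆ * (⁅a' i, z i⁆ * ⁅a' i, z' i⁆)
        = ⁅y i, b' i⁆ * (⁅y' i, b' i⁆ * ⁅a' i, z i⁆) * ⁅a' i, z' i⁆ := by group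
      _ = ⁅y i, b' i⁆ * (⁅a' i, z i⁆ * ⁅y' i, b' i⁆) * ⁅a' i, z' i⁆ := by rw [h1]
      _ = _ := by group
  let F : Subgroup G :=
    { carrier := {w | ∃ y z : ι → G, (∀ i, y i ∈ N) ∧ (∀ i, z i ∈ N) ∧
        (l.map fun i => ⁅y i, b' i⁆ * ⁅a' i, z i⁆).prod = w}
      one_mem' := ⟨fun _ => 1, fun _ => 1, fun _ => N.one_mem, fun _ => N.one_mem,
        map_one_prod _ _ fun i _ => by
          rw [commutatorElement_one_left, commutatorElement_one_right, one_mul]⟩
      mul_mem' := by
        rintro _ _ ⟨y, z, hy, hz, rfl⟩ ⟨y', z', hy', hz', rfl⟩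
        refine ⟨fun i => y i * y' i, fun i => z i * z' i, fun i => N.mul_mem (hy i) (hy' i),
          fun i => N.mul_mem (hz i) (hz' i), ?_⟩
        rw [← map_mul_cen _ _ _ (hcc y' z' hy' hz')]
        congr 2
        funext i
        exact hbil y y' z z' hy hz hy' hz' i
      inv_mem' := by
        rintro _ ⟨y, z, hy, hz, rfl⟩
        refine ⟨fun i => (y i)⁻¹, fun i => (z i)⁻¹, fun i => N.inv_mem (hy i),
          fun i => N.inv_mem (hz i), ?_⟩
        apply eq_inv_of_mul_eq_one_left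
        rw [← map_mul_cen _ _ _ (hcc y z hy hz)]
        refine map_one_prod _ _ fun i _ => ?_
        have h1 := hbil (fun i => (y i)⁻¹) y (fun i => (z i)⁻¹) z (fun i => N.inv_mem (hy i))
          (fun i => N.inv_mem (hz i)) hy hz i
        rw [← h1, inv_mul_cancel, inv_mul_cancel, commutatorElement_one_left,
          commutatorElement_one_right, one_mul] }
  have hsplit : ∀ n ∈ N, ∀ x x' : G, x' * x⁻¹ ∈ P → ⁅n, x'⁆ = ⁅n, x⁆ := by
    intro n hn x x' h
    have h1 : x' = x' * x⁻¹ * x := by group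
    rw [h1, com_mul_right (hc n hn x), hP n hn _ h, one_mul]
  have h1 : ∀ g ∈ Subgroup.closure (a '' {i | i ∈ l} ∪ b '' {i | i ∈ l}), ∀ n ∈ N,
      ⁅n, g⁆ ∈ F := by
    intro g hg
    induction hg using Subgroup.closure_induction with
    | mem x hx =>
      intro n hn
      rcases hx with ⟨j, hj, rfl⟩ | ⟨j, hj, rfl⟩
      · refine ⟨fun _ => 1, fun i => if i = j then n⁻¹ else 1, fun _ => N.one_mem, fun i => ?_, ?_⟩
        · change (if i = j then n⁻¹ else 1) ∈ N
          split_ifs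
          · exact N.inv_mem hn
          · exact N.one_mem
        · rw [map_single hl _ hj]
          · simp only [if_true]
            rw [commutatorElement_one_left, one_mul, ← commutatorElement_inv]
            have h2 : ⁅n⁻¹, a' j⁆ * ⁅n, a' j⁆ = 1 := by
              rw [← com_mul_left (hc n hn _), inv_mul_cancel, commutatorElement_one_left]
            rw [eq_inv_of_mul_eq_one_left h2, inv_inv]
            exact hsplit n hn _ _ (ha j)
          · intro i hij
            simp only [if_neg hij]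
            rw [commutatorElement_one_left, commutatorElement_one_right, one_mul]
      · refine ⟨fun i => if i = j then n else 1, fun _ => 1, fun i => ?_, fun _ => N.one_mem, ?_⟩
        · change (if i = j then n else 1) ∈ N
          split_ifs
          · exact hn
          · exact N.one_mem
        · rw [map_single hl _ hj]
          · simp only [if_true]
            rw [commutatorElement_one_right, mul_one]
            exact hsplit n hn _ _ (hb j)
          · intro i hij
            simp only [if_neg hij]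
            rw [commutatorElement_one_left, commutatorElement_one_right, one_mul]
    | one =>
      intro n _
      rw [commutatorElement_one_right]
      exact F.one_mem
    | mul x y _ _ hx hy =>
      intro n hn
      rw [com_mul_right (hc n hn y)]
      exact F.mul_mem (hx n hn) (hy n hn)
    | inv x _ hx =>
      intro n hn
      have h2 : ⁅n, x⁻¹⁆ * ⁅n, x⁆ = 1 := by
        rw [← com_mul_right (hc n hn x), inv_mul_cancel, commutatorElement_one_right]
      rw [eq_inv_of_mul_eq_one_left h2]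
      exact F.inv_mem (hx n hn)
  have h2 : ⁅N, (⊤ : Subgroup G)⁆ ≤ F := by
    rw [Subgroup.commutator_le]
    intro n hn g _
    exact h1 g (by rw [hgen]; exact Subgroup.mem_top g) n hn
  exact h2 hw

/-- one step -/
private theorem nstep {p : ℕ} (N : Subgroup G) (hN : N.Normal) (hNP : N ≤ Phi p G) {ι : Type}
    {l : List ι} (hl : l.Nodup) (a b a' b' : ι → G)
    (hgen : Subgroup.closure (a '' {i | i ∈ l} ∪ b '' {i | i ∈ l}) = ⊤)
    (ha : ∀ i, a' i * (a i)⁻¹ ∈ Phi p G) (hb : ∀ i, b' i * (b i)⁻¹ ∈ Phi p G) {ρ : G}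
    (hρ : ρ * (cw l a' b')⁻¹ ∈ ⁅N, (⊤ : Subgroup G)⁆) :
    ∃ a'' b'' : ι → G, (∀ i, a'' i * (a i)⁻¹ ∈ Phi p G) ∧ (∀ i, b'' i * (b i)⁻¹ ∈ Phi p G) ∧
      ρ * (cw l a'' b'')⁻¹ ∈ ⁅Np p N, (⊤ : Subgroup G)⁆ := by
  have hNp := np_norm p N hN
  have hPn : (Phi p G).Normal := phi_norm p
  set C : Subgroup G := ⁅Np p N, (⊤ : Subgroup G)⁆ with hC
  have hCn : C.Normal := inferInstance
  let π : G →* G ⧸ C := QuotientGroup.mk' C
  have hπ : Function.Surjective π := QuotientGroup.mk'_surjective C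
  have hc : ∀ n ∈ N.map π, ∀ g : G ⧸ C, ⁅n, g⁆ ∈ Subgroup.center (G ⧸ C) := by
    rintro _ ⟨n, hn, rfl⟩ g
    obtain ⟨g, rfl⟩ := hπ g
    rw [Subgroup.mem_center_iff]
    intro h
    obtain ⟨h, rfl⟩ := hπ h
    have h1 : ⁅n, g⁆ ∈ Np p N := (le_sup_left : ⁅N, (⊤ : Subgroup G)⁆ ≤ Np p N)
      (Subgroup.commutator_mem_commutator hn (Subgroup.mem_top g))
    have h2 : ⁅⁅n, g⁆, h⁆ ∈ C := Subgroup.commutator_mem_commutator h1 (Subgroup.mem_top h)
    have h3 : π ⁅⁅n, g⁆, h⁆ = 1 := (QuotientGroup.eq_one_iff _).2 h2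
    rw [map_commutatorElement, map_commutatorElement] at h3
    exact (commutatorElement_eq_one_iff_mul_comm.1 h3).symm
  have hP : ∀ n ∈ N.map π, ∀ f ∈ (Phi p G).map π, ⁅n, f⁆ = 1 := by
    rintro n hn _ ⟨f, hf, rfl⟩
    let ψ : G →* Subgroup.center (G ⧸ C) :=
      { toFun := fun g => ⟨⁅n, π g⁆, hc n hn _⟩
        map_one' := by
          apply Subtype.ext
          change ⁅n, π 1⁆ = 1
          rw [map_one, commutatorElement_one_right]
        map_mul' := by
          intro x y
          apply Subtype.ext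
          change ⁅n, π (x * y)⁆ = ⁅n, π x⁆ * ⁅n, π y⁆
          rw [map_mul, com_mul_right (hc n hn _)] }
    have hpow : ∀ k : ℕ, ∀ g : G ⧸ C, ⁅n ^ k, g⁆ = ⁅n, g⁆ ^ k := by
      intro k g
      induction k with
      | zero => rw [pow_zero, pow_zero, commutatorElement_one_left]
      | succ k ih => rw [pow_succ, com_mul_left (hc n hn g), ih, pow_succ]
    have h1 : Phi p G ≤ ψ.ker := by
      unfold Phi
      rw [sup_le_iff]
      constructor
      · rw [commutator_def, Subgroup.commutator_le]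
        intro x _ y _
        rw [MonoidHom.mem_ker, map_commutatorElement, commutatorElement_eq_one_iff_mul_comm]
        apply Subtype.ext
        exact (Subgroup.mem_center_iff.1 (ψ x).2 (ψ y).1).symm
      · rw [Subgroup.closure_le]
        rintro _ ⟨x, rfl⟩
        change ψ (x ^ p) = 1
        rw [map_pow]
        apply Subtype.ext
        change ⁅n, π x⁆ ^ p = 1
        rw [← hpow]
        obtain ⟨n', hn', rfl⟩ := hn
        rw [← map_pow, ← map_commutatorElement]
        refine (QuotientGroup.eq_one_iff _).2 ?_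
        exact Subgroup.commutator_mem_commutator
          ((le_sup_right : Subgroup.closure ((fun x => x ^ p) '' (N : Set G)) ≤ Np p N)
            (Subgroup.subset_closure ⟨n', hn', rfl⟩)) (Subgroup.mem_top x)
    have h2 := h1 hf
    rw [MonoidHom.mem_ker] at h2
    exact congrArg Subtype.val h2
  have hgen' : Subgroup.closure ((fun i => π (a i)) '' {i | i ∈ l} ∪
      (fun i => π (b i)) '' {i | i ∈ l}) = ⊤ := by
    have h1 : (fun i => π (a i)) '' {i | i ∈ l} ∪ (fun i => π (b i)) '' {i | i ∈ l} =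
        π '' (a '' {i | i ∈ l} ∪ b '' {i | i ∈ l}) := by
      rw [Set.image_union, Set.image_image, Set.image_image]
    rw [h1, ← MonoidHom.map_closure, hgen, ← MonoidHom.range_eq_map]
    exact MonoidHom.range_eq_top.2 hπ
  have hw' : π (ρ * (cw l a' b')⁻¹) ∈ ⁅N.map π, (⊤ : Subgroup (G ⧸ C))⁆ := by
    have h1 : (⊤ : Subgroup (G ⧸ C)) = (⊤ : Subgroup G).map π := by
      rw [← MonoidHom.range_eq_map]
      exact (MonoidHom.range_eq_top.2 hπ).symm
    rw [h1, ← Subgroup.map_commutator]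
    exact Subgroup.mem_map_of_mem π hρ
  have hmem : ∀ x y : G, x * y⁻¹ ∈ Phi p G → π x * (π y)⁻¹ ∈ (Phi p G).map π := by
    intro x y h
    rw [← map_inv, ← map_mul]
    exact Subgroup.mem_map_of_mem π h
  obtain ⟨y', z', hy', hz', hyz⟩ := form (N.map π) hc ((Phi p G).map π) hP hl
    (fun i => π (a i)) (fun i => π (b i)) (fun i => π (a' i)) (fun i => π (b' i)) hgen'
    (fun i => hmem _ _ (ha i)) (fun i => hmem _ _ (hb i)) _ hw'
  choose y hy hyy using hy'
  choose z hz hzz using hz'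
  have hmul : ∀ x x' n : G, x' * x⁻¹ ∈ Phi p G → n ∈ N → x' * n * x⁻¹ ∈ Phi p G := by
    intro x x' n h hn
    have h1 : x' * n * x⁻¹ = (x' * x⁻¹) * (x * n * x⁻¹) := by group
    rw [h1]
    exact (Phi p G).mul_mem h (hPn.conj_mem n (hNP hn) x)
  refine ⟨fun i => a' i * y i, fun i => b' i * z i, fun i => hmul _ _ _ (ha i) (hy i),
    fun i => hmul _ _ _ (hb i) (hz i), ?_⟩
  rw [← QuotientGroup.eq_one_iff]
  change π (ρ * (cw l (fun i => a' i * y i) (fun i => b' i * z i))⁻¹) = 1
  have hcw : ∀ u v : ι → G, π (cw l u v) = (l.map fun i => ⁅π (u i), π (v i)⁆).prod := by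
    intro u v
    unfold cw
    rw [map_list_prod, List.map_map]
    congr 1
  have hyN : ∀ i, y' i ∈ N.map π := fun i => by
    rw [← hyy i]
    exact Subgroup.mem_map_of_mem π (hy i)
  have hzN : ∀ i, z' i ∈ N.map π := fun i => by
    rw [← hzz i]
    exact Subgroup.mem_map_of_mem π (hz i)
  have hc' : ∀ n ∈ N.map π, ∀ g : G ⧸ C, ⁅g, n⁆ ∈ Subgroup.center (G ⧸ C) := by
    intro n hn g
    rw [← commutatorElement_inv]
    exact Subgroup.inv_mem _ (hc n hn g)
  have hzP : ∀ i, z' i ∈ (Phi p G).map π := fun i => by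
    rw [← hzz i]
    exact Subgroup.mem_map_of_mem π (hNP (hz i))
  have h4 : ∀ i, ⁅π (a' i * y i), π (b' i * z i)⁆ =
      ⁅π (a' i), π (b' i)⁆ * (⁅y' i, π (b' i)⁆ * ⁅π (a' i), z' i⁆) := by
    intro i
    rw [map_mul, map_mul, hyy i, hzz i]
    rw [com_mul_left (hc _ (hyN i) _), com_mul_right (hc' _ (hzN i) (π (a' i))),
      com_mul_right (hc' _ (hzN i) (y' i)), hP _ (hyN i) _ (hzP i), mul_one]
    have h5 := Subgroup.mem_center_iff.1 (hc _ (hyN i) (π (b' i))) ⁅π (a' i), z' i⁆
    rw [mul_assoc, h5]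
  rw [map_mul, map_inv, hcw]
  simp only [h4]
  rw [map_mul_cen, hyz, map_mul, map_inv, hcw]
  · set X := (l.map fun i => ⁅π (a' i), π (b' i)⁆).prod with hX
    have h6 : π ρ * X⁻¹ ∈ Subgroup.center (G ⧸ C) := by
      have h7 : ⁅N.map π, (⊤ : Subgroup (G ⧸ C))⁆ ≤ Subgroup.center (G ⧸ C) := by
        rw [Subgroup.commutator_le]
        intro n hn g _
        exact hc n hn g
      have h8 := h7 hw'
      rw [map_mul, map_inv, hcw] at h8
      exact h8
    have h9 := Subgroup.mem_center_iff.1 h6 X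
    rw [h9]
    group
  · intro i
    exact Subgroup.mul_mem _ (hc _ (hyN i) _) (hc' _ (hzN i) _)

end aux

theorem nfp {p : ℕ} (hp : p.Prime) {G : Type} [Group G] [Finite G] (hG : IsPGroup p G) {ι : Type}
    {l : List ι} (hl : l.Nodup) (a b : ι → G)
    (hgen : Subgroup.closure (a '' {i | i ∈ l} ∪ b '' {i | i ∈ l}) = ⊤) {ρ : G}
    (hρ : ρ * (cw l a b)⁻¹ ∈ ⁅Phi p G, (⊤ : Subgroup G)⁆) :
    ∃ a' b' : ι → G, (∀ i, a' i * (a i)⁻¹ ∈ Phi p G) ∧ (∀ i, b' i * (b i)⁻¹ ∈ Phi p G) ∧
      cw l a' b' = ρ := by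
  have key : ∀ n : ℕ, ∀ N : Subgroup G, N.Normal → N ≤ Phi p G → Nat.card N ≤ n →
      ∀ a' b' : ι → G, (∀ i, a' i * (a i)⁻¹ ∈ Phi p G) → (∀ i, b' i * (b i)⁻¹ ∈ Phi p G) →
        ρ * (cw l a' b')⁻¹ ∈ ⁅N, (⊤ : Subgroup G)⁆ →
        ∃ a' b' : ι → G, (∀ i, a' i * (a i)⁻¹ ∈ Phi p G) ∧ (∀ i, b' i * (b i)⁻¹ ∈ Phi p G) ∧
          cw l a' b' = ρ := by
    intro n
    induction n with
    | zero =>
      intro N _ _ hn
      have : 0 < Nat.card N := Nat.card_pos
      omega
    | succ n ih =>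
      intro N hN hNP hn a' b' ha hb hr
      by_cases hbot : N = ⊥
      · refine ⟨a', b', ha, hb, ?_⟩
        rw [hbot, Subgroup.commutator_bot_left, Subgroup.mem_bot] at hr
        exact (mul_inv_eq_one.1 hr).symm
      · obtain ⟨a'', b'', ha'', hb'', hr''⟩ := nstep N hN hNP hl a b a' b' hgen ha hb hr
        refine ih (Np p N) (np_norm p N hN) ((np_le p N hN).trans hNP) ?_ a'' b'' ha'' hb'' hr''
        have hne : Np p N ≠ N := fun h => hbot (np_bot hp hG N hN h.ge)
        have hlt : Np p N < N := lt_of_le_of_ne (np_le p N hN) hne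
        have h1 : Nat.card (Np p N) < Nat.card N := by
          have h2 : (Np p N : Set G) ⊂ (N : Set G) := SetLike.coe_ssubset_coe.2 hlt
          exact Set.Finite.card_lt_card (Set.toFinite _) h2
        omega
  refine key _ (Phi p G) (phi_norm p) le_rfl le_rfl a b (fun i => ?_) (fun i => ?_) hρ
  · rw [mul_inv_cancel]
    exact Subgroup.one_mem _
  · rw [mul_inv_cancel]
    exact Subgroup.one_mem _

end H24.S3
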