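import Pool.Agent.H24.S3.U3a

/-!
# [H24 S3 U3L] the unitriangular groups detect the leading term

`u3l`: `w` in the commutator subgroup of `F = FreeGroup ι` (`ι` finite), `z(u3 ψ₁ ψ₂ w) = 0` for all `ψ₁, ψ₂`: `w ∈ [Φ, F]`, `Φ` generated by commutators and `p`-th powers.
Proof. `N := ⁅Phi p F, ⊤⁆` is normal, `N ≤ commutator F`. In `F / N` commutators are central (`[[F,F],F] ≤ N`), bimultiplicative, and `[x,y]^p = [x^p,y] = 1`. So every element of `commutator F` is modulo `N` a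
product of powers `[x_i, x_j]^(n i j)`, `i < j` in a linear order of `ι` (WLOG `ι = Fin n`, or any linear order; or: `∏_{i,j} [x_i,x_j]^(n i j)` over all pairs and use `[x_j,x_i] = [x_i,x_j]⁻¹` to collect). Induction:
the set of the `w ∈ commutator F` which are of this form modulo `N` is a subgroup which contains all commutators `[a,b]` (bimultiplicativity and induction over the words `a`, `b`: `FreeGroup.induction_on`), and
`commutator F` is generated by the commutators. Now `ψ₁ = Pi.single i 1`, `ψ₂ = Pi.single j 1` (`i < j`): `z([x_a,x_b]) = ψ₁ a ψ₂ b - ψ₁ b ψ₂ a` is `1` for `(a,b) = (i,j)` and `0` for the other pairs `a < b`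
(`u3_cw` / `u3_mul`; `N` is killed: `Phi` is mapped to elements with first component `1`, which are central). So `n i j = 0` modulo `p`, and `[x_i,x_j]^p ∈ N`.
-/

set_option autoImplicit false
set_option linter.dupNamespace false

open scoped NumberField commutatorElement
open IsDedekindDomain
open scoped Classical

noncomputable section

namespace H24.S3

open H63.MA H38.BB H38.BG H57.PC H57.BRA H89.BRG H57.RQ H24.RK Pool.Agent.H19.NF
  Pool.Agent.H19.AB Pool.Agent.H19.A2 Pool.Agent.H19 H77.WD H77.WE H77.GL H77.S3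

section

variable {G : Type} [Group G]

private theorem u3l_phi_normal (p : ℕ) : (Phi p G).Normal := by
  refine ⟨fun x hx g => ?_⟩
  have h1 : g * x * g⁻¹ = ⁅g, x⁆ * x := by
    simp only [commutatorElement_def]
    group
  rw [h1]
  refine mul_mem (Subgroup.mem_sup_left ?_) hx
  exact Subgroup.commutator_mem_commutator (Subgroup.mem_top _) (Subgroup.mem_top _)

/-- the commutator as an element of the centre -/
private def u3l_cc (hc : ∀ x y : G, ⁅x, y⁆ ∈ Subgroup.center G) (x y : G) : Subgroup.center G :=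
  ⟨⁅x, y⁆, hc x y⟩

private theorem u3l_cc_mul (hc : ∀ x y : G, ⁅x, y⁆ ∈ Subgroup.center G) (x x' y : G) :
    u3l_cc hc (x * x') y = u3l_cc hc x y * u3l_cc hc x' y := by
  apply Subtype.ext
  change ⁅x * x', y⁆ = ⁅x, y⁆ * ⁅x', y⁆
  have h1 := Subgroup.mem_center_iff.1 (hc x' y) x
  have h3 := Subgroup.mem_center_iff.1 (hc x' y) ⁅x, y⁆
  have h2 : ⁅x * x', y⁆ = x * ⁅x', y⁆ * x⁻¹ * ⁅x, y⁆ := by
    simp only [commutatorElement_def]
    group
  rw [h2, h1, h3]
  group

private theorem u3l_cc_symm (hc : ∀ x y : G, ⁅x, y⁆ ∈ Subgroup.center G) (x y : G) :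
    u3l_cc hc y x = (u3l_cc hc x y)⁻¹ := by
  apply Subtype.ext
  change ⁅y, x⁆ = ⁅x, y⁆⁻¹
  rw [commutatorElement_inv]

/-- the commutator with `y` -/
private def u3l_hom (hc : ∀ x y : G, ⁅x, y⁆ ∈ Subgroup.center G) (y : G) : G →* Subgroup.center G :=
  MonoidHom.mk' (fun x => u3l_cc hc x y) fun x x' => u3l_cc_mul hc x x' y

private theorem u3l_cc_pow (hc : ∀ x y : G, ⁅x, y⁆ ∈ Subgroup.center G) {p : ℕ}
    (hp : ∀ x : G, x ^ p ∈ Subgroup.center G) (x y : G) : u3l_cc hc x y ^ p = 1 := by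
  have h1 : u3l_hom hc y (x ^ p) = u3l_cc hc x y ^ p := map_pow (u3l_hom hc y) x p
  rw [← h1]
  apply Subtype.ext
  change ⁅x ^ p, y⁆ = 1
  rw [commutatorElement_eq_one_iff_mul_comm]
  exact (Subgroup.mem_center_iff.1 (hp x) y).symm

/-- the centre is commutative -/
private abbrev u3l_cg (G : Type) [Group G] : CommGroup (Subgroup.center G) :=
  { (inferInstance : Group (Subgroup.center G)) with
    mul_comm := fun a b => Subtype.ext (Subgroup.mem_center_iff.1 b.2 a.1) }

attribute [local instance] u3l_cg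

/-- the products of powers of `c s` -/
private def u3l_H {C κ : Type} [CommGroup C] [Fintype κ] (c : κ → C) : Subgroup C where
  carrier := {x | ∃ n : κ → ℤ, x = ∏ s, c s ^ n s}
  mul_mem' := by
    rintro x y ⟨n, rfl⟩ ⟨m, rfl⟩
    exact ⟨n + m, by simp only [Pi.add_apply, zpow_add, Finset.prod_mul_distrib]⟩
  one_mem' := ⟨0, by simp⟩
  inv_mem' := by
    rintro x ⟨n, rfl⟩
    exact ⟨-n, by simp only [Pi.neg_apply, zpow_neg, Finset.prod_inv_distrib]⟩

private theorem u3l_H_mem {C κ : Type} [CommGroup C] [Fintype κ] (c : κ → C) (s : κ) :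
    c s ∈ u3l_H c := by
  refine ⟨Pi.single s 1, ?_⟩
  rw [Finset.prod_eq_single s]
  · simp
  · intro t _ ht
    rw [Pi.single_eq_of_ne ht, zpow_zero]
  · intro h
    exact absurd (Finset.mem_univ s) h

end

theorem u3l {p : ℕ} (hp : p.Prime) {ι : Type} [Finite ι] {w : FreeGroup ι}
    (hw : w ∈ commutator (FreeGroup ι))
    (h : ∀ ψ₁ ψ₂ : ι → ZMod p, (u3 p ψ₁ ψ₂ w).z = 0) :
    w ∈ ⁅Phi p (FreeGroup ι), (⊤ : Subgroup (FreeGroup ι))⁆ := by
  have : Fintype ι := Fintype.ofFinite ι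
  have hPhi := u3l_phi_normal (G := FreeGroup ι) p
  have hcomPhi : commutator (FreeGroup ι) ≤ Phi p (FreeGroup ι) := le_sup_left
  have hpowPhi : ∀ x : FreeGroup ι, x ^ p ∈ Phi p (FreeGroup ι) := fun x =>
    Subgroup.mem_sup_right (Subgroup.subset_closure ⟨x, rfl⟩)
  obtain ⟨N, hN⟩ : ∃ N, N = ⁅Phi p (FreeGroup ι), (⊤ : Subgroup (FreeGroup ι))⁆ := ⟨_, rfl⟩
  rw [← hN]
  have hNn : N.Normal := by rw [hN]; infer_instance
  let _ := u3l_cg (FreeGroup ι ⧸ N)
  obtain ⟨q, hq⟩ : ∃ q, q = QuotientGroup.mk' N := ⟨_, rfl⟩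
  have hqs : Function.Surjective q := by rw [hq]; exact QuotientGroup.mk'_surjective N
  have hq1 : ∀ x, q x = 1 ↔ x ∈ N := by
    intro x
    rw [hq]
    exact QuotientGroup.eq_one_iff x
  have hcen : ∀ x ∈ Phi p (FreeGroup ι), q x ∈ Subgroup.center (FreeGroup ι ⧸ N) := by
    intro x hx
    rw [Subgroup.mem_center_iff]
    intro y
    obtain ⟨y, rfl⟩ := hqs y
    have h1 : q ⁅x, y⁆ = 1 := by
      rw [hq1, hN]
      exact Subgroup.commutator_mem_commutator hx (Subgroup.mem_top y)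
    rw [map_commutatorElement, commutatorElement_eq_one_iff_mul_comm] at h1
    exact h1.symm
  have hc : ∀ x y : FreeGroup ι ⧸ N, ⁅x, y⁆ ∈ Subgroup.center (FreeGroup ι ⧸ N) := by
    intro x y
    obtain ⟨x, rfl⟩ := hqs x
    obtain ⟨y, rfl⟩ := hqs y
    rw [← map_commutatorElement]
    exact hcen _ (hcomPhi (Subgroup.commutator_mem_commutator (Subgroup.mem_top _)
      (Subgroup.mem_top _)))
  have hpc : ∀ x : FreeGroup ι ⧸ N, x ^ p ∈ Subgroup.center (FreeGroup ι ⧸ N) := by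
    intro x
    obtain ⟨x, rfl⟩ := hqs x
    rw [← map_pow]
    exact hcen _ (hpowPhi x)
  let c : ι × ι → Subgroup.center (FreeGroup ι ⧸ N) := fun s =>
    u3l_cc hc (q (FreeGroup.of s.1)) (q (FreeGroup.of s.2))
  -- normal form
  have hgen : ∀ a b : FreeGroup ι, u3l_cc hc (q a) (q b) ∈ u3l_H c := by
    have h1 : ∀ (j : ι) (a : FreeGroup ι), u3l_cc hc (q a) (q (FreeGroup.of j)) ∈ u3l_H c := by
      intro j a
      have h2 : (⊤ : Subgroup (FreeGroup ι)) ≤
          ((u3l_H c).comap (u3l_hom hc (q (FreeGroup.of j)))).comap q := by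
        rw [← FreeGroup.closure_range_of, Subgroup.closure_le]
        rintro _ ⟨i, rfl⟩
        exact u3l_H_mem c (i, j)
      exact h2 (Subgroup.mem_top a)
    intro a b
    have h2 : (⊤ : Subgroup (FreeGroup ι)) ≤
        ((u3l_H c).comap (u3l_hom hc (q a))).comap q := by
      rw [← FreeGroup.closure_range_of, Subgroup.closure_le]
      rintro _ ⟨i, rfl⟩
      change u3l_cc hc (q (FreeGroup.of i)) (q a) ∈ u3l_H c
      rw [u3l_cc_symm hc (q a)]
      exact inv_mem (h1 i a)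
    have h3 := h2 (Subgroup.mem_top b)
    change u3l_cc hc (q b) (q a) ∈ u3l_H c at h3
    rw [u3l_cc_symm hc (q b)]
    exact inv_mem h3
  have hnf : ∃ n : ι × ι → ℤ, q w = ((∏ s, c s ^ n s : Subgroup.center (FreeGroup ι ⧸ N)) :
      FreeGroup ι ⧸ N) := by
    have h1 : commutator (FreeGroup ι) ≤
        ((u3l_H c).map (Subgroup.center (FreeGroup ι ⧸ N)).subtype).comap q := by
      rw [commutator_def, Subgroup.commutator_le]
      intro a _ b _
      refine ⟨u3l_cc hc (q a) (q b), hgen a b, ?_⟩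
      rw [map_commutatorElement]
      rfl
    obtain ⟨x, ⟨n, rfl⟩, hx⟩ := h1 hw
    exact ⟨n, hx.symm⟩
  obtain ⟨n, hn⟩ := hnf
  -- the functionals
  have hz : ∀ ψ₁ ψ₂ : ι → ZMod p,
      (∑ s : ι × ι, n s • (ψ₁ s.1 * ψ₂ s.2 - ψ₁ s.2 * ψ₂ s.1)) = 0 := by
    intro ψ₁ ψ₂
    have hr1 : ∀ x ∈ commutator (FreeGroup ι), (u3 p ψ₁ ψ₂ x).r = 1 := by
      intro x hx
      rw [u3_r, ch_com ψ₁ hx, ch_com ψ₂ hx]
      rfl
    have hrPhi : ∀ x ∈ Phi p (FreeGroup ι), (u3 p ψ₁ ψ₂ x).r = 1 := by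
      have hpp : ∀ (ψ : ι → ZMod p) (x : FreeGroup ι), ch p ψ (x ^ p) = 1 := by
        intro ψ x
        rw [map_pow]
        apply Multiplicative.toAdd.injective
        rw [toAdd_pow, toAdd_one, nsmul_eq_mul, CharP.cast_eq_zero, zero_mul]
      have h1 : ∀ ψ : ι → ZMod p, Phi p (FreeGroup ι) ≤ (ch p ψ).ker := by
        intro ψ
        unfold Phi
        rw [sup_le_iff, Subgroup.closure_le]
        refine ⟨fun x hx => ch_com ψ hx, ?_⟩
        rintro _ ⟨x, rfl⟩
        exact hpp ψ x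
      intro x hx
      rw [u3_r, h1 ψ₁ hx, h1 ψ₂ hx]
      rfl
    have hker : N ≤ (u3 p ψ₁ ψ₂).ker := by
      rw [hN, Subgroup.commutator_le]
      intro x hx y _
      rw [MonoidHom.mem_ker, map_commutatorElement, commutatorElement_eq_one_iff_mul_comm]
      have h1 := hrPhi x hx
      apply Xt.ext
      · change (u3 p ψ₁ ψ₂ x).r * (u3 p ψ₁ ψ₂ y).r = (u3 p ψ₁ ψ₂ y).r * (u3 p ψ₁ ψ₂ x).r
        rw [h1, one_mul, mul_one]
      · change (u3 p ψ₁ ψ₂ x).z + (u3 p ψ₁ ψ₂ y).z + e2 p (u3 p ψ₁ ψ₂ x).r (u3 p ψ₁ ψ₂ y).r =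
          (u3 p ψ₁ ψ₂ y).z + (u3 p ψ₁ ψ₂ x).z + e2 p (u3 p ψ₁ ψ₂ y).r (u3 p ψ₁ ψ₂ x).r
        rw [h1, (e2_coc p).l1, (e2_coc p).r1]
        ring
    obtain ⟨u, hu⟩ : ∃ u : FreeGroup ι ⧸ N →* Xt (e2 p) (e2_coc p), ∀ x, u (q x) = u3 p ψ₁ ψ₂ x := by
      refine ⟨QuotientGroup.lift N (u3 p ψ₁ ψ₂) hker, fun x => ?_⟩
      rw [hq]
      rfl
    let Rg : Subgroup (Subgroup.center (FreeGroup ι ⧸ N) × Multiplicative (ZMod p)) :=
      { carrier := {x | (u x.1).r = 1 ∧ (u x.1).z = Multiplicative.toAdd x.2}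
        mul_mem' := by
          rintro x y ⟨hx1, hx2⟩ ⟨hy1, hy2⟩
          have h1 : u ((x * y).1 : Subgroup.center (FreeGroup ι ⧸ N)) = u x.1 * u y.1 := by
            rw [← map_mul]; rfl
          refine ⟨?_, ?_⟩
          · rw [h1]
            change (u x.1).r * (u y.1).r = 1
            rw [hx1, hy1, one_mul]
          · rw [h1]
            change (u x.1).z + (u y.1).z + e2 p (u x.1).r (u y.1).r = Multiplicative.toAdd (x.2 * y.2)
            rw [hx1, (e2_coc p).l1, hx2, hy2, toAdd_mul, add_zero]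
        one_mem' := by
          refine ⟨?_, ?_⟩
          · change (u 1).r = 1
            rw [map_one]; rfl
          · change (u 1).z = 0
            rw [map_one]; rfl
        inv_mem' := by
          rintro x ⟨hx1, hx2⟩
          have h1 : u ((x⁻¹).1 : Subgroup.center (FreeGroup ι ⧸ N)) = (u x.1)⁻¹ := by
            rw [← map_inv]; rfl
          refine ⟨?_, ?_⟩
          · rw [h1]
            change (u x.1).r⁻¹ = 1
            rw [hx1, inv_one]
          · rw [h1]
            change -(u x.1).z - e2 p (u x.1).r⁻¹ (u x.1).r = Multiplicative.toAdd (x.2⁻¹)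
            rw [hx1, inv_one, (e2_coc p).l1, hx2, toAdd_inv, sub_zero] }
    have hcs : ∀ s : ι × ι, (c s, Multiplicative.ofAdd (ψ₁ s.1 * ψ₂ s.2 - ψ₁ s.2 * ψ₂ s.1)) ∈ Rg := by
      intro s
      have h1 : u (c s) = u3 p ψ₁ ψ₂ ⁅FreeGroup.of s.1, FreeGroup.of s.2⁆ := by
        rw [← hu, map_commutatorElement]
        rfl
      refine ⟨?_, ?_⟩
      · change (u (c s)).r = 1
        rw [h1]
        exact hr1 _ (Subgroup.commutator_mem_commutator (Subgroup.mem_top _) (Subgroup.mem_top _))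
      · change (u (c s)).z = ψ₁ s.1 * ψ₂ s.2 - ψ₁ s.2 * ψ₂ s.1
        rw [h1]
        have h2 := u3_cw ψ₁ ψ₂ [()] (fun _ => FreeGroup.of s.1) (fun _ => FreeGroup.of s.2)
        simp only [cw, List.map_cons, List.map_nil, List.prod_cons, List.prod_nil, mul_one,
          List.sum_cons, List.sum_nil, add_zero, ch_of] at h2
        exact h2
    have hprod : (∏ s : ι × ι, (c s, Multiplicative.ofAdd (ψ₁ s.1 * ψ₂ s.2 - ψ₁ s.2 * ψ₂ s.1)) ^ n s) ∈ Rg :=
      prod_mem fun s _ => zpow_mem (hcs s) (n s)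
    have h3 := hprod.2
    rw [Prod.fst_prod, Prod.snd_prod] at h3
    simp only [Prod.pow_fst, Prod.pow_snd, toAdd_prod, toAdd_zpow, toAdd_ofAdd] at h3
    rw [← h3, ← hn, hu]
    exact h ψ₁ ψ₂
  have hdvd : ∀ i j : ι, i ≠ j → (p : ℤ) ∣ n (i, j) - n (j, i) := by
    intro i j hij
    have h1 := hz (Pi.single i 1) (Pi.single j 1)
    have e1 : ∀ s : ι × ι, ((Pi.single i 1 : ι → ZMod p) s.1 * (Pi.single j 1 : ι → ZMod p) s.2) =
        if s = (i, j) then 1 else 0 := by
      rintro ⟨a, b⟩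
      by_cases ha : a = i
      · by_cases hb : b = j
        · subst ha hb
          simp
        · rw [Pi.single_eq_of_ne hb, mul_zero, if_neg fun h' => hb (Prod.mk.inj h').2]
      · rw [Pi.single_eq_of_ne ha, zero_mul, if_neg fun h' => ha (Prod.mk.inj h').1]
    have e2 : ∀ s : ι × ι, ((Pi.single i 1 : ι → ZMod p) s.2 * (Pi.single j 1 : ι → ZMod p) s.1) =
        if s = (j, i) then 1 else 0 := by
      rintro ⟨a, b⟩
      by_cases ha : a = j
      · by_cases hb : b = i
        · subst ha hb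
          simp
        · rw [Pi.single_eq_of_ne hb, zero_mul, if_neg fun h' => hb (Prod.mk.inj h').2]
      · rw [Pi.single_eq_of_ne ha, mul_zero, if_neg fun h' => ha (Prod.mk.inj h').1]
    simp only [e1, e2, smul_sub, Finset.sum_sub_distrib, smul_ite, smul_zero, Finset.sum_ite_eq',
      Finset.mem_univ, if_true, zsmul_eq_mul, mul_one] at h1
    rw [← ZMod.intCast_zmod_eq_zero_iff_dvd, Int.cast_sub]
    exact h1
  have hself : ∀ i : ι, c (i, i) = 1 := by
    intro i
    apply Subtype.ext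
    change ⁅q (FreeGroup.of i), q (FreeGroup.of i)⁆ = 1
    rw [commutatorElement_self]
  have hone : (∏ s, c s ^ n s : Subgroup.center (FreeGroup ι ⧸ N)) = 1 := by
    refine Finset.prod_involution (fun s _ => s.swap) ?_ ?_ ?_ ?_
    · rintro ⟨i, j⟩ _
      change c (i, j) ^ n (i, j) * c (j, i) ^ n (j, i) = 1
      by_cases hij : i = j
      · subst hij
        rw [hself, one_zpow, one_mul]
      · have h1 : c (j, i) = (c (i, j))⁻¹ := u3l_cc_symm hc _ _
        have h2 : c (i, j) ^ p = 1 := u3l_cc_pow hc hpc _ _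
        obtain ⟨k, hk⟩ := hdvd i j hij
        rw [h1, inv_zpow, ← zpow_neg, ← zpow_add, ← sub_eq_add_neg, hk, zpow_mul, zpow_natCast, h2,
          one_zpow]
    · rintro ⟨i, j⟩ _ h1 h2
      have hij : j = i := (Prod.mk.inj h2).1
      subst hij
      rw [hself, one_zpow] at h1
      exact h1 rfl
    · intro s _
      exact Finset.mem_univ _
    · intro s _
      exact Prod.swap_swap s
  rw [← hq1, hn, hone]
  rfl

end H24.S3
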