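import Pool.Agent.H24.S3.Mkb
import Pool.Agent.H24.S3.Nfp
import Pool.Agent.H24.S3.U3l
import Pool.Agent.H24.S3.U3a
import Pool.Agent.H77.WD.Pg

/-!
# [H24 S3 SYL] symplectic generators of the decomposition group

`syl`: given the generators `x` (`Lgn`), the local relator `ρ` (`Lcr`) with `ρ ∈ commutator ⊔ Mk` (`lda`) and leading term `- hs` (`ldb`), and ANY symplectic coordinates `S` at `v`: elements `a i, b i ∈ dec v` with `kk c (a i) = S.A i c`, `kk c (b i) = S.B i c`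
and the local relation `LOv`.
Proof. `F = FreeGroup (Fin r)`, `ev = lift x.x`, `N = Mk p k M F`.
(0) WLOG `ρ ∈ commutator F`: `ρ = ρ1 μ`, `ρ1 ∈ commutator`, `μ ∈ N`; `Lcr` holds for `ρ1` (`mk_map`, `mk_rsm`, `mk_lw`), and `u3 μ = 1` is needed for the leading term: `Xt (e2 p)` is small (`u3_sml`).
(1) `S.A i`, `S.B i` kill `Lv`-elements: `Lv v c` implies `hs v c _ = 0` (`hs_lv`), so `∑ (A i c B i y - B i c A i y) = 0` for all `y`, and by `S.sur` all `A i c = B i c = 0`. Conversely `A i c = B i c = 0` for all `i` implies `Lv v c` (`lv_hs`), so `kk c = 0` on `dec v`. For `c ∈ Kˣ`: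
`c ≡ ∏ b_j ^ (kk c (x_j))` modulo `Lv` (`Lgn.all`, `lv_of`), so `A i c = ∑_j kk c (x_j) A i (b_j)`. Put `α i := ∏_j x_j^(A i (b_j)).val ∈ F` (a word), `β i` in the same way: `ch p (kk c ∘ x) (α i) = A i c`, that is `kk c (ev (α i)) = A i c`.
(2) `w := ρ⁻¹ (cw l α β)⁻¹ ∈ commutator F`, and `z (u3 ψ₁ ψ₂ w) = 0` for all `ψ₁, ψ₂ : Fin r → ZMod p`: `ψ₁ = kk c ∘ x`, `ψ₂ = kk c' ∘ x` with `c = ∏ b_j^(ψ₁ j).val` etc.; `z (u3 (ρ⁻¹)) = hs v c c'`, `z (u3 (cw l α β)) = ∑ (A i c B i c' - B i c A i c') = hs v c c'` (`u3_mul`, `u3_inv`,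
`u3_cw`; the sum over `l` is the sum over `ι`). `u3l`: `w ∈ ⁅Phi F, ⊤⁆`.
(3) `G = F / N` finite (`mk_fin`) `p`-group (`lw_pg` `mk_lq`), generated by the images of `α i`, `β i`: otherwise a homomorphism `χ : G → ZMod p`, `χ ≠ 0`, kills them (`pg_char`, H77/WD/Pg.lean); `χ ∘ mk = ch p ψ`, `ψ = kk c ∘ x`, so `A i c = B i c = 0`, `kk c = 0` on `dec v`, `ψ = 0`. `nfp`
in `G` (the image of `w`): `a', b'` in `G` with `cw l a' b' = ρ⁻¹` in `G`, `a' i (α i)⁻¹ ∈ Phi G`. Choose words `α' i`, `β' i ∈ F` over `a' i`, `b' i`; `a i := ev (α' i)`, `b i := ev (β' i)` in `dec v`; `kk c (a i) = kk c (ev (α i)) = A i c`: the character `ch p (kk c ∘ x)` of `F` kills `N`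
(`zm_sml` with `j = 1`) and commutators and `p`-th powers, so it is equal on `α' i` and `α i`.
(4) `LOv`: given `(H, H', π, e, c, lam)` and lifts `X i`, `Y i` of `lam (a i)`, `lam (b i)`: choose `θ : F → H` with `π (θ x_j) = lam (x_j)` (`π` is surjective). `π (θ (α' i)) = lam (a i) = π (X i)`, so `θ (α' i) = X i * central`, the commutators are equal: `cw l X Y = θ (cw l α' β')`, and
`cw l α' β' ≡ ρ⁻¹` modulo `N`, `θ` kills `N`. So `c (cw l X Y) = c (θ ρ⁻¹) = - c (θ ρ)` because `π (θ ρ) = lam (ev ρ) = 1` (`Lcr.rel`), and `Lcr.inv`.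
-/

set_option autoImplicit false
set_option linter.dupNamespace false

open scoped NumberField commutatorElement
open IsDedekindDomain
open scoped Classical

noncomputable section

namespace H24.S3

open H63.MA H38.BB H38.BG H57.PC H57.BRA H89.BRG H57.RQ H24.RK Pool.Agent.H19.NF
  Pool.Agent.H19.AB Pool.Agent.H19.A2 Pool.Agent.H19 H77.WD H77.WE H77.GL H77.S3 H82.SF

section aux

private theorem syl_map {G H ι : Type} [Group G] [Group H] (f : G →* H) (l : List ι) (a b : ι → G) :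
    f (cw l a b) = cw l (fun i => f (a i)) fun i => f (b i) := by
  unfold cw
  rw [map_list_prod, List.map_map]
  congr 1
  apply List.map_congr_left
  intro i _
  exact map_commutatorElement f (a i) (b i)

private theorem syl_cen1 {H H' : Type} [Group H] [Group H'] (π : H →* H')
    (hc : ∀ z, π z = 1 → ∀ h, z * h = h * z) {x x' y y' : H} (hx : π x = π x')
    (hy : π y = π y') : ⁅x, y⁆ = ⁅x', y'⁆ := by
  have h1 := hc (x * x'⁻¹) (by rw [map_mul, map_inv, hx, mul_inv_cancel])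
  have h2 := hc (y * y'⁻¹) (by rw [map_mul, map_inv, hy, mul_inv_cancel])
  obtain ⟨z, hz⟩ : ∃ z, z = x * x'⁻¹ := ⟨_, rfl⟩
  obtain ⟨w, hw⟩ : ∃ w, w = y * y'⁻¹ := ⟨_, rfl⟩
  rw [← hz] at h1
  rw [← hw] at h2
  have hx' : x = z * x' := by rw [hz, inv_mul_cancel_right]
  have hy' : y = w * y' := by rw [hw, inv_mul_cancel_right]
  have e1 : ∀ a b : H, ⁅a, b⁆ = (a * b) * (b * a)⁻¹ := by
    intro a b
    rw [commutatorElement_def, mul_inv_rev, mul_assoc, mul_assoc]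
  have e2 : z * x' * (w * y') = (z * w) * (x' * y') := by
    calc z * x' * (w * y') = z * (x' * w) * y' := by simp only [mul_assoc]
      _ = z * (w * x') * y' := by rw [h2]
      _ = _ := by simp only [mul_assoc]
  have e3 : w * y' * (z * x') = (z * w) * (y' * x') := by
    calc w * y' * (z * x') = w * (y' * z) * x' := by simp only [mul_assoc]
      _ = w * (z * y') * x' := by rw [h1 y']
      _ = (w * z) * (y' * x') := by simp only [mul_assoc]
      _ = _ := by rw [h1 w]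
  have e4 : ∀ h : H, z * w * h = h * (z * w) := by
    intro h
    rw [mul_assoc, h2 h, ← mul_assoc, h1 h, mul_assoc]
  rw [hx', hy', e1, e2, e3, e1, mul_inv_rev (z * w), ← mul_assoc, mul_assoc (z * w), e4,
    mul_inv_cancel_right]

private theorem syl_cen {H H' ι : Type} [Group H] [Group H'] (π : H →* H')
    (hc : ∀ z, π z = 1 → ∀ h, z * h = h * z) (l : List ι) {x x' y y' : ι → H}
    (hx : ∀ i, π (x i) = π (x' i)) (hy : ∀ i, π (y i) = π (y' i)) :
    cw l x y = cw l x' y' := by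
  unfold cw
  congr 1
  apply List.map_congr_left
  intro i _
  exact syl_cen1 π hc (hx i) (hy i)

private theorem syl_phi {p : ℕ} {G : Type} [Group G] (χ : G →* Multiplicative (ZMod p)) :
    Phi p G ≤ χ.ker := by
  unfold Phi
  refine sup_le (Abelianization.commutator_subset_ker χ) ?_
  rw [Subgroup.closure_le]
  rintro _ ⟨x, rfl⟩
  show χ (x ^ p) = 1
  rw [map_pow]
  apply Multiplicative.toAdd.injective
  rw [toAdd_pow, nsmul_eq_mul, CharP.cast_eq_zero, zero_mul]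
  rfl

private theorem syl_mapphi {p : ℕ} {G H : Type} [Group G] [Group H] (f : G →* H) {w : G}
    (hw : w ∈ ⁅Phi p G, (⊤ : Subgroup G)⁆) : f w ∈ ⁅Phi p H, (⊤ : Subgroup H)⁆ := by
  have h1 : (Phi p G).map f ≤ Phi p H := by
    unfold Phi
    rw [Subgroup.map_sup]
    refine sup_le_sup ?_ ?_
    · rw [commutator_def, commutator_def, Subgroup.map_commutator]
      exact Subgroup.commutator_mono le_top le_top
    · rw [MonoidHom.map_closure]
      refine Subgroup.closure_mono ?_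
      rintro _ ⟨_, ⟨x, rfl⟩, rfl⟩
      exact ⟨f x, (map_pow f x p).symm⟩
  have h2 : f w ∈ (⁅Phi p G, (⊤ : Subgroup G)⁆).map f := ⟨w, hw, rfl⟩
  rw [Subgroup.map_commutator] at h2
  exact Subgroup.commutator_mono h1 le_top h2

/-- a word with the exponents `s` -/
private def wd {p r : ℕ} (s : Fin r → ZMod p) : FreeGroup (Fin r) :=
  ((List.finRange r).map fun j => FreeGroup.of j ^ (s j).val).prod

private theorem ch_wd {p r : ℕ} [NeZero p] (ψ s : Fin r → ZMod p) :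
    Multiplicative.toAdd (ch p ψ (wd s)) = ∑ j, s j * ψ j := by
  unfold wd
  rw [map_list_prod, List.map_map]
  have h1 : ((List.finRange r).map ((⇑(ch p ψ)) ∘ fun j => FreeGroup.of j ^ (s j).val)).prod =
      ∏ j, Multiplicative.ofAdd (s j * ψ j) := by
    rw [Fin.prod_univ_def]
    congr 1
    apply List.map_congr_left
    intro j _
    show ch p ψ (FreeGroup.of j ^ (s j).val) = _
    apply Multiplicative.toAdd.injective
    rw [map_pow, toAdd_pow, ch_of, toAdd_ofAdd, nsmul_eq_mul, ZMod.natCast_zmod_val]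
  rw [h1, toAdd_prod]
  rfl

private theorem syl_sum {p : ℕ} {ι : Type} [Fintype ι] {l : List ι} (hl : l.Nodup)
    (hl' : ∀ i, i ∈ l) (f : ι → ZMod p) : (l.map f).sum = ∑ i, f i := by
  rw [← List.sum_toFinset f hl]
  refine Finset.sum_congr ?_ fun _ _ => rfl
  ext i
  rw [List.mem_toFinset]
  exact ⟨fun _ => Finset.mem_univ i, fun _ => hl' i⟩

end aux

section sco

variable {K : Type} [Field K] [NumberField K] {Ω : Type} [Field Ω] [Algebra K Ω] {p : ℕ} {ζ : K}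
  {v : Pl K} {ι : Type} [Fintype ι]

omit [NumberField K] in
private theorem sco_prod [NeZero p] (A : Kˣ → ZMod p) (hA : ∀ x y, A (x * y) = A x + A y) {r : ℕ}
    (b : Fin r → Kˣ) (s : Fin r → ZMod p) :
    A (∏ j, b j ^ (s j).val) = ∑ j, A (b j) * s j := by
  let f : Kˣ →* Multiplicative (ZMod p) := MonoidHom.mk' (fun x => Multiplicative.ofAdd (A x))
    fun x y => by rw [hA, ofAdd_add]
  have h1 : ∀ x, Multiplicative.toAdd (f x) = A x := fun _ => rfl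
  rw [← h1, map_prod, toAdd_prod]
  refine Finset.sum_congr rfl fun j _ => ?_
  rw [map_pow, toAdd_pow, h1, nsmul_eq_mul, ZMod.natCast_zmod_val, mul_comm]

private theorem sco_lv_aux (S : Sco p ζ Ω v ι) {c : Kˣ}
    (h : ∀ y, hs p ζ Ω v c y = 0) (i : ι) : S.A i c = 0 ∧ S.B i c = 0 := by
  constructor
  · obtain ⟨y, hy⟩ := S.sur (fun _ => 0) fun j => if j = i then 1 else 0
    have h1 := h y
    rw [S.hs] at h1
    rw [Finset.sum_congr rfl (g := fun j => if j = i then S.A i c else 0) (fun j _ => ?_)] at h1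
    · rwa [Finset.sum_ite_eq' Finset.univ i, if_pos (Finset.mem_univ i)] at h1
    · rw [(hy j).1, (hy j).2, mul_zero, sub_zero]
      split_ifs with hj
      · rw [hj, mul_one]
      · rw [mul_zero]
  · obtain ⟨y, hy⟩ := S.sur (fun j => if j = i then 1 else 0) fun _ => 0
    have h1 := h y
    rw [S.hs] at h1
    rw [Finset.sum_congr rfl (g := fun j => if j = i then -S.B i c else 0) (fun j _ => ?_)] at h1
    · rw [Finset.sum_ite_eq' Finset.univ i, if_pos (Finset.mem_univ i)] at h1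
      exact neg_eq_zero.1 h1
    · rw [(hy j).1, (hy j).2, mul_zero, zero_sub]
      split_ifs with hj
      · rw [hj, mul_one]
      · rw [mul_zero, neg_zero]

end sco

variable {K : Type} [Field K] [NumberField K] {Ω : Type} [Field Ω] [Algebra K Ω]
  [IsAlgClosure K Ω] {p m : ℕ} {ζ : K}

private theorem syl_lv (hp : p.Prime) (hζ : IsPrimitiveRoot ζ p) (Q : DP K Ω) {v : Pl K} {c : Kˣ} :
    Lv p ζ Ω v c ↔ ∀ σ ∈ dec (K := K) (Q.P v), kk p ζ c σ = 0 := by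
  constructor
  · intro h σ hσ
    exact h (Q.P v) (Q.prime v) (Q.under v) σ ((dc_dec (Q.P v) σ).2 hσ)
  · intro h
    exact lv_of hp hζ (Q.prime v) (Q.under v) fun σ hσ => h σ ((dc_dec (Q.P v) σ).1 hσ)

omit [NumberField K] [IsAlgClosure K Ω] in
private theorem syl_kk {r : ℕ} (x : Fin r → Gal(Ω/K)) (c : Kˣ) (w : FreeGroup (Fin r)) :
    kk p ζ c (FreeGroup.lift x w) =
      Multiplicative.toAdd (ch p (fun i => kk p ζ c (x i)) w) := by
  have h : (kc p ζ Ω c).comp (FreeGroup.lift x) = ch p (fun i => kk p ζ c (x i)) := by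
    refine FreeGroup.ext_hom _ _ fun i => ?_
    rw [MonoidHom.comp_apply, FreeGroup.lift_apply_of]
    unfold ch
    rw [FreeGroup.lift_apply_of]
    rfl
  rw [← h]
  rfl

private theorem syl_cpsi (hp : p.Prime) (hζ : IsPrimitiveRoot ζ p) {Q : DP K Ω} {v : Pl K} {r : ℕ}
    (x : Lgn p ζ Q v r) (ψ : Fin r → ZMod p) (σ : Gal(Ω/K)) :
    kk p ζ (∏ j, x.b j ^ (ψ j).val) σ = ∑ j, ψ j * kk p ζ (x.b j) σ := by
  have hp0 : NeZero p := ⟨hp.ne_zero⟩
  rw [kk_prod_arg hp hζ]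
  refine Finset.sum_congr rfl fun j _ => ?_
  rw [H77.WD.kk_pow_arg hp hζ, ZMod.natCast_zmod_val]

private theorem syl_cpsix (hp : p.Prime) (hζ : IsPrimitiveRoot ζ p) {Q : DP K Ω} {v : Pl K} {r : ℕ}
    (x : Lgn p ζ Q v r) (ψ : Fin r → ZMod p) (i : Fin r) :
    kk p ζ (∏ j, x.b j ^ (ψ j).val) (x.x i) = ψ i := by
  rw [syl_cpsi hp hζ]
  rw [Finset.sum_congr rfl (g := fun j => if j = i then ψ i else 0) (fun j _ => ?_)]
  · rw [Finset.sum_ite_eq' Finset.univ i, if_pos (Finset.mem_univ i)]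
  · rw [x.dual]
    split_ifs with hj
    · rw [hj, mul_one]
    · rw [mul_zero]

omit [IsAlgClosure K Ω] in
/-- step (0) -/
private theorem syl_zero (hp : p.Prime) {k M : ℕ} (hk : 1 ≤ k) (hk2 : p = 2 → 2 ≤ k)
    (hM : p ^ 3 ≤ M) [NeZero (p ^ m)] {D : RD0 K p ζ} {Q : DP K Ω}
    {I : Fnl K Ω p m} {v : Pl K} {r : ℕ} (x : Fin r → Gal(Ω/K)) {ρ : FreeGroup (Fin r)}
    (hρ : Lcr k M D Q I v x ρ)
    (h1 : ρ ∈ commutator (FreeGroup (Fin r)) ⊔ Mk p k M (FreeGroup (Fin r))) :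
    ∃ ρ1 ∈ commutator (FreeGroup (Fin r)), Lcr k M D Q I v x ρ1 ∧
      ∀ ψ₁ ψ₂ : Fin r → ZMod p, u3 p ψ₁ ψ₂ ρ1 = u3 p ψ₁ ψ₂ ρ := by
  have hp0 : NeZero p := ⟨hp.ne_zero⟩
  obtain ⟨ρ1, hρ1, μ, hμ, rfl⟩ := Subgroup.mem_sup_of_normal_left.1 h1
  refine ⟨ρ1, hρ1, ⟨?_, ?_⟩, ?_⟩
  · intro R _ _ hR φ hφ
    have h2 := hρ.rel R hR φ hφ
    have h3 : φ (FreeGroup.lift x μ) = 1 := by
      have h4 := mk_map (p := p) (k := k) (M := M) (φ.comp (FreeGroup.lift x)) hμ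
      rw [mk_rsm hR] at h4
      exact h4
    rw [map_mul, map_mul, h3, mul_one] at h2
    exact h2
  · intro H H' _ _ _ _ π e c hπ hcen he1 he2 hc hLw hRsm lam hlam θ hθ
    have h2 := hρ.inv H H' π e c hπ hcen he1 he2 hc hLw hRsm lam hlam θ hθ
    have h3 : θ μ = 1 := mk_lw hLw θ hμ
    rw [map_mul, h3, mul_one] at h2
    exact h2
  · intro ψ₁ ψ₂
    have hfin : Finite (Xt (e2 p) (e2_coc p)) := xt_fin (e2 p) (e2_coc p)
    have h3 : u3 p ψ₁ ψ₂ μ = 1 := hμ _ (u3_sml hp hk hk2 hM) (u3 p ψ₁ ψ₂)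
    rw [map_mul, h3, mul_one]

/-- the statement for a relator in the commutator subgroup -/
private theorem syl_one (hp : p.Prime) (hp2 : MOne p K) (hζ : IsPrimitiveRoot ζ p) {k M : ℕ}
    (hk : 1 ≤ k) (hM : p ^ 3 ≤ M) [NeZero (p ^ m)] {D : RD0 K p ζ} {Q : DP K Ω}
    {I : Fnl K Ω p m} {v : Pl K} {r : ℕ} (x : Lgn p ζ Q v r) {ρ : FreeGroup (Fin r)}
    (hρ : Lcr k M D Q I v x.x ρ)
    (h1 : ρ ∈ commutator (FreeGroup (Fin r)))
    (h2 : ∀ c c' : Kˣ, (u3 p (fun i => kk p ζ c (x.x i)) (fun i => kk p ζ c' (x.x i)) ρ).z =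
      -hs p ζ Ω v c c')
    {ι : Type} [Fintype ι] (S : Sco p ζ Ω v ι) {l : List ι} (hl : l.Nodup) (hl' : ∀ i, i ∈ l) :
    ∃ a b : ι → Gal(Ω/K), (∀ i, a i ∈ dec (K := K) (Q.P v)) ∧ (∀ i, b i ∈ dec (K := K) (Q.P v)) ∧
      (∀ i c, kk p ζ c (a i) = S.A i c) ∧ (∀ i c, kk p ζ c (b i) = S.B i c) ∧
      LOv k M D Q I v l a b := by
  have hp0 : NeZero p := ⟨hp.ne_zero⟩
  -- (1)
  have hlv0 : ∀ c, Lv p ζ Ω v c → ∀ i, S.A i c = 0 ∧ S.B i c = 0 := fun c hc i =>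
    sco_lv_aux S (hs_lv hp hp2 hζ hc) i
  have hlv1 : ∀ c, (∀ i, S.A i c = 0 ∧ S.B i c = 0) → Lv p ζ Ω v c := by
    intro c hc
    refine lv_hs hp hp2 hζ fun a => ?_
    rw [S.hs]
    refine Finset.sum_eq_zero fun i _ => ?_
    rw [(hc i).1, (hc i).2, zero_mul, zero_mul, sub_zero]
  have hone : ∀ (A : Kˣ → ZMod p), (∀ x y, A (x * y) = A x + A y) → ∀ x y, A (x * y⁻¹) = 0 →
      A x = A y := by
    intro A hA x y h
    have h3 := hA (x * y⁻¹) y
    rw [inv_mul_cancel_right, h, zero_add] at h3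
    exact h3
  have hcc : ∀ c : Kˣ, Lv p ζ Ω v (c * (∏ j, x.b j ^ (kk p ζ c (x.x j)).val)⁻¹) := by
    intro c
    rw [syl_lv hp hζ Q]
    intro σ hσ
    rw [kk_mul_arg hp hζ, ← zpow_neg_one, kk_zpow_arg hp hζ, syl_cpsi hp hζ, x.all c σ hσ]
    push_cast
    ring
  have hA1 : ∀ i c, S.A i c = ∑ j, S.A i (x.b j) * kk p ζ c (x.x j) := by
    intro i c
    rw [hone (S.A i) (S.mulA i) _ _ (hlv0 _ (hcc c) i).1, sco_prod (S.A i) (S.mulA i)]
  have hB1 : ∀ i c, S.B i c = ∑ j, S.B i (x.b j) * kk p ζ c (x.x j) := by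
    intro i c
    rw [hone (S.B i) (S.mulB i) _ _ (hlv0 _ (hcc c) i).2, sco_prod (S.B i) (S.mulB i)]
  obtain ⟨α, hα⟩ : ∃ α : ι → FreeGroup (Fin r), ∀ i ψ, Multiplicative.toAdd (ch p ψ (α i)) =
      ∑ j, S.A i (x.b j) * ψ j := ⟨fun i => wd fun j => S.A i (x.b j), fun i ψ => ch_wd ψ _⟩
  obtain ⟨β, hβ⟩ : ∃ β : ι → FreeGroup (Fin r), ∀ i ψ, Multiplicative.toAdd (ch p ψ (β i)) =
      ∑ j, S.B i (x.b j) * ψ j := ⟨fun i => wd fun j => S.B i (x.b j), fun i ψ => ch_wd ψ _⟩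
  -- (2)
  obtain ⟨w, hw⟩ : ∃ w, w = ρ⁻¹ * (cw l α β)⁻¹ := ⟨_, rfl⟩
  have hwc : w ∈ commutator (FreeGroup (Fin r)) := by
    rw [hw]
    exact Subgroup.mul_mem _ (Subgroup.inv_mem _ h1) (Subgroup.inv_mem _ (cw_com l α β))
  have hcx : ∀ ψ : Fin r → ZMod p, (fun i => kk p ζ (∏ j, x.b j ^ (ψ j).val) (x.x i)) = ψ :=
    fun ψ => funext fun i => syl_cpsix hp hζ x ψ i
  have hwz : ∀ ψ₁ ψ₂ : Fin r → ZMod p, (u3 p ψ₁ ψ₂ w).z = 0 := by
    intro ψ₁ ψ₂
    have h3 := h2 (∏ j, x.b j ^ (ψ₁ j).val) (∏ j, x.b j ^ (ψ₂ j).val)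
    rw [hcx, hcx, S.hs] at h3
    rw [hw, u3_mul ψ₁ ψ₂ (Subgroup.inv_mem _ h1), u3_inv ψ₁ ψ₂ h1,
      u3_inv ψ₁ ψ₂ (cw_com l α β), u3_cw, syl_sum hl hl', h3, neg_neg, ← sub_eq_add_neg,
      sub_eq_zero]
    refine Finset.sum_congr rfl fun i _ => ?_
    rw [hα, hα, hβ, hβ, sco_prod (S.A i) (S.mulA i), sco_prod (S.A i) (S.mulA i),
      sco_prod (S.B i) (S.mulB i), sco_prod (S.B i) (S.mulB i)]
  have hwp := u3l hp hwc hwz
  -- (3)
  have hN : (Mk p k M (FreeGroup (Fin r))).Normal := mk_normal _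
  have hfin : Finite (FreeGroup (Fin r) ⧸ Mk p k M (FreeGroup (Fin r))) := mk_fin
  have hpg : IsPGroup p (FreeGroup (Fin r) ⧸ Mk p k M (FreeGroup (Fin r))) :=
    lw_pg (mk_lq _ _ rfl)
  obtain ⟨q, hq⟩ : ∃ q : FreeGroup (Fin r) →* FreeGroup (Fin r) ⧸ Mk p k M (FreeGroup (Fin r)),
    q = QuotientGroup.mk' _ := ⟨_, rfl⟩
  have hqs : Function.Surjective q := by
    rw [hq]
    exact QuotientGroup.mk'_surjective _
  have hqk : ∀ w, q w = 1 ↔ w ∈ Mk p k M (FreeGroup (Fin r)) := by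
    intro w
    rw [hq]
    exact QuotientGroup.eq_one_iff w
  have hsm : Sml p k M (Multiplicative (ZMod p)) := by
    have h3 := zm_sml (k := k) (M := M) hp hk (by
      rw [pow_one]
      exact (Nat.le_self_pow (by norm_num) p).trans hM)
    rw [pow_one] at h3
    exact h3
  have hgen : Subgroup.closure ((fun i => q (α i)) '' {i | i ∈ l} ∪
      (fun i => q (β i)) '' {i | i ∈ l}) = ⊤ := by
    by_contra hne
    obtain ⟨f, hf1, hf⟩ := H77.WD.pg_char hp hpg _ hne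
    obtain ⟨ψ, hψ⟩ : ∃ ψ : Fin r → ZMod p,
      ψ = fun j => Multiplicative.toAdd (f (q (FreeGroup.of j))) := ⟨_, rfl⟩
    have hfq : f.comp q = ch p ψ := by
      refine FreeGroup.ext_hom _ _ fun j => ?_
      apply Multiplicative.toAdd.injective
      rw [ch_of, hψ]
      rfl
    have hA2 : ∀ i, S.A i (∏ j, x.b j ^ (ψ j).val) = 0 := by
      intro i
      rw [sco_prod (S.A i) (S.mulA i), ← hα, ← hfq]
      show Multiplicative.toAdd (f (q (α i))) = 0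
      rw [hf _ (Subgroup.subset_closure (Or.inl ⟨i, hl' i, rfl⟩)), toAdd_one]
    have hB2 : ∀ i, S.B i (∏ j, x.b j ^ (ψ j).val) = 0 := by
      intro i
      rw [sco_prod (S.B i) (S.mulB i), ← hβ, ← hfq]
      show Multiplicative.toAdd (f (q (β i))) = 0
      rw [hf _ (Subgroup.subset_closure (Or.inr ⟨i, hl' i, rfl⟩)), toAdd_one]
    have h3 := (syl_lv hp hζ Q).1 (hlv1 _ fun i => ⟨hA2 i, hB2 i⟩)
    have h4 : ψ = fun _ => 0 := by
      funext i
      rw [← syl_cpsix hp hζ x ψ i]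
      exact h3 _ (x.mem i)
    apply hf1
    refine MonoidHom.ext fun g => ?_
    obtain ⟨w', rfl⟩ := hqs g
    have h5 : f.comp q = 1 := by
      rw [hfq]
      refine FreeGroup.ext_hom _ _ fun j => ?_
      apply Multiplicative.toAdd.injective
      rw [ch_of, h4]
      rfl
    exact DFunLike.congr_fun h5 w'
  obtain ⟨a', b', ha', hb', hab⟩ := nfp hp hpg hl (fun i => q (α i)) (fun i => q (β i)) hgen
    (ρ := q ρ⁻¹) (by
      have h3 := syl_mapphi q hwp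
      rw [hw, map_mul, map_inv q (cw l α β), syl_map] at h3
      exact h3)
  choose α' hα' using fun i => hqs (a' i)
  choose β' hβ' using fun i => hqs (b' i)
  have hmem : ∀ w, FreeGroup.lift x.x w ∈ dec (K := K) (Q.P v) := by
    intro w
    have h3 : (FreeGroup.lift x.x).range ≤ dec (K := K) (Q.P v) := by
      apply FreeGroup.range_lift_le
      rintro _ ⟨i, rfl⟩
      exact x.mem i
    exact h3 ⟨w, rfl⟩
  have hchi : ∀ (ψ : Fin r → ZMod p) (u u' : FreeGroup (Fin r)),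
      q u * (q u')⁻¹ ∈ Phi p (FreeGroup (Fin r) ⧸ Mk p k M (FreeGroup (Fin r))) →
      ch p ψ u = ch p ψ u' := by
    intro ψ u u' h
    obtain ⟨χ, hχ⟩ : ∃ χ : FreeGroup (Fin r) ⧸ Mk p k M (FreeGroup (Fin r)) →*
        Multiplicative (ZMod p), ∀ w, χ (q w) = ch p ψ w := by
      refine ⟨QuotientGroup.lift _ (ch p ψ) fun w hw => hw _ hsm (ch p ψ), fun w => ?_⟩
      rw [hq]
      rfl
    have h3 : χ (q u * (q u')⁻¹) = 1 := syl_phi χ h
    rw [map_mul, map_inv, hχ, hχ, mul_inv_eq_one] at h3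
    exact h3
  refine ⟨fun i => FreeGroup.lift x.x (α' i), fun i => FreeGroup.lift x.x (β' i),
    fun i => hmem _, fun i => hmem _, fun i c => ?_, fun i c => ?_, ?_⟩
  · rw [syl_kk, hchi _ _ (α i) (by rw [hα' i]; exact ha' i), hα, ← hA1]
  · rw [syl_kk, hchi _ _ (β i) (by rw [hβ' i]; exact hb' i), hβ, ← hB1]
  -- (4)
  intro H H' _ _ _ _ π e c hπ hcen he1 he2 hc hLw hRsm lam hlam X Y hX hY
  choose t ht using fun j => hπ (lam (x.x j))
  obtain ⟨θ, hθ⟩ : ∃ θ : FreeGroup (Fin r) →* H, ∀ j, π (θ (FreeGroup.of j)) = lam (x.x j) :=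
    ⟨FreeGroup.lift t, fun j => by rw [FreeGroup.lift_apply_of, ht]⟩
  have hθw : ∀ w, π (θ w) = lam (FreeGroup.lift x.x w) := by
    intro w
    have h3 : π.comp θ = lam.comp (FreeGroup.lift x.x) := by
      refine FreeGroup.ext_hom _ _ fun j => ?_
      rw [MonoidHom.comp_apply, MonoidHom.comp_apply, hθ, FreeGroup.lift_apply_of]
    exact DFunLike.congr_fun h3 w
  have hinv := hρ.inv H H' π e c hπ hcen he1 he2 hc hLw hRsm lam hlam θ hθ
  have hrel := hρ.rel H' hRsm lam hlam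
  have hcwXY : cw l X Y = θ (cw l α' β') := by
    rw [syl_map]
    exact syl_cen π hcen l (fun i => by rw [hX, hθw]) fun i => by rw [hY, hθw]
  have hcwr : θ (cw l α' β') = θ ρ⁻¹ := by
    have h3 : q (cw l α' β') = q ρ⁻¹ := by
      rw [syl_map]
      simp only [hα', hβ']
      exact hab
    have h4 : (cw l α' β') * (ρ⁻¹)⁻¹ ∈ Mk p k M (FreeGroup (Fin r)) := by
      rw [← hqk, map_mul, map_inv q ρ⁻¹, h3, mul_inv_cancel]
    have h5 : θ ((cw l α' β') * (ρ⁻¹)⁻¹) = 1 := mk_lw hLw θ h4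
    rw [map_mul, map_inv θ ρ⁻¹, mul_inv_eq_one] at h5
    exact h5
  have hc1 : c 1 = 0 := by
    have h3 := hc 1 1
    rw [mul_one, map_one, he1, add_zero] at h3
    exact left_eq_add.1 h3
  have hcr : c (θ ρ⁻¹) = -c (θ ρ) := by
    have h3 := hc (θ ρ) (θ ρ)⁻¹
    rw [mul_inv_cancel, hc1, hθw, hrel, he1, add_zero] at h3
    rw [map_inv]
    exact (neg_eq_of_add_eq_zero_right h3.symm).symm
  rw [hinv, hcwXY, hcwr, hcr, map_neg, neg_neg]

theorem syl (hp : p.Prime) (hp2 : MOne p K) (hζ : IsPrimitiveRoot ζ p) {k M : ℕ} (hk : 1 ≤ k)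
    (hk2 : p = 2 → 2 ≤ k) (hM : p ^ 3 ≤ M) [NeZero (p ^ m)] {D : RD0 K p ζ} {Q : DP K Ω}
    {I : Fnl K Ω p m} {v : Pl K} {r : ℕ} (x : Lgn p ζ Q v r) {ρ : FreeGroup (Fin r)}
    (hρ : Lcr k M D Q I v x.x ρ)
    (h1 : ρ ∈ commutator (FreeGroup (Fin r)) ⊔ Mk p k M (FreeGroup (Fin r)))
    (h2 : ∀ c c' : Kˣ, (u3 p (fun i => kk p ζ c (x.x i)) (fun i => kk p ζ c' (x.x i)) ρ).z =
      -hs p ζ Ω v c c')
    {ι : Type} [Fintype ι] (S : Sco p ζ Ω v ι) {l : List ι} (hl : l.Nodup) (hl' : ∀ i, i ∈ l) :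
    ∃ a b : ι → Gal(Ω/K), (∀ i, a i ∈ dec (K := K) (Q.P v)) ∧ (∀ i, b i ∈ dec (K := K) (Q.P v)) ∧
      (∀ i c, kk p ζ c (a i) = S.A i c) ∧ (∀ i c, kk p ζ c (b i) = S.B i c) ∧
      LOv k M D Q I v l a b := by
  obtain ⟨ρ1, hρ1, hl1, hu⟩ := syl_zero hp hk hk2 hM x.x hρ h1
  exact syl_one hp hp2 hζ hk hM x hl1 hρ1 (fun c c' => by rw [hu, h2]) S hl hl'

end H24.S3
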