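import Pool.Agent.H77.S3.Def
import Pool.Agent.H82.SF.Ff
import Pool.Agent.H24.RK.Fnr
import Pool.Agent.H77.WE.GlU

/-!
# [H24 S3 DF] stage 3 of Malle's conjecture (MP_b39724_nt), chapter B1: the local relators at `S0` (think 1687), definitions

Frame: H77/S3/Def.lean (`Sml p k M`: small groups, `Lw`, `Rsm`, `FnC`, `SD`, `LOC`). `Γ = Gal(Ω/K)`.
* `Mk p k M F`: the elements of `F` which are killed by all homomorphisms to small groups. `Phi p F`: generated by commutators and `p`-th powers. `cw l a b`: the product of `[a i, b i]` over the list `l`.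
* `e2`, `u3`: the unitriangular group of order `p ^ 3`; the homomorphism of a free group to it with the entries `ψ₁`, `ψ₂`. `ch`: the character of a free group.
* `Fnl`: the type of the functionals. `Iv D Q I v X`: the value of `I` at the cochain `X` at `v` only (the local invariant).
* `Lgn`: generators `x i` of the decomposition group `dec v` modulo `p`-th powers and dual elements `b i` of `K`.
* `Lcr`: `ρ`, a word in letters with the values `x i`, is a local relator at `v` ((LOC) of think 1687, section 1).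
* `Sco`: symplectic coordinates of `Kˣ` at `v` (with respect to the symbol `hs`). `LOv`: the local relation for one place (`LOC` for one `v`, over a list).
* `Glc`: symplectic coordinates at all `v ∈ S0`, index type `Fin g`. `Tsv`: in addition the coordinates `A` are dual to a basis of the `S0`-units.
-/

set_option autoImplicit false
set_option linter.dupNamespace false

open scoped NumberField commutatorElement
open IsDedekindDomain
open scoped Classical

noncomputable section

namespace H24.S3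

open H63.MA H38.BB H38.BG H57.PC H57.BRA H89.BRG H57.RQ H24.RK Pool.Agent.H19.NF
  Pool.Agent.H19.AB Pool.Agent.H19.A2 Pool.Agent.H19 H77.WD H77.WE H77.GL H77.S3

section grp

/-- the elements which are killed by all homomorphisms to small groups -/
def Mk (p k M : ℕ) (F : Type) [Group F] : Subgroup F where
  carrier := {x | ∀ (S : Type) [Group S] [Finite S], Sml p k M S → ∀ f : F →* S, f x = 1}
  mul_mem' := fun {x y} hx hy S _ _ hS f => by rw [map_mul, hx S hS f, hy S hS f, one_mul]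
  one_mem' := fun S _ _ _ f => map_one f
  inv_mem' := fun {x} hx S _ _ hS f => by rw [map_inv, hx S hS f, inv_one]

/-- commutators and `p`-th powers -/
def Phi (p : ℕ) (F : Type) [Group F] : Subgroup F :=
  commutator F ⊔ Subgroup.closure (Set.range fun x : F => x ^ p)

/-- the product of the commutators `[a i, b i]` -/
def cw {G ι : Type} [Group G] (l : List ι) (a b : ι → G) : G := (l.map fun i => ⁅a i, b i⁆).prod

/-- the cocycle of the unitriangular group -/
def e2 (p : ℕ) (r s : Multiplicative (ZMod p) × Multiplicative (ZMod p)) : ZMod p :=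
  Multiplicative.toAdd r.1 * Multiplicative.toAdd s.2

theorem e2_coc (p : ℕ) : Coc p (e2 p) where
  l1 := fun a => by
    unfold e2
    rw [Prod.fst_one, toAdd_one, zero_mul]
  r1 := fun a => by
    unfold e2
    rw [Prod.snd_one, toAdd_one, mul_zero]
  co := fun a b c => by
    unfold e2
    rw [Prod.snd_mul, Prod.fst_mul, toAdd_mul, toAdd_mul]
    ring

/-- the homomorphism to the unitriangular group with the entries `ψ₁`, `ψ₂` -/
def u3 (p : ℕ) {ι : Type} (ψ₁ ψ₂ : ι → ZMod p) : FreeGroup ι →* Xt (e2 p) (e2_coc p) :=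
  FreeGroup.lift fun i => ⟨(Multiplicative.ofAdd (ψ₁ i), Multiplicative.ofAdd (ψ₂ i)), 0⟩

/-- the character of a free group with the values `ψ i` -/
def ch (p : ℕ) {ι : Type} (ψ : ι → ZMod p) : FreeGroup ι →* Multiplicative (ZMod p) :=
  FreeGroup.lift fun i => Multiplicative.ofAdd (ψ i)

end grp

section gal

variable {K : Type} [Field K] [NumberField K] {Ω : Type} [Field Ω] [Algebra K Ω] {p m : ℕ} {ζ : K}

/-- the functionals -/
abbrev Fnl (K : Type) [Field K] [NumberField K] (Ω : Type) [Field Ω] [Algebra K Ω] (p m : ℕ) : Type :=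
  ((Gal(Ω/K) → Gal(Ω/K) → Gal(Ω/K) → ZMod (p ^ m)) ×
    (Pl K → Gal(Ω/K) → Gal(Ω/K) → ZMod (p ^ m))) →+ AddCircle (1 : ℝ)

/-- the local invariant of `X` at `v` -/
def Iv (D : RD0 K p ζ) (Q : DP K Ω) (I : Fnl K Ω p m) (v : Pl K)
    (X : Gal(Ω/K) → Gal(Ω/K) → ZMod (p ^ m)) : AddCircle (1 : ℝ) :=
  I (0, rs D Q fun v' σ τ => if v' = v then X σ τ else 0)

/-- generators of the decomposition group at `v` modulo `p`-th powers -/
structure Lgn (p : ℕ) (ζ : K) (Q : DP K Ω) (v : Pl K) (r : ℕ) where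
  x : Fin r → Gal(Ω/K)
  b : Fin r → Kˣ
  mem : ∀ i, x i ∈ dec (K := K) (Q.P v)
  dual : ∀ i j, kk p ζ (b i) (x j) = if i = j then 1 else 0
  all : ∀ c : Kˣ, ∀ σ ∈ dec (K := K) (Q.P v), kk p ζ c σ = ∑ i, kk p ζ c (x i) * kk p ζ (b i) σ

/-- `ρ`, a word in letters with the values `x i`, is a local relator at `v` -/
structure Lcr (k M : ℕ) [NeZero (p ^ m)] (D : RD0 K p ζ) (Q : DP K Ω) (I : Fnl K Ω p m)
    (v : Pl K) {r : ℕ} (x : Fin r → Gal(Ω/K)) (ρ : FreeGroup (Fin r)) : Prop where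
  rel : ∀ (R : Type) [Group R] [Finite R], Rsm p k M R → ∀ φ : Gal(Ω/K) →* R, H38.ML.FT φ →
    φ (FreeGroup.lift x ρ) = 1
  inv : ∀ (H H' : Type) [Group H] [Finite H] [Group H'] [Finite H'] (π : H →* H')
    (e : H' → H' → ZMod (p ^ m)) (c : H → ZMod (p ^ m)), Function.Surjective π →
    (∀ z, π z = 1 → ∀ h, z * h = h * z) → (∀ x, e 1 x = 0) → (∀ x, e x 1 = 0) →
    (∀ x y, c (x * y) = c x + c y + e (π x) (π y)) → Lw p k M H → Rsm p k M H' →
    ∀ lam : Gal(Ω/K) →* H', H38.ML.FT lam → ∀ θ : FreeGroup (Fin r) →* H,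
      (∀ i, π (θ (FreeGroup.of i)) = lam (x i)) →
      Iv D Q I v (fun σ τ => e (lam σ) (lam τ)) = ZMod.toAddCircle (c (θ ρ))

/-- the local relation for one place -/
def LOv (k M : ℕ) [NeZero (p ^ m)] (D : RD0 K p ζ) (Q : DP K Ω) (I : Fnl K Ω p m) (v : Pl K)
    {ι : Type} (l : List ι) (a b : ι → Gal(Ω/K)) : Prop :=
  ∀ (H H' : Type) [Group H] [Finite H] [Group H'] [Finite H'] (π : H →* H')
    (e : H' → H' → ZMod (p ^ m)) (c : H → ZMod (p ^ m)), Function.Surjective π →
    (∀ z, π z = 1 → ∀ h, z * h = h * z) → (∀ x, e 1 x = 0) → (∀ x, e x 1 = 0) →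
    (∀ x y, c (x * y) = c x + c y + e (π x) (π y)) → Lw p k M H → Rsm p k M H' →
    ∀ lam : Gal(Ω/K) →* H', H38.ML.FT lam → ∀ x y : ι → H,
      (∀ i, π (x i) = lam (a i)) → (∀ i, π (y i) = lam (b i)) →
      Iv D Q I v (fun σ τ => e (lam σ) (lam τ)) = -ZMod.toAddCircle (c (cw l x y))

/-- symplectic coordinates at `v` -/
structure Sco (p : ℕ) (ζ : K) (Ω : Type) [Field Ω] [Algebra K Ω] (v : Pl K) (ι : Type)
    [Fintype ι] where
  A : ι → Kˣ → ZMod p
  B : ι → Kˣ → ZMod p
  mulA : ∀ i x y, A i (x * y) = A i x + A i y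
  mulB : ∀ i x y, B i (x * y) = B i x + B i y
  hs : ∀ x y, H82.SF.hs p ζ Ω v x y = ∑ i, (A i x * B i y - B i x * A i y)
  sur : ∀ s t : ι → ZMod p, ∃ x : Kˣ, ∀ i, A i x = s i ∧ B i x = t i

/-- symplectic coordinates at all `v ∈ S0` -/
structure Glc (D : RD0 K p ζ) (Ω : Type) [Field Ω] [Algebra K Ω] where
  g : ℕ
  pl : Fin g → Pl K
  mem : ∀ i, pl i ∈ D.S0
  S : ∀ v ∈ D.S0, Sco p ζ Ω v {i : Fin g // pl i = v}
  sur : ∀ s t : Fin g → ZMod p, ∃ x : Kˣ, ∀ i,
    (S (pl i) (mem i)).A ⟨i, rfl⟩ x = s i ∧ (S (pl i) (mem i)).B ⟨i, rfl⟩ x = t i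
  cnt : 2 * g ≤ 2 * D.S0.card + Module.finrank ℚ K

/-- symplectic coordinates such that the coordinates `A` are dual to a basis of the `S0`-units -/
structure Tsv (D : RD0 K p ζ) (Ω : Type) [Field Ω] [Algebra K Ω] where
  g : ℕ
  pl : Fin g → Pl K
  mem : ∀ i, pl i ∈ D.S0
  S : ∀ v ∈ D.S0, Sco p ζ Ω v {i : Fin g // pl i = v}
  u : Fin g → Kˣ
  tu : ∀ i, TUnit D.S0 (u i)
  dual : ∀ i j, (S (pl j) (mem j)).A ⟨j, rfl⟩ (u i) = if i = j then 1 else 0
  span : ∀ x : Kˣ, TUnit D.S0 x → ∃ (n : Fin g → ℕ) (y : Kˣ), x = (∏ i, u i ^ n i) * y ^ p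

end gal

end H24.S3
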