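import Mathlib

/-!
# [H24 S3 DD] duality for finite groups of characters

`hcard`: `B` a finite additive group with `n b = 0` for all `b`: it has as many homomorphisms to `ZMod n` as elements. Proof: structure theorem (`AddCommGroup.equiv_directSum_zmod_of_finite`; compare `zm_emb`, `sep_ch` in
H77/S3/Cex.lean) or `AddChar` (`AddChar.card_eq`): characters with values in `ℂ` take values in the `n`-th roots of unity, which are `ZMod n`. (Only `≤` both ways / only the cardinality is needed.)
`dd`: `A` a group, `X` a finite additive group of homomorphisms `A → ZMod n`; every homomorphism `J : X → ℝ/ℤ` is the evaluation at one element of `A` (followed by `toAddCircle`).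
Proof. `n • χ = 0`, so `n • J χ = 0`, and `J = toAddCircle ∘ F` with `F : X → ZMod n` additive (`toAddCircle` is injective with image the `n`-torsion). `B := {ev_a | a ∈ A} ≤ Hom(X, ZMod n)` is a subgroup (`χ (a b) = χ a + χ b`), finite.
`X → Hom(B, ZMod n)`, `χ ↦ (ev_a ↦ χ a)` is injective. So `#X ≤ #Hom(B, ZMod n) = #B ≤ #Hom(X, ZMod n) = #X`: `B` is everything, `F = ev_a`.
-/

set_option autoImplicit false
set_option linter.dupNamespace false

open scoped Classical

noncomputable section

namespace H24.S3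

private theorem dd_std {n : ℕ} [NeZero n] {z : ℂ} (hz : z ^ n = 1) : ∃ k : ZMod n, ZMod.stdAddChar k = z := by
  have h1 := Complex.isPrimitiveRoot_exp n (NeZero.ne n)
  obtain ⟨i, -, hi⟩ := h1.eq_pow_of_pow_eq_one hz
  refine ⟨((i : ℤ) : ZMod n), ?_⟩
  rw [ZMod.stdAddChar_coe, ← hi, ← Complex.exp_nat_mul]
  congr 1
  push_cast
  ring

theorem hcard {B : Type} [AddCommGroup B] [Finite B] {n : ℕ} [NeZero n] (hn : ∀ b : B, n • b = 0) :
    Nat.card (B →+ ZMod n) = Nat.card B := by
  have hinj : Function.Injective (ZMod.stdAddChar : ZMod n → ℂ) := ZMod.injective_stdAddChar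
  have h1 : Nat.card (AddChar B ℂ) = Nat.card B := by
    have := Fintype.ofFinite B
    rw [Nat.card_eq_fintype_card, Nat.card_eq_fintype_card]
    exact AddChar.card_eq
  rw [← h1]
  refine Nat.card_eq_of_bijective
    (fun f : B →+ ZMod n => (ZMod.stdAddChar (N := n)).compAddMonoidHom f) ⟨?_, ?_⟩
  · intro f g hfg
    refine AddMonoidHom.ext fun b => hinj ?_
    exact DFunLike.congr_fun hfg b
  · intro ψ
    have h2 : ∀ b : B, ∃ k : ZMod n, ZMod.stdAddChar k = ψ b := fun b => dd_std (by
      rw [← AddChar.map_nsmul_eq_pow, hn, AddChar.map_zero_eq_one])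
    choose f hf using h2
    refine ⟨{ toFun := f, map_zero' := hinj ?_, map_add' := fun a b => hinj ?_ }, ?_⟩
    · rw [hf, AddChar.map_zero_eq_one, AddChar.map_zero_eq_one]
    · rw [hf, AddChar.map_add_eq_mul, AddChar.map_add_eq_mul, hf, hf]
    · exact DFunLike.ext _ _ fun b => hf b

private theorem dd_tor {n : ℕ} [NeZero n] {y : AddCircle (1 : ℝ)} (hy : n • y = 0) :
    ∃ k : ZMod n, ZMod.toAddCircle k = y := by
  induction y using QuotientAddGroup.induction_on with
  | H x =>
    have h1 : ((n • x : ℝ) : AddCircle (1 : ℝ)) = 0 := hy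
    rw [AddCircle.coe_eq_zero_iff] at h1
    obtain ⟨m, hm⟩ := h1
    refine ⟨(m : ZMod n), ?_⟩
    rw [ZMod.toAddCircle_intCast]
    have hn : (n : ℝ) ≠ 0 := Nat.cast_ne_zero.2 (NeZero.ne n)
    have h2 : (m : ℝ) / n = x := by
      rw [div_eq_iff hn]
      rw [zsmul_eq_mul, mul_one, nsmul_eq_mul] at hm
      rw [hm, mul_comm]
    rw [h2]

theorem dd {A : Type} [Group A] {n : ℕ} [NeZero n] (X : AddSubgroup (A → ZMod n)) [Finite X]
    (hX : ∀ χ ∈ X, ∀ a b, χ (a * b) = χ a + χ b) (J : X →+ AddCircle (1 : ℝ)) :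
    ∃ a : A, ∀ χ : X, J χ = ZMod.toAddCircle (χ.1 a) := by
  have hnX : ∀ χ : X, n • χ = 0 := by
    intro χ
    refine Subtype.ext (funext fun a => ?_)
    change n • χ.1 a = 0
    rw [nsmul_eq_mul, ZMod.natCast_self, zero_mul]
  have h1 : ∀ χ ∈ X, χ (1 : A) = 0 := by
    intro χ hχ
    have h2 := hX χ hχ 1 1
    rw [mul_one] at h2
    exact left_eq_add.1 h2
  have hinv : ∀ χ ∈ X, ∀ a, χ a⁻¹ = -χ a := by
    intro χ hχ a
    have h2 := hX χ hχ a⁻¹ a
    rw [inv_mul_cancel, h1 χ hχ] at h2
    exact eq_neg_of_add_eq_zero_left h2.symm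
  have : Finite (X →+ ZMod n) := Finite.of_injective (fun f => (f : X → ZMod n)) DFunLike.coe_injective
  let B : AddSubgroup (X →+ ZMod n) :=
    { carrier := {F | ∃ a : A, ∀ χ : X, F χ = χ.1 a}
      zero_mem' := ⟨1, fun χ => (h1 χ.1 χ.2).symm⟩
      add_mem' := by
        rintro F G ⟨a, ha⟩ ⟨b, hb⟩
        refine ⟨a * b, fun χ => ?_⟩
        rw [hX χ.1 χ.2, AddMonoidHom.add_apply, ha, hb]
      neg_mem' := by
        rintro F ⟨a, ha⟩
        refine ⟨a⁻¹, fun χ => ?_⟩
        rw [hinv χ.1 χ.2, AddMonoidHom.neg_apply, ha] }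
  have hnB : ∀ b : B, n • b = 0 := by
    intro b
    refine Subtype.ext (AddMonoidHom.ext fun χ => ?_)
    change n • b.1 χ = 0
    rw [nsmul_eq_mul, ZMod.natCast_self, zero_mul]
  have : Finite (B →+ ZMod n) := Finite.of_injective (fun f => (f : B → ZMod n)) DFunLike.coe_injective
  have hc1 : Nat.card X ≤ Nat.card (B →+ ZMod n) := by
    refine Nat.card_le_card_of_injective
      (fun χ : X => ({ toFun := fun F => F.1 χ, map_zero' := rfl, map_add' := fun F G => rfl } : B →+ ZMod n)) ?_
    intro χ χ' h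
    refine Subtype.ext (funext fun a => ?_)
    let ev : X →+ ZMod n := { toFun := fun χ => χ.1 a, map_zero' := rfl, map_add' := fun F G => rfl }
    have hev : ev ∈ B := ⟨a, fun χ => rfl⟩
    exact DFunLike.congr_fun h (⟨ev, hev⟩ : B)
  have hc2 : Nat.card B = Nat.card (X →+ ZMod n) := by
    refine le_antisymm (AddSubgroup.card_le_card_addGroup B) ?_
    rw [hcard hnX, ← hcard hnB]
    exact hc1
  have htop : B = ⊤ := AddSubgroup.eq_top_of_card_eq B hc2
  have hJ : ∀ χ : X, ∃ k : ZMod n, ZMod.toAddCircle k = J χ := fun χ => dd_tor (by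
    rw [← map_nsmul, hnX, map_zero])
  choose f hf using hJ
  have hinj : Function.Injective (ZMod.toAddCircle : ZMod n →+ AddCircle (1 : ℝ)) := ZMod.toAddCircle_injective n
  let F : X →+ ZMod n :=
    { toFun := f
      map_zero' := hinj (by rw [hf, map_zero, map_zero])
      map_add' := fun a b => hinj (by rw [hf, map_add, map_add, hf, hf]) }
  have hF : F ∈ B := by
    rw [htop]
    exact AddSubgroup.mem_top F
  obtain ⟨a, ha⟩ := hF
  exact ⟨a, fun χ => by rw [← ha χ]; exact (hf χ).symm⟩

end H24.S3
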