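import Pool.Agent.H63.MA.Base

/-!
# [H24 S3 VCB] helper lemmas for Vcn (step (B), one place at a time)

`vcb`: at most `p (nm v)^e` elements of `(𝓞/v^N)ˣ` have `x^p = 1` if `p ∉ v^(e+1)`, `e ≤ N`, `K` contains a primitive `p`-th root of unity `ζ` (`p` prime).
Proof. `x ∈ 𝓞`, `x ^ p - 1 = ∏_{i<p} (x - ζ^i) ∈ v^N`. Choose `i` with `ord (x - ζ^i)` maximal (`ord` = multiplicity of `v`, or the valuation minimal). For `j ≠ i`: `ord (x - ζ^j) ≤ ord (ζ^i - ζ^j)`, `∏_{j ≠ i} (ζ^i - ζ^j) = p ζ^(i (p-1))` (derivative of `X^p - 1`), so `N ≤ ord (x - ζ^i) + ord p ≤ ord (x - ζ^i) + e`. So the image of `x` in `𝓞/v^(N-e)` is one of the `p` elements `ζ^i`; the kernel of `𝓞/v^N → 𝓞/v^(N-e)` has `(nm v)^e` elements.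
`vcp`: `∏_{v ∈ S0} v^(e v)` divides `(p)` (pairwise coprime), so its norm divides `absNorm (p) = p ^ [K:ℚ]`.
-/

set_option autoImplicit false
set_option linter.dupNamespace false

open scoped NumberField
open IsDedekindDomain
open scoped Classical

noncomputable section

namespace H24.S3

open H63.MA

variable {K : Type} [Field K] [NumberField K] {p : ℕ} {ζ : K}

/-- multiplicity of `v` at an element -/
private def om (v : Pl K) (y : 𝓞 K) : ℕ∞ := emultiplicity v.asIdeal (Ideal.span {y})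

private theorem om_le (v : Pl K) (y : 𝓞 K) (k : ℕ) : (k : ℕ∞) ≤ om v y ↔ y ∈ v.asIdeal ^ k := by
  rw [om, ← pow_dvd_iff_le_emultiplicity, Ideal.dvd_span_singleton]

private theorem om_mul (v : Pl K) (y z : 𝓞 K) : om v (y * z) = om v y + om v z := by
  rw [om, om, om, ← Ideal.span_singleton_mul_span_singleton, emultiplicity_mul v.prime]

private theorem om_prod {β : Type} (v : Pl K) (s : Finset β) (f : β → 𝓞 K) : om v (∏ x ∈ s, f x) = ∑ x ∈ s, om v (f x) := by
  induction s using Finset.induction_on with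
  | empty =>
    rw [Finset.prod_empty, Finset.sum_empty, om, Ideal.span_singleton_one]
    refine emultiplicity_eq_zero.2 fun h => v.isPrime.ne_top ?_
    exact top_unique (Ideal.dvd_iff_le.1 h)
  | insert a s ha ih => rw [Finset.prod_insert ha, Finset.sum_insert ha, om_mul, ih]

private theorem om_sub (v : Pl K) (y z : 𝓞 K) : min (om v y) (om v z) ≤ om v (y - z) := by
  refine ENat.forall_natCast_le_iff_le.1 fun k hk => ?_
  rw [le_min_iff, om_le, om_le] at hk
  rw [om_le]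
  exact Ideal.sub_mem _ hk.1 hk.2

private theorem om_unit (v : Pl K) {y : 𝓞 K} (h : IsUnit y) : om v y = 0 := by
  refine emultiplicity_eq_zero.2 fun h' => v.isPrime.ne_top ?_
  rw [Ideal.span_singleton_eq_top.2 h] at h'
  exact top_unique (Ideal.dvd_iff_le.1 h')

private theorem near_root (hp : p.Prime) (hζ : IsPrimitiveRoot ζ p) (v : Pl K) (e N : ℕ)
    (he : (p : 𝓞 K) ∉ v.asIdeal ^ (e + 1)) (x : 𝓞 K) (hx : x ^ p - 1 ∈ v.asIdeal ^ N) :
    ∃ w ∈ Polynomial.nthRootsFinset p (1 : 𝓞 K), x - w ∈ v.asIdeal ^ (N - e) := by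
  have : NeZero p := ⟨hp.ne_zero⟩
  have hz := hζ.toInteger_isPrimitiveRoot
  set S := Polynomial.nthRootsFinset p (1 : 𝓞 K) with hS
  have hne : S.Nonempty := ⟨1, by rw [hS, Polynomial.mem_nthRootsFinset hp.pos]; simp⟩
  have hpoly : (Polynomial.X ^ p - 1 : Polynomial (𝓞 K)) = Lagrange.nodal S id := Polynomial.X_pow_sub_one_eq_prod hp.pos hz
  have hprod : ∏ w ∈ S, (x - w) = x ^ p - 1 := by
    have h := Lagrange.eval_nodal (s := S) (v := (id : 𝓞 K → 𝓞 K)) (x := x)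
    rw [← hpoly] at h
    simpa using h.symm
  obtain ⟨w, hw, hmax⟩ := S.exists_max_image (fun w => om v (x - w)) hne
  refine ⟨w, hw, ?_⟩
  have hder : ∏ u ∈ S.erase w, (w - u) = (p : 𝓞 K) * w ^ (p - 1) := by
    have h := Lagrange.eval_nodal_derivative_eval_node_eq (s := S) (v := (id : 𝓞 K → 𝓞 K)) hw
    rw [← hpoly, Lagrange.eval_nodal] at h
    rw [← show Polynomial.eval (id w) (Polynomial.derivative (Polynomial.X ^ p - 1 : Polynomial (𝓞 K))) = (p : 𝓞 K) * w ^ (p - 1) by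
      simp [Polynomial.derivative_X_pow], h]
    rfl
  have h1 : (N : ℕ∞) ≤ ∑ u ∈ S, om v (x - u) := by
    rw [← om_prod, hprod, om_le]
    exact hx
  have h2 : ∑ u ∈ S.erase w, om v (x - u) ≤ om v (p : 𝓞 K) := by
    have hw1 : w ^ p = 1 := (Polynomial.mem_nthRootsFinset hp.pos _).1 hw
    have hu : IsUnit (w ^ (p - 1)) := (IsUnit.of_pow_eq_one hw1 hp.ne_zero).pow _
    have h3 : om v (p : 𝓞 K) = ∑ u ∈ S.erase w, om v (w - u) := by
      rw [← om_prod, hder, om_mul, om_unit v hu, add_zero]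
    rw [h3]
    refine Finset.sum_le_sum fun u hu => ?_
    have h4 := hmax u (Finset.mem_of_mem_erase hu)
    have h5 := om_sub v (x - u) (x - w)
    rw [min_eq_left h4, sub_sub_sub_cancel_left] at h5
    exact h5
  have h3 : om v (p : 𝓞 K) ≤ e := by
    by_contra h
    rw [not_le] at h
    refine he ((om_le v _ _).1 ?_)
    rw [Nat.cast_add, Nat.cast_one]
    exact Order.add_one_le_of_lt h
  rw [← om_le]
  rw [← Finset.add_sum_erase S _ hw] at h1
  have h4 : (N : ℕ∞) ≤ om v (x - w) + e := h1.trans (add_le_add le_rfl (h2.trans h3))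
  rw [ENat.natCast_sub, tsub_le_iff_right]
  exact h4

private theorem card_quot (I : Ideal (𝓞 K)) : Nat.card (𝓞 K ⧸ I) = Ideal.absNorm I := by
  rw [Ideal.absNorm_apply, Submodule.cardQuot_apply]

theorem vcb (hp : p.Prime) (hζ : IsPrimitiveRoot ζ p) (v : Pl K) (e N : ℕ) (heN : e ≤ N)
    (he : (p : 𝓞 K) ∉ v.asIdeal ^ (e + 1)) :
    Nat.card {x : (𝓞 K ⧸ v.asIdeal ^ N)ˣ // x ^ p = 1} ≤ p * Ideal.absNorm v.asIdeal ^ e := by
  have : NeZero p := ⟨hp.ne_zero⟩
  have hz := hζ.toInteger_isPrimitiveRoot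
  have hcard : (Polynomial.nthRootsFinset p (1 : 𝓞 K)).card = p := hz.card_nthRootsFinset
  have hfin : Finite (𝓞 K ⧸ v.asIdeal ^ N) := Ideal.finiteQuotientOfFreeOfNeBot _ (pow_ne_zero N v.ne_bot)
  have hle : v.asIdeal ^ N ≤ v.asIdeal ^ (N - e) := Ideal.pow_le_pow_right (Nat.sub_le N e)
  let f : (𝓞 K ⧸ v.asIdeal ^ N) →+* (𝓞 K ⧸ v.asIdeal ^ (N - e)) := Ideal.Quotient.factor hle
  have hf : Function.Surjective f := Ideal.Quotient.factor_surjective hle
  have hq : 0 < Ideal.absNorm v.asIdeal := Nat.pos_of_ne_zero fun h => v.ne_bot (Ideal.absNorm_eq_zero_iff.1 h)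
  have hk : Nat.card f.toAddMonoidHom.ker = Ideal.absNorm v.asIdeal ^ e := by
    have h1 := AddSubgroup.card_eq_card_quotient_mul_card_addSubgroup f.toAddMonoidHom.ker
    have h2 : Nat.card ((𝓞 K ⧸ v.asIdeal ^ N) ⧸ f.toAddMonoidHom.ker) = Nat.card (𝓞 K ⧸ v.asIdeal ^ (N - e)) :=
      Nat.card_congr (QuotientAddGroup.quotientKerEquivOfSurjective f.toAddMonoidHom hf).toEquiv
    rw [h2, card_quot, card_quot, map_pow, map_pow] at h1
    have h3 : Ideal.absNorm v.asIdeal ^ N = Ideal.absNorm v.asIdeal ^ (N - e) * Ideal.absNorm v.asIdeal ^ e := by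
      rw [← pow_add, Nat.sub_add_cancel heN]
    rw [h3] at h1
    exact (Nat.eq_of_mul_eq_mul_left (pow_pos hq _) h1).symm
  have hex : ∀ x : {x : (𝓞 K ⧸ v.asIdeal ^ N)ˣ // x ^ p = 1}, ∃ w : {w // w ∈ Polynomial.nthRootsFinset p (1 : 𝓞 K)},
      ((x.1 : 𝓞 K ⧸ v.asIdeal ^ N) - Ideal.Quotient.mk _ w.1) ∈ f.toAddMonoidHom.ker := by
    rintro ⟨x, hx⟩
    obtain ⟨y, hy⟩ := Ideal.Quotient.mk_surjective (x : 𝓞 K ⧸ v.asIdeal ^ N)
    have h1 : y ^ p - 1 ∈ v.asIdeal ^ N := by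
      rw [← Ideal.Quotient.eq_zero_iff_mem, map_sub, map_pow, hy, map_one, ← Units.val_pow_eq_pow_val, hx, Units.val_one, sub_self]
    obtain ⟨w, hw, hyw⟩ := near_root hp hζ v e N he y h1
    refine ⟨⟨w, hw⟩, ?_⟩
    show f ((x : 𝓞 K ⧸ v.asIdeal ^ N) - Ideal.Quotient.mk _ w) = 0
    rw [← hy, ← map_sub]
    exact Ideal.Quotient.eq_zero_iff_mem.2 hyw
  choose g hg using hex
  have hinj : Function.Injective (fun x => ((g x, ⟨_, hg x⟩) : {w // w ∈ Polynomial.nthRootsFinset p (1 : 𝓞 K)} ×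
      f.toAddMonoidHom.ker)) := by
    intro x y hxy
    have h1 := congrArg Prod.fst hxy
    have h2 := congrArg (fun z => (Prod.snd z).1) hxy
    simp only at h1 h2
    rw [h1] at h2
    exact Subtype.ext (Units.ext (sub_left_injective h2))
  refine (Nat.card_le_card_of_injective _ hinj).trans ?_
  rw [Nat.card_prod, hk, Nat.card_eq_fintype_card, Fintype.card_coe, hcard]

theorem vcp (hp : p.Prime) (S0 : Finset (Pl K)) (e : Pl K → ℕ)
    (he : ∀ v ∈ S0, (p : 𝓞 K) ∈ v.asIdeal ^ e v) :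
    ∏ v ∈ S0, Ideal.absNorm v.asIdeal ^ e v ≤ p ^ Module.finrank ℚ K := by
  have h1 : ∏ v ∈ S0, v.asIdeal ^ e v ∣ Ideal.span {(p : 𝓞 K)} := by
    refine Finset.prod_dvd_of_coprime (fun v _ w _ hvw => ?_) fun v hv => Ideal.dvd_span_singleton.2 (he v hv)
    refine IsCoprime.pow (Ideal.isCoprime_iff_sup_eq.2 ?_)
    have hv : v.asIdeal.IsMaximal := v.isMaximal
    have hw : w.asIdeal.IsMaximal := w.isMaximal
    exact Ideal.IsMaximal.coprime_of_ne hv hw fun h => hvw (HeightOneSpectrum.ext h)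
  have h2 := map_dvd Ideal.absNorm h1
  rw [map_prod] at h2
  have h3 : Ideal.absNorm (Ideal.span {(p : 𝓞 K)}) = p ^ Module.finrank ℚ K := by
    rw [Ideal.absNorm_span_natCast, NumberField.RingOfIntegers.rank]
  rw [h3] at h2
  simp only [map_pow] at h2
  exact Nat.le_of_dvd (pow_pos hp.pos _) h2

end H24.S3
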