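import Pool.Agent.H24.S3.Df
import Pool.Agent.H24.S3.Vcb
import Pool.Agent.H82.SF.Lva
import Pool.Agent.H63.MA.RMkA

/-!
# [H24 S3 VCN] the number of local classes modulo `p`-th powers

`vcn`: `S0` contains the primes above `p`: at most `p^(2 #S0 + [K:ℚ])` classes of `Kˣ` modulo the elements which are `p`-th powers locally at all `v ∈ S0`.
Proof. `N` large, `𝔪 = ∏_{v ∈ S0} v^(N)` as an ideal of `𝓞 K` (`N > ord v (p^2)` for all `v ∣ p`).
(A) If `x ≡ 1` modulo `𝔪` (`x ∈ 𝓞 K`, or `v.valuation (x - 1) ≤ exp (-N)` for `v ∈ S0`) then `Lv v x` for `v ∈ S0` (`lv_locP`, `lv_spl`, H82/SF/Lva.lean; see also RMkA in H63/MA/RMkA.lean, `RMkA_fin`, where finiteness is proved in this way).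
(B) `G = (𝓞 K / 𝔪)ˣ` finite commutative; `#(G / G^p) = #G[p]`, `G[p] = {x | x^p = 1}`. `#G[p] ≤ p^(#S0 + [K:ℚ])`: by CRT `G = ∏ (𝓞/v^N)ˣ`, and for one `v`: `x ^ p ≡ 1` modulo `v^N`: `∏_{i<p} (x - ζ^i) ≡ 0`, and for `i ≠ j` `ord v (ζ^i - ζ^j) = e/(p-1) =: e'` (`e = ord v p`, `0` if `v ∤ p`), so for
the `i` with the largest `ord v (x - ζ^i)` the other factors have order `≤ e'`, `ord v (x - ζ^i) ≥ N - (p-1) e' = N - e`: at most `p` choices of `i`, and `x ∈ ζ^i + v^(N-e)`: `(nm v)^e` classes modulo `v^N`. So `#G[p] ≤ ∏_{v ∈ S0} p (nm v)^(e_v) = p^(#S0) ∏_{v ∣ p} p^(e_v f_v) = p^(#S0 + [K:ℚ])`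
(`Ideal.sum_ramification_inertia`, or: `∏ (nm v)^(e_v) = absNorm (p) = p^[K:ℚ]`).
(C) `x ∈ Kˣ`: the class of `x` is determined by `ord v x` modulo `p` (`v ∈ S0`: `p^(#S0)` possibilities), and for two `x, x'` with the same values `x / x' = y^p x''` with `ord v x'' = 0` for `v ∈ S0` (weak approximation for `y`), `x''` is congruent modulo `𝔪` to an element of `𝓞 K` prime to `𝔪`
(`RMkA_loc`-like), so it has a class in `G / G^p`; if the class is trivial `x'' ≡ y'^p` and `x'' y'^(-p)` is as in (A). So at most `p^(#S0) * #(G / G^p)` classes. Choose representatives.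
-/

set_option autoImplicit false
set_option linter.dupNamespace false

open scoped NumberField commutatorElement
open IsDedekindDomain
open scoped Classical

noncomputable section

namespace H24.S3

open H63.MA H38.BB H38.BG H57.PC H57.BRA H89.BRG H57.RQ H24.RK Pool.Agent.H19.NF
  Pool.Agent.H19.AB Pool.Agent.H19.A2 Pool.Agent.H19 H77.WD H77.WE H77.GL H77.S3 H82.SF

variable {K : Type} [Field K] [NumberField K] {Ω : Type} [Field Ω] [Algebra K Ω]
  [IsAlgClosure K Ω] {p m : ℕ} {ζ : K}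

private theorem vcn_lv (hp : p.Prime) (hζ : IsPrimitiveRoot ζ p) (v : Pl K) {x : Kˣ}
    (h : ∃ y : Kˣ, v.valuation K (((x * (y ^ p)⁻¹ : Kˣ) : K) - 1) < v.valuation K ((p : K) ^ 2)) :
    Lv p ζ Ω v x := by
  by_cases hv : Above p v
  · exact lv_locP hp hζ hv h
  · obtain ⟨y, hy⟩ := h
    refine lv_spl hp hζ hv ((spl_iff hp hζ hv x).2 ⟨y, ?_⟩)
    refine lt_of_lt_of_le hy ?_
    have h2 := v.valuation_le_one (K := K) ((p : 𝓞 K) ^ 2)
    simpa using h2

section loc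

variable (v : Pl K)

private theorem vcn_unit {N : ℕ} (hN : 1 ≤ N) {a : 𝓞 K}
    (ha : IsUnit (Ideal.Quotient.mk (v.asIdeal ^ N) a)) : v.valuation K (algebraMap (𝓞 K) K a) = 1 := by
  rw [HeightOneSpectrum.valuation_eq_one_iff_notMem]
  intro h
  obtain ⟨b, hb⟩ := ha.exists_right_inv
  obtain ⟨b, rfl⟩ := Ideal.Quotient.mk_surjective b
  rw [← map_mul, ← map_one (Ideal.Quotient.mk (v.asIdeal ^ N)), Ideal.Quotient.eq] at hb
  have h1 : v.asIdeal ^ N ≤ v.asIdeal := Ideal.pow_le_self (by omega)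
  have h2 : a * b - 1 ∈ v.asIdeal := h1 hb
  have h3 : a * b ∈ v.asIdeal := v.asIdeal.mul_mem_right _ h
  have h4 : (1 : 𝓞 K) ∈ v.asIdeal := by
    have := v.asIdeal.sub_mem h3 h2
    simpa using this
  exact v.isPrime.ne_top ((Ideal.eq_top_iff_one _).2 h4)

private theorem vcn_unit' {N : ℕ} {a : 𝓞 K} (ha : v.valuation K (algebraMap (𝓞 K) K a) = 1) :
    IsUnit (Ideal.Quotient.mk (v.asIdeal ^ N) a) := by
  rw [HeightOneSpectrum.valuation_eq_one_iff_notMem] at ha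
  have hmax : v.asIdeal.IsMaximal := v.isMaximal
  have h1 : IsCoprime (Ideal.span {a}) (v.asIdeal ^ N) := by
    apply IsCoprime.pow_right
    obtain ⟨y, i, hi, hy⟩ := hmax.exists_inv ha
    exact Ideal.isCoprime_iff_exists.2 ⟨y * a, Ideal.mul_mem_left _ _
      (Ideal.mem_span_singleton_self a), i, hi, hy⟩
  obtain ⟨i, hi, j, hj, hij⟩ := Ideal.isCoprime_iff_exists.1 h1
  obtain ⟨y, rfl⟩ := Ideal.mem_span_singleton.1 hi
  apply IsUnit.of_mul_eq_one (Ideal.Quotient.mk (v.asIdeal ^ N) y)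
  rw [← map_mul, ← map_one (Ideal.Quotient.mk (v.asIdeal ^ N)), Ideal.Quotient.eq]
  have h2 : a * y - 1 = -j := by
    rw [← hij]
    ring
  rw [h2]
  exact (v.asIdeal ^ N).neg_mem hj

private theorem vcn_congr {N : ℕ} {a b : 𝓞 K}
    (h : Ideal.Quotient.mk (v.asIdeal ^ N) a = Ideal.Quotient.mk (v.asIdeal ^ N) b) :
    v.valuation K (algebraMap (𝓞 K) K a - algebraMap (𝓞 K) K b) ≤ WithZero.exp (-(N : ℤ)) := by
  rw [← map_sub, HeightOneSpectrum.valuation_of_algebraMap,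
      HeightOneSpectrum.intValuation_le_pow_iff_mem]
  exact Ideal.Quotient.eq.1 h

/-- one place -/
private theorem vcn_loc (hp : p.Prime) (hζ : IsPrimitiveRoot ζ p) (e : ℕ)
    (he : (p : 𝓞 K) ∉ v.asIdeal ^ (e + 1)) :
    ∃ R : Finset Kˣ, R.card ≤ p ^ 2 * Ideal.absNorm v.asIdeal ^ e ∧
      ∀ x : Kˣ, ∃ y ∈ R, ∃ z : Kˣ, v.valuation K (((x * y⁻¹ * (z ^ p)⁻¹ : Kˣ) : K) - 1) <
        v.valuation K ((p : K) ^ 2) := by
  have hpK : ((p : K) ^ 2) ≠ 0 := by
    have : (p : K) ≠ 0 := by exact_mod_cast hp.ne_zero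
    exact pow_ne_zero _ this
  obtain ⟨n0, hn0⟩ := wa_small 1 (v.valuation K ((p : K) ^ 2)) ((Valuation.ne_zero_iff _).2 hpK)
  obtain ⟨N, hN0, hNe, hN1⟩ : ∃ N : ℕ, n0 ≤ N ∧ e ≤ N ∧ 1 ≤ N :=
    ⟨n0 + e + 1, by omega, by omega, by omega⟩
  have hN : WithZero.exp (-(N : ℤ)) < v.valuation K ((p : K) ^ 2) := by
    have := hn0 N hN0
    rwa [mul_one] at this
  have hfin : Finite (𝓞 K ⧸ v.asIdeal ^ N) :=
    Ideal.finiteQuotientOfFreeOfNeBot _ (pow_ne_zero _ v.ne_bot)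
  let G := (𝓞 K ⧸ v.asIdeal ^ N)ˣ
  have hG : Finite G := inferInstanceAs (Finite (𝓞 K ⧸ v.asIdeal ^ N)ˣ)
  let H : Subgroup G := (powMonoidHom p : G →* G).range
  have hQcard : Nat.card (G ⧸ H) ≤ p * Ideal.absNorm v.asIdeal ^ e := by
    have h1 : Nat.card (G ⧸ H) = Nat.card (powMonoidHom p : G →* G).ker := by
      have h2 := Subgroup.card_mul_index H
      have h3 := Subgroup.card_mul_index (powMonoidHom p : G →* G).ker
      rw [Subgroup.index_ker] at h3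
      have h4 : 0 < Nat.card H := Nat.card_pos
      have h5 : Nat.card H * H.index = Nat.card H * Nat.card (powMonoidHom p : G →* G).ker := by
        rw [h2, ← h3, mul_comm]
      exact Nat.eq_of_mul_eq_mul_left h4 h5
    rw [h1]
    exact vcb hp hζ v e N hNe he
  have hQfin : Finite (G ⧸ H) := inferInstance
  have : Fintype (G ⧸ H) := Fintype.ofFinite _
  -- representatives
  have hrep : ∀ c : G ⧸ H, ∃ (A : Kˣ) (a : 𝓞 K) (g : G), (A : K) = algebraMap (𝓞 K) K a ∧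
      Ideal.Quotient.mk (v.asIdeal ^ N) a = (g : 𝓞 K ⧸ v.asIdeal ^ N) ∧
      (QuotientGroup.mk g : G ⧸ H) = c ∧ v.valuation K (A : K) = 1 := by
    intro c
    obtain ⟨g, rfl⟩ := QuotientGroup.mk_surjective c
    obtain ⟨a, ha⟩ := Ideal.Quotient.mk_surjective (g : 𝓞 K ⧸ v.asIdeal ^ N)
    have h1 : v.valuation K (algebraMap (𝓞 K) K a) = 1 := vcn_unit v hN1 (by rw [ha]; exact g.isUnit)
    have h2 : algebraMap (𝓞 K) K a ≠ 0 := by
      intro h
      rw [h, map_zero] at h1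
      exact zero_ne_one h1
    exact ⟨Units.mk0 _ h2, a, g, rfl, ha, rfl, h1⟩
  choose A a g hA ha hg hAv using hrep
  obtain ⟨π, hπ⟩ := exists_unif v
  refine ⟨(Finset.range p ×ˢ (Finset.univ : Finset (G ⧸ H))).image fun q => π ^ q.1 * A q.2, ?_, ?_⟩
  · refine Finset.card_image_le.trans ?_
    rw [Finset.card_product, Finset.card_range, Finset.card_univ, ← Nat.card_eq_fintype_card,
      pow_two, mul_assoc]
    exact Nat.mul_le_mul_left _ hQcard
  · intro x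
    have hp0 : (0 : ℤ) < p := by exact_mod_cast hp.pos
    obtain ⟨r, q, hr, hrq⟩ : ∃ (r : ℕ) (q : ℤ), r < p ∧ ord v x = r + p * q := by
      refine ⟨(ord v x % p).toNat, ord v x / p, ?_, ?_⟩
      · have h3 := Int.emod_nonneg (ord v x) hp0.ne'
        have h4 := Int.emod_lt_of_pos (ord v x) hp0
        omega
      · have h3 := Int.emod_nonneg (ord v x) hp0.ne'
        rw [Int.toNat_of_nonneg h3]
        exact (Int.emod_add_mul_ediv (ord v x) p).symm
    obtain ⟨u, hu⟩ : ∃ u : Kˣ, u = x * (π ^ (ord v x))⁻¹ := ⟨_, rfl⟩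
    have hu1 : v.valuation K (u : K) = 1 := by
      rw [← ord_eq_zero_iff, hu, ord_mul, ord_inv, ord_zpow, hπ]
      ring
    obtain ⟨b, hb⟩ := RMkA_loc v N (u : K) hu1.le
    have hlt1 : WithZero.exp (-(N : ℤ)) < (1 : WithZero (Multiplicative ℤ)) := by
      rw [← WithZero.exp_zero, WithZero.exp_lt_exp]
      omega
    have hb1 : v.valuation K (algebraMap (𝓞 K) K b) = 1 := by
      have h1 : algebraMap (𝓞 K) K b = (algebraMap (𝓞 K) K b - (u : K)) + (u : K) := by ring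
      rw [h1, Valuation.map_add_eq_of_lt_right _ (by rw [hu1]; exact lt_of_le_of_lt hb hlt1), hu1]
    have hbu := vcn_unit' v (N := N) hb1
    let gb : G := hbu.unit
    have hgb : (gb : 𝓞 K ⧸ v.asIdeal ^ N) = Ideal.Quotient.mk (v.asIdeal ^ N) b := hbu.unit_spec
    have h1 : (g (QuotientGroup.mk gb : G ⧸ H))⁻¹ * gb ∈ H := by
      rw [← QuotientGroup.eq]
      exact hg _
    obtain ⟨d0, hd0⟩ := h1
    obtain ⟨c, hc⟩ : ∃ c : G ⧸ H, c = QuotientGroup.mk gb := ⟨_, rfl⟩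
    rw [← hc] at hd0
    have hd1 : (g c) * d0 ^ p = gb := by
      have h2 : d0 ^ p = (g c)⁻¹ * gb := hd0
      rw [h2, mul_inv_cancel_left]
    obtain ⟨d, hd⟩ := Ideal.Quotient.mk_surjective (d0 : 𝓞 K ⧸ v.asIdeal ^ N)
    have hdv : v.valuation K (algebraMap (𝓞 K) K d) = 1 := vcn_unit v hN1 (by rw [hd]; exact d0.isUnit)
    have hdne : algebraMap (𝓞 K) K d ≠ 0 := by
      intro h
      rw [h, map_zero] at hdv
      exact zero_ne_one hdv
    obtain ⟨D, hD⟩ : ∃ D : Kˣ, (D : K) = algebraMap (𝓞 K) K d := ⟨Units.mk0 _ hdne, rfl⟩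
    have hcon : v.valuation K (algebraMap (𝓞 K) K (a c * d ^ p) - algebraMap (𝓞 K) K b) ≤
        WithZero.exp (-(N : ℤ)) := by
      apply vcn_congr
      rw [map_mul, map_pow, ha, hd, ← hgb, ← hd1, Units.val_mul, Units.val_pow_eq_pow_val]
    have hcon2 : v.valuation K ((u : K) - (A c : K) * (D : K) ^ p) ≤ WithZero.exp (-(N : ℤ)) := by
      have h2 : (u : K) - (A c : K) * (D : K) ^ p = -((algebraMap (𝓞 K) K b - (u : K)) +
          (algebraMap (𝓞 K) K (a c * d ^ p) - algebraMap (𝓞 K) K b)) := by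
        rw [hA, hD, map_mul, map_pow]
        ring
      rw [h2, Valuation.map_neg]
      exact (Valuation.map_add _ _ _).trans (max_le hb hcon)
    refine ⟨π ^ r * A c, Finset.mem_image.2 ⟨(r, c), Finset.mem_product.2
      ⟨Finset.mem_range.2 hr, Finset.mem_univ _⟩, rfl⟩, π ^ q * D, ?_⟩
    have hxu : x = u * π ^ (ord v x) := by rw [hu, inv_mul_cancel_right]
    have h3 : x * (π ^ r * A c)⁻¹ * ((π ^ q * D) ^ p)⁻¹ = u * (A c * D ^ p)⁻¹ := by
      rw [hxu]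
      have h4 : π ^ (ord v x) = π ^ r * (π ^ q) ^ p := by
        rw [hrq, zpow_add, zpow_natCast, mul_comm (p : ℤ) q, zpow_mul, zpow_natCast]
      rw [h4, mul_pow, mul_inv_eq_iff_eq_mul, mul_inv_eq_iff_eq_mul]
      have h5 : (π ^ q) ^ p * D ^ p * (π ^ r * A c) = (A c * D ^ p) * (π ^ r * (π ^ q) ^ p) := by
        ac_rfl
      rw [mul_assoc (u * _), h5, mul_assoc u, inv_mul_cancel_left]
    have h5 : v.valuation K ((A c : K) * (D : K) ^ p) = 1 := by
      rw [map_mul, map_pow, hAv, hD, hdv, one_pow, mul_one]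
    have h6 : ((A c : K) * (D : K) ^ p) ≠ 0 := mul_ne_zero (A c).ne_zero (pow_ne_zero _ D.ne_zero)
    have h7 : (((u * (A c * D ^ p)⁻¹ : Kˣ) : K) - 1) =
        ((u : K) - (A c : K) * (D : K) ^ p) * ((A c : K) * (D : K) ^ p)⁻¹ := by
      rw [Units.val_mul, Units.val_inv_eq_inv_val, Units.val_mul, Units.val_pow_eq_pow_val, sub_mul,
        mul_inv_cancel₀ h6]
    rw [h3, h7, map_mul, map_inv₀, h5, inv_one, mul_one]
    exact lt_of_le_of_lt hcon2 hN

end loc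

private theorem vcn_e (hp : p.Prime) (v : Pl K) : ∃ e : ℕ, (p : 𝓞 K) ∈ v.asIdeal ^ e ∧
    (p : 𝓞 K) ∉ v.asIdeal ^ (e + 1) := by
  have hpK : (p : K) ≠ 0 := by exact_mod_cast hp.ne_zero
  have h1 := val_eq v (Units.mk0 (p : K) hpK)
  have h0 : 0 ≤ ord v (Units.mk0 (p : K) hpK) := by
    rw [ord_nonneg_iff]
    have h2 := v.valuation_le_one (K := K) (p : 𝓞 K)
    simpa using h2
  obtain ⟨e, he⟩ := Int.eq_ofNat_of_zero_le h0
  rw [he] at h1
  have h3 : v.intValuation (p : 𝓞 K) = WithZero.exp (-(e : ℤ)) := by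
    rw [← HeightOneSpectrum.valuation_of_algebraMap (K := K)]
    simpa using h1
  refine ⟨e, ?_, ?_⟩
  · rw [← HeightOneSpectrum.intValuation_le_pow_iff_mem, h3]
  · rw [← HeightOneSpectrum.intValuation_le_pow_iff_mem, h3, WithZero.exp_le_exp]
    push_cast
    omega

theorem vcn (hp : p.Prime) (hp2 : MOne p K) (hζ : IsPrimitiveRoot ζ p) (S0 : Finset (Pl K))
    (hS : ∀ v, Above p v → v ∈ S0) :
    ∃ R : Finset Kˣ, R.card ≤ p ^ (2 * S0.card + Module.finrank ℚ K) ∧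
      ∀ x : Kˣ, ∃ y ∈ R, ∀ v ∈ S0, Lv p ζ Ω v (x * y⁻¹) := by
  have hpK : ((p : K) ^ 2) ≠ 0 := by
    have : (p : K) ≠ 0 := by exact_mod_cast hp.ne_zero
    exact pow_ne_zero _ this
  choose e he1 he2 using fun v : Pl K => vcn_e hp v
  choose R hR1 hR2 using fun v : Pl K => vcn_loc v hp hζ (e v) (he2 v)
  have hX := fun f : (∀ v ∈ S0, Kˣ) => weak_approx S0 (fun v => if h : v ∈ S0 then f v h else 1)
    (fun v => v.valuation K ((p : K) ^ 2)) (fun v _ => (Valuation.ne_zero_iff _).2 hpK)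
  choose X hX using hX
  refine ⟨(S0.pi R).image X, ?_, ?_⟩
  · refine Finset.card_image_le.trans ?_
    rw [Finset.card_pi]
    calc ∏ v ∈ S0, (R v).card ≤ ∏ v ∈ S0, (p ^ 2 * Ideal.absNorm v.asIdeal ^ e v) :=
          Finset.prod_le_prod' fun v _ => hR1 v
      _ = p ^ (2 * S0.card) * ∏ v ∈ S0, Ideal.absNorm v.asIdeal ^ e v := by
          rw [Finset.prod_mul_distrib, Finset.prod_const, ← pow_mul]
      _ ≤ p ^ (2 * S0.card) * p ^ Module.finrank ℚ K :=
          Nat.mul_le_mul_left _ (vcp hp S0 e fun v _ => he1 v)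
      _ = _ := by rw [← pow_add]
  · intro x
    choose y hy z hz using fun v : Pl K => hR2 v x
    refine ⟨X fun v _ => y v, Finset.mem_image.2 ⟨_, Finset.mem_pi.2 fun v _ => hy v, rfl⟩, ?_⟩
    intro v hv
    have h1 := hX (fun v _ => y v) v hv
    rw [dif_pos hv] at h1
    have h2 : Lv p ζ Ω v (x * (y v)⁻¹) := vcn_lv hp hζ v ⟨z v, hz v⟩
    have h3 : Lv p ζ Ω v (X (fun v _ => y v) * (y v)⁻¹) := by
      apply vcn_lv hp hζ v
      refine ⟨1, ?_⟩
      rw [one_pow, inv_one, mul_one]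
      exact h1
    have h4 := lv_mul hp hζ h2 (lv_inv hp hζ h3)
    have h5 : x * (y v)⁻¹ * (X (fun v _ => y v) * (y v)⁻¹)⁻¹ = x * (X fun v _ => y v)⁻¹ := by
      rw [mul_inv_rev, inv_inv, mul_assoc, inv_mul_cancel_left]
    rwa [h5] at h4

end H24.S3
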