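import Pool.Agent.H24.S3.Syc
import Pool.Agent.H24.S3.Vcn

/-!
# [H24 S3 GLX] symplectic coordinates at all `v ∈ S0`

`glx`: existence of `Glc`. Proof. For `v ∈ S0` `syc` gives `n v` and coordinates with index `Fin (n v)`. `g = ∑_{v ∈ S0} n v`, `Fin g ≃ Σ v : S0, Fin (n v)` (any bijection), `pl i` = the place, and `{i // pl i = v} ≃ Fin (n v)`: `sco_map`. `sur`: for every `v ∈ S0` `x_v` with the given values at
`v` (`Sco.sur`), `at_exS`: `x'_v` with `Lv v (x'_v x_v⁻¹)`, `Lv v' x'_v` for the other `v' ∈ S0`; `x = ∏ x'_v`; the coordinates at `v` do not change on `Lv v`-classes (`sco_lv`). `cnt`: the map `Kˣ → (ZMod p)^(2 g)` is surjective and constant on the classes of `vcn`, so `p^(2 g) ≤ #R ≤ p^(2 #S0 + [K:ℚ])`.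
-/

set_option autoImplicit false
set_option linter.dupNamespace false

open scoped NumberField commutatorElement
open IsDedekindDomain
open scoped Classical

noncomputable section

namespace H24.S3

open H63.MA H38.BB H38.BG H57.PC H57.BRA H89.BRG H57.RQ H24.RK Pool.Agent.H19.NF
  Pool.Agent.H19.AB Pool.Agent.H19.A2 Pool.Agent.H19 H77.WD H77.WE H77.GL H77.S3 H82.SF

variable {K : Type} [Field K] [NumberField K] {Ω : Type} [Field Ω] [Algebra K Ω]
  [IsAlgClosure K Ω] {p m : ℕ} {ζ : K}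

/-- the coordinates do not change on the classes of `Lv` -/
private theorem glx_cong (hp : p.Prime) (hp2 : MOne p K) (hζ : IsPrimitiveRoot ζ p) {v : Pl K}
    {ι : Type} [Fintype ι] (S : Sco p ζ Ω v ι) {x y : Kˣ} (h : Lv p ζ Ω v (x * y⁻¹)) (i : ι) :
    S.A i x = S.A i y ∧ S.B i x = S.B i y := by
  have h1 := (sco_lv hp hp2 hζ S _).1 h i
  have e : x = x * y⁻¹ * y := by rw [inv_mul_cancel_right]
  constructor
  · rw [e, S.mulA, h1.1, zero_add]
  · rw [e, S.mulB, h1.2, zero_add]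

private theorem glx_prodA {v : Pl K} {ι κ : Type} [Fintype ι] (S : Sco p ζ Ω v ι) (i : ι)
    (s : Finset κ) (f : κ → Kˣ) : S.A i (∏ k ∈ s, f k) = ∑ k ∈ s, S.A i (f k) := by
  induction s using Finset.induction_on with
  | empty =>
    have h := S.mulA i 1 1
    rw [one_mul] at h
    rw [Finset.prod_empty, Finset.sum_empty]
    exact left_eq_add.1 h
  | insert a s ha ih => rw [Finset.prod_insert ha, Finset.sum_insert ha, S.mulA, ih]

private theorem glx_prodB {v : Pl K} {ι κ : Type} [Fintype ι] (S : Sco p ζ Ω v ι) (i : ι)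
    (s : Finset κ) (f : κ → Kˣ) : S.B i (∏ k ∈ s, f k) = ∑ k ∈ s, S.B i (f k) := by
  induction s using Finset.induction_on with
  | empty =>
    have h := S.mulB i 1 1
    rw [one_mul] at h
    rw [Finset.prod_empty, Finset.sum_empty]
    exact left_eq_add.1 h
  | insert a s ha ih => rw [Finset.prod_insert ha, Finset.sum_insert ha, S.mulB, ih]

theorem glx (hp : p.Prime) (hp2 : MOne p K) (hζ : IsPrimitiveRoot ζ p) (D : RD0 K p ζ) :
    Nonempty (Glc D Ω) := by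
  have : Fact p.Prime := ⟨hp⟩
  choose n hn using fun v : Pl K => syc (Ω := Ω) hp hp2 hζ v
  have hcard : Fintype.card (Σ v : {v // v ∈ D.S0}, Fin (n v.1)) = ∑ v ∈ D.S0, n v := by
    rw [Fintype.card_sigma]
    simp only [Fintype.card_fin]
    exact Finset.sum_coe_sort D.S0 n
  obtain ⟨g, hg⟩ : ∃ g, g = ∑ v ∈ D.S0, n v := ⟨_, rfl⟩
  obtain ⟨e⟩ : Nonempty (Fin g ≃ Σ v : {v // v ∈ D.S0}, Fin (n v.1)) :=
    ⟨(Fintype.equivFinOfCardEq (hcard.trans hg.symm)).symm⟩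
  obtain ⟨pl, hpl⟩ : ∃ pl : Fin g → Pl K, ∀ i, pl i = (e i).1.1 := ⟨fun i => (e i).1.1, fun _ => rfl⟩
  have hmem : ∀ i, pl i ∈ D.S0 := fun i => by rw [hpl]; exact (e i).1.2
  have hS : ∀ v ∈ D.S0, Nonempty (Sco p ζ Ω v {i : Fin g // pl i = v}) := by
    intro v hv
    obtain ⟨T⟩ := hn v
    have e1 : {i : Fin g // pl i = v} ≃
        {s : Σ v : {v // v ∈ D.S0}, Fin (n v.1) // s.1 = ⟨v, hv⟩} := by
      refine e.subtypeEquiv fun i => ?_
      rw [hpl, Subtype.ext_iff]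
    have e2 : {s : Σ v : {v // v ∈ D.S0}, Fin (n v.1) // s.1 = ⟨v, hv⟩} ≃ Fin (n v) :=
      Equiv.sigmaSubtype (β := fun v : {v // v ∈ D.S0} => Fin (n v.1)) ⟨v, hv⟩
    obtain ⟨S', -⟩ := sco_map T (e1.trans e2)
    exact ⟨S'⟩
  obtain ⟨S⟩ : Nonempty (∀ v ∈ D.S0, Sco p ζ Ω v {i : Fin g // pl i = v}) :=
    ⟨fun v hv => Classical.choice (hS v hv)⟩
  have hsur : ∀ s t : Fin g → ZMod p, ∃ x : Kˣ, ∀ i,
      (S (pl i) (hmem i)).A ⟨i, rfl⟩ x = s i ∧ (S (pl i) (hmem i)).B ⟨i, rfl⟩ x = t i := by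
    intro s t
    choose x hx using fun v : {v // v ∈ D.S0} =>
      (S v.1 v.2).sur (fun i => s i.1) (fun i => t i.1)
    choose x' h1 h2 using fun v : {v // v ∈ D.S0} => at_exS (Ω := Ω) hp hζ D.S0 v.1 (x v)
    refine ⟨∏ v : {v // v ∈ D.S0}, x' v, fun i => ?_⟩
    obtain ⟨v, hv⟩ : ∃ v : {v // v ∈ D.S0}, v = ⟨pl i, hmem i⟩ := ⟨_, rfl⟩
    have hne : ∀ w : {v // v ∈ D.S0}, w ≠ v → Lv p ζ Ω (pl i) (x' w) := by
      intro w hw
      refine h2 w (pl i) (hmem i) fun h => hw ?_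
      rw [hv]
      exact Subtype.ext h.symm
    have hc : Lv p ζ Ω (pl i) (x' v * (x v)⁻¹) := by
      have h3 := h1 v
      rw [hv] at h3 ⊢
      exact h3
    have h4 := glx_cong hp hp2 hζ (S (pl i) (hmem i)) hc ⟨i, rfl⟩
    have h5 : (S (pl i) (hmem i)).A ⟨i, rfl⟩ (x v) = s i ∧
        (S (pl i) (hmem i)).B ⟨i, rfl⟩ (x v) = t i := by
      subst hv
      exact hx ⟨pl i, hmem i⟩ ⟨i, rfl⟩
    constructor
    · rw [glx_prodA, Finset.sum_eq_single v (fun w _ hw =>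
        ((sco_lv hp hp2 hζ (S (pl i) (hmem i)) _).1 (hne w hw) ⟨i, rfl⟩).1)
        (fun h => absurd (Finset.mem_univ _) h), h4.1, h5.1]
    · rw [glx_prodB, Finset.sum_eq_single v (fun w _ hw =>
        ((sco_lv hp hp2 hζ (S (pl i) (hmem i)) _).1 (hne w hw) ⟨i, rfl⟩).2)
        (fun h => absurd (Finset.mem_univ _) h), h4.2, h5.2]
  refine ⟨⟨g, pl, hmem, S, hsur, ?_⟩⟩
  obtain ⟨R, hR, hRc⟩ := vcn (Ω := Ω) hp hp2 hζ D.S0 D.above
  have h6 : Function.Surjective fun (y : R) =>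
      ((fun i => (S (pl i) (hmem i)).A ⟨i, rfl⟩ y.1, fun i => (S (pl i) (hmem i)).B ⟨i, rfl⟩ y.1) :
        (Fin g → ZMod p) × (Fin g → ZMod p)) := by
    rintro ⟨s, t⟩
    obtain ⟨x, hx⟩ := hsur s t
    obtain ⟨y, hy, hxy⟩ := hRc x
    refine ⟨⟨y, hy⟩, ?_⟩
    have h7 := fun i => glx_cong hp hp2 hζ (S (pl i) (hmem i)) (hxy (pl i) (hmem i)) ⟨i, rfl⟩
    refine Prod.ext (funext fun i => ?_) (funext fun i => ?_)
    · exact (h7 i).1.symm.trans (hx i).1
    · exact (h7 i).2.symm.trans (hx i).2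
  have h7 := Fintype.card_le_of_surjective _ h6
  rw [Fintype.card_prod, Fintype.card_fun, ZMod.card, Fintype.card_fin, Fintype.card_coe,
    ← pow_add] at h7
  have h8 := (Nat.pow_le_pow_iff_right hp.one_lt).1 (h7.trans hR)
  omega

end H24.S3
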