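import Pool.Agent.H24.S3.Df

/-!
# [H24 S3 IVB] the local invariant: basic facts

`Iv D Q I v X = I (0, rs D Q (X at v))`; `rs` (H19/A2/Df2.lean) is the restriction to `dec v' × dec v'`, `v' ∈ S0`.
* `iv_congr`: it depends only on `X` on `dec v × dec v`. `iv_add`, `iv_zero`.
* `iv_cob`: `X = η σ + η τ - η (σ τ)` on `dec v × dec v`, `η` of finite level: `Iv = 0`. Proof: `rs D Q (X at v) = rs D Q (fun v' σ τ => 0 - d1 (η' v') σ τ)`, `η' v = - η`, `η' v' = 0` for `v' ≠ v` (`d1 l x y = l y - l (x y) + l x`), and `FnC` with `Ψ = 0`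
  (`LfK k L 0`: `R = PUnit`), `TS1 0 = 0`.
* `iv_glob`: `Ψ` closed with `LfK k L Ψ`, zero on `dec v' × dec v'` for the `v' ∈ S0`, `v' ≠ v`: `Iv D Q I v Ψ = toAddCircle (TS1 L Fr Ψ)` (`FnC` with `η = 0`).
-/

set_option autoImplicit false
set_option linter.dupNamespace false

open scoped NumberField commutatorElement
open IsDedekindDomain
open scoped Classical

noncomputable section

namespace H24.S3

open H63.MA H38.BB H38.BG H57.PC H57.BRA H89.BRG H57.RQ H24.RK Pool.Agent.H19.NF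
  Pool.Agent.H19.AB Pool.Agent.H19.A2 Pool.Agent.H19 H77.WD H77.WE H77.GL H77.S3 H82.SF

variable {K : Type} [Field K] [NumberField K] {Ω : Type} [Field Ω] [Algebra K Ω] {p m : ℕ} {ζ : K}
  {D : RD0 K p ζ} {Q : DP K Ω} {I : Fnl K Ω p m} {v : Pl K}

theorem iv_congr {X Y : Gal(Ω/K) → Gal(Ω/K) → ZMod (p ^ m)}
    (h : ∀ σ ∈ dec (K := K) (Q.P v), ∀ τ ∈ dec (K := K) (Q.P v), X σ τ = Y σ τ) :
    Iv D Q I v X = Iv D Q I v Y := by
  have h1 : (rs D Q fun v' σ τ => if v' = v then X σ τ else 0) =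
      rs D Q fun v' σ τ => if v' = v then Y σ τ else 0 := by
    funext v' σ τ
    unfold rs
    beta_reduce
    by_cases hc : v' ∈ D.S0 ∧ σ ∈ dec (K := K) (Q.P v') ∧ τ ∈ dec (K := K) (Q.P v')
    · rw [if_pos hc, if_pos hc]
      by_cases hv : v' = v
      · subst hv
        rw [if_pos rfl, if_pos rfl, h σ hc.2.1 τ hc.2.2]
      · rw [if_neg hv, if_neg hv]
    · rw [if_neg hc, if_neg hc]
  unfold Iv
  rw [h1]

theorem iv_add (X Y : Gal(Ω/K) → Gal(Ω/K) → ZMod (p ^ m)) :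
    Iv D Q I v (fun σ τ => X σ τ + Y σ τ) = Iv D Q I v X + Iv D Q I v Y := by
  unfold Iv
  rw [← map_add]
  congr 1
  refine Prod.ext (add_zero _).symm ?_
  funext v' σ τ
  show rs D Q (fun v' σ τ => if v' = v then X σ τ + Y σ τ else 0) v' σ τ =
    rs D Q (fun v' σ τ => if v' = v then X σ τ else 0) v' σ τ +
      rs D Q (fun v' σ τ => if v' = v then Y σ τ else 0) v' σ τ
  unfold rs
  beta_reduce
  split_ifs
  · rfl
  · rw [add_zero]
  · rw [add_zero]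

theorem iv_zero : Iv D Q I v (fun _ _ => 0) = 0 := by
  unfold Iv
  have h1 : (rs D Q fun v' (_ _ : Gal(Ω/K)) => if v' = v then (0 : ZMod (p ^ m)) else 0) = 0 := by
    funext v' σ τ
    unfold rs
    beta_reduce
    rw [ite_self, ite_self]
    rfl
  rw [h1]
  exact map_zero I

theorem iv_cob {k : ℕ} [NeZero (p ^ m)] {L : LDs D Ω} {Fr : FR L} (hI : FnC p k m D L Q Fr I)
    {X : Gal(Ω/K) → Gal(Ω/K) → ZMod (p ^ m)} {η : Gal(Ω/K) → ZMod (p ^ m)} (hη : Lev η)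
    (h : ∀ σ ∈ dec (K := K) (Q.P v), ∀ τ ∈ dec (K := K) (Q.P v),
      X σ τ = η σ + η τ - η (σ * τ)) : Iv D Q I v X = 0 := by
  obtain ⟨E, hE, h1⟩ := hη
  have h2 := hI (fun _ _ => 0) (fun v' σ => if v' = v then -η σ else 0) lfk_zero
    (fun σ τ υ => by
      unfold d2
      simp only [sub_self, add_zero]) fun v' => ⟨E, hE, fun σ u hu => by
      beta_reduce
      rw [h1 σ u hu]⟩
  have h3 : TS1 L Fr (fun _ _ : Gal(Ω/K) => (0 : ZMod (p ^ m))) = 0 := by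
    unfold TS1 br
    simp only [sub_self, finsum_zero]
  rw [h3, map_zero] at h2
  rw [← h2]
  unfold Iv
  congr 2
  funext v' σ τ
  unfold rs
  by_cases hc : v' ∈ D.S0 ∧ σ ∈ dec (K := K) (Q.P v') ∧ τ ∈ dec (K := K) (Q.P v')
  · rw [if_pos hc, if_pos hc]
    unfold d1
    by_cases hv : v' = v
    · subst hv
      simp only [if_true]
      rw [h σ hc.2.1 τ hc.2.2]
      ring
    · simp only [if_neg hv, sub_self, add_zero]
  · rw [if_neg hc, if_neg hc]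

theorem iv_glob {k : ℕ} [NeZero (p ^ m)] {L : LDs D Ω} {Fr : FR L} (hI : FnC p k m D L Q Fr I)
    {Ψ : Gal(Ω/K) → Gal(Ω/K) → ZMod (p ^ m)} (h1 : LfK k L Ψ) (h2 : ∀ σ τ υ, d2 Ψ σ τ υ = 0)
    (h3 : ∀ v' ∈ D.S0, v' ≠ v → ∀ σ ∈ dec (K := K) (Q.P v'), ∀ τ ∈ dec (K := K) (Q.P v'),
      Ψ σ τ = 0) : Iv D Q I v Ψ = ZMod.toAddCircle (TS1 L Fr Ψ) := by
  rw [← hI Ψ (fun _ _ => 0) h1 h2 fun _ => ⟨⊥, inferInstance, fun _ _ _ => rfl⟩]
  unfold Iv
  congr 2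
  funext v' σ τ
  unfold rs
  by_cases hc : v' ∈ D.S0 ∧ σ ∈ dec (K := K) (Q.P v') ∧ τ ∈ dec (K := K) (Q.P v')
  · rw [if_pos hc, if_pos hc]
    unfold d1
    beta_reduce
    by_cases hv : v' = v
    · rw [if_pos hv]
      ring
    · rw [if_neg hv, h3 v' hc.1 hv σ hc.2.1 τ hc.2.2]
      ring
  · rw [if_neg hc, if_neg hc]

end H24.S3
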