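import Mathlib

/-!
# [H24 S3 LA1] symplectic coordinates for an alternating form

`la1`: `C` a commutative group, `h : C × C → ZMod p` bimultiplicative, alternating, with finitely many classes modulo the radical: there are homomorphisms `A i, B i : C → ZMod p` (`i < n`) with
`h x y = ∑ (A i x B i y - B i x A i y)`, jointly surjective.
Proof. Induction over the number of classes modulo the radical (the minimal cardinality of `R`, or `Nat.card (C / radical)`; `radical = {x | ∀ a, h x a = 0}` is a subgroup). If `h = 0` take `n = 0`. Otherwise `h x y ≠ 0`, replace `x` by a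
power: `h x y = 1`. `A₀ c := h c y`, `B₀ c := h x c`, `h' c c' := h c c' - (A₀ c B₀ c' - B₀ c A₀ c')`: bimultiplicative, alternating, its radical contains the radical of `h` and `x`, `y` (`h' x c' = h x c' - (1 * h x c' - 0) = 0`), `x` is not
in the radical of `h`, so the number of classes is smaller. Induction gives `A i`, `B i` for `h'`. As `h' x c' = 0` for all `c'` and the `(A i, B i)` are jointly surjective, `A i x = B i x = 0`, the same for `y`. Joint surjectivity of the
family with `A₀, B₀`: take `c'` with the prescribed values of `A i`, `B i`, `i ≥ 1`, and `c = c' x^α y^β`, `A₀ x = 1`, `B₀ x = 0`, `A₀ y = 0`, `B₀ y = 1`.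
-/

set_option autoImplicit false
set_option linter.dupNamespace false

open scoped Classical

noncomputable section

namespace H24.S3

private theorem la_one {p : ℕ} {C : Type} [CommGroup C] (f : C → ZMod p)
    (hf : ∀ x y, f (x * y) = f x + f y) : f 1 = 0 := by
  have h := hf 1 1
  rw [mul_one] at h
  have h2 : f 1 + f 1 - f 1 = f 1 - f 1 := by rw [← h]
  simpa using h2

private theorem la_pow {p : ℕ} {C : Type} [CommGroup C] (f : C → ZMod p)
    (hf : ∀ x y, f (x * y) = f x + f y) (x : C) (k : ℕ) : f (x ^ k) = k * f x := by
  induction k with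
  | zero => rw [pow_zero, la_one f hf]; simp
  | succ k ih => rw [pow_succ, hf, ih]; push_cast; ring

private theorem la_inv {p : ℕ} {C : Type} [CommGroup C] (f : C → ZMod p)
    (hf : ∀ x y, f (x * y) = f x + f y) (x : C) : f x⁻¹ = -f x := by
  have h := hf x x⁻¹
  rw [mul_inv_cancel, la_one f hf] at h
  linear_combination -h

private theorem la_aux {p : ℕ} (hp : p.Prime) {C : Type} [CommGroup C] (N : ℕ) :
    ∀ h : C → C → ZMod p, (∀ x y a, h (x * y) a = h x a + h y a) →
    (∀ x a b, h x (a * b) = h x a + h x b) → (∀ x, h x x = 0) →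
    (∃ R : Finset C, R.card ≤ N ∧ ∀ x, ∃ y ∈ R, ∀ a, h (x * y⁻¹) a = 0) →
    ∃ (n : ℕ) (A B : Fin n → C → ZMod p), (∀ i x y, A i (x * y) = A i x + A i y) ∧
      (∀ i x y, B i (x * y) = B i x + B i y) ∧
      (∀ x y, h x y = ∑ i, (A i x * B i y - B i x * A i y)) ∧
      ∀ s t : Fin n → ZMod p, ∃ x, ∀ i, A i x = s i ∧ B i x = t i := by
  haveI : Fact p.Prime := ⟨hp⟩
  induction N with
  | zero =>
    intro h _ _ _ h4
    obtain ⟨R, hR, h5⟩ := h4
    obtain ⟨y, hy, -⟩ := h5 1
    have : R = ∅ := Finset.card_eq_zero.1 (Nat.le_zero.1 hR)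
    rw [this] at hy
    exact absurd hy (Finset.notMem_empty y)
  | succ N ih =>
    intro h h1 h2 h3 h4
    by_cases h0 : ∀ x y, h x y = 0
    · refine ⟨0, fun i => i.elim0, fun i => i.elim0, fun i => i.elim0, fun i => i.elim0, ?_, ?_⟩
      · intro x y
        rw [h0 x y]
        simp
      · intro s t
        exact ⟨1, fun i => i.elim0⟩
    · push Not at h0
      obtain ⟨x₀, y, hxy⟩ := h0
      have hanti : ∀ a b, h a b = -h b a := by
        intro a b
        have e := h3 (a * b)
        rw [h1, h2, h2, h3, h3] at e
        linear_combination e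
      have hl1 : ∀ a, h 1 a = 0 := fun a => la_one (fun x => h x a) fun x y => h1 x y a
      have hr1 : ∀ a, h a 1 = 0 := fun a => la_one (fun x => h a x) fun x y => h2 a x y
      have hlp : ∀ x (k : ℕ) a, h (x ^ k) a = k * h x a := fun x k a =>
        la_pow (fun x => h x a) (fun x y => h1 x y a) x k
      have hli : ∀ x a, h x⁻¹ a = -h x a := fun x a =>
        la_inv (fun x => h x a) (fun x y => h1 x y a) x
      obtain ⟨x, hx⟩ : ∃ x, h x y = 1 := by
        refine ⟨x₀ ^ ((h x₀ y)⁻¹).val, ?_⟩
        rw [hlp, ZMod.natCast_zmod_val, inv_mul_cancel₀ hxy]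
      obtain ⟨h', hh'⟩ : ∃ h' : C → C → ZMod p, ∀ c d, h' c d = h c d - (h c y * h x d - h x c * h d y) :=
        ⟨_, fun _ _ => rfl⟩
      have g1 : ∀ a b c, h' (a * b) c = h' a c + h' b c := by
        intro a b c
        rw [hh', hh', hh', h1, h1, h2]
        ring
      have g2 : ∀ a b c, h' a (b * c) = h' a b + h' a c := by
        intro a b c
        rw [hh', hh', hh', h2, h2, h1]
        ring
      have g3 : ∀ a, h' a a = 0 := by
        intro a
        rw [hh', h3]
        ring
      have gx : ∀ c, h' x c = 0 := by
        intro c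
        rw [hh', h3, hx]
        ring
      have gy : ∀ c, h' y c = 0 := by
        intro c
        rw [hh', h3, hx, hanti y c]
        ring
      have grad : ∀ z, (∀ a, h z a = 0) → ∀ a, h' z a = 0 := by
        intro z hz a
        rw [hh', hz, hz, hanti x z, hz]
        ring
      have gli : ∀ x a, h' x⁻¹ a = -h' x a := fun x a =>
        la_inv (fun x => h' x a) (fun x y => g1 x y a) x
      obtain ⟨R, hRc, hR⟩ := h4
      obtain ⟨r, hr, hrx⟩ := hR x
      obtain ⟨r', hr', hr'1⟩ := hR 1
      have hr'2 : ∀ a, h r' a = 0 := by
        intro a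
        have e := hr'1 a
        rw [one_mul, hli] at e
        linear_combination -e
      have hra : ∀ a, h' r a = 0 := by
        intro a
        have e := grad _ hrx a
        rw [g1, gx, gli] at e
        linear_combination -e
      have hne : r ≠ r' := by
        rintro rfl
        have e := hrx y
        rw [h1, hx, hli, hr'2] at e
        simp at e
      have hcard : (R.erase r').card ≤ N := by
        rw [Finset.card_erase_of_mem hr']
        omega
      obtain ⟨n, A, B, hA, hB, hAB, hs⟩ := ih h' g1 g2 g3 ⟨R.erase r', hcard, by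
        intro z
        obtain ⟨w, hw, hwz⟩ := hR z
        by_cases hww : w = r'
        · refine ⟨r, Finset.mem_erase.2 ⟨hne, hr⟩, fun a => ?_⟩
          rw [hww] at hwz
          have e := grad _ hwz a
          rw [g1, gli, grad r' hr'2] at e
          rw [g1, gli, hra]
          linear_combination e
        · exact ⟨w, Finset.mem_erase.2 ⟨hww, hw⟩, grad _ hwz⟩⟩
      -- the coordinates vanish on the radical of `h'`
      have hzero : ∀ z, (∀ c, h' z c = 0) → ∀ i, A i z = 0 ∧ B i z = 0 := by
        intro z hz i
        constructor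
        · obtain ⟨c, hc⟩ := hs 0 (Pi.single i 1)
          have e := hz c
          rw [hAB] at e
          have e2 : ∑ j, (A j z * B j c - B j z * A j c) = A i z := by
            rw [Finset.sum_eq_single i]
            · rw [(hc i).1, (hc i).2]
              simp
            · intro j _ hj
              rw [(hc j).1, (hc j).2, Pi.single_eq_of_ne hj]
              simp
            · intro hi
              exact absurd (Finset.mem_univ i) hi
          rw [← e2]
          exact e
        · obtain ⟨c, hc⟩ := hs (Pi.single i 1) 0
          have e := hz c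
          rw [hAB] at e
          have e2 : ∑ j, (A j z * B j c - B j z * A j c) = -B i z := by
            rw [Finset.sum_eq_single i]
            · rw [(hc i).1, (hc i).2]
              simp
            · intro j _ hj
              rw [(hc j).1, (hc j).2, Pi.single_eq_of_ne hj]
              simp
            · intro hi
              exact absurd (Finset.mem_univ i) hi
          rw [e2] at e
          linear_combination -e
      have hzx := hzero x gx
      have hzy := hzero y gy
      refine ⟨n + 1, Fin.cons (fun c => h c y) A, Fin.cons (fun c => h x c) B, ?_, ?_, ?_, ?_⟩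
      · intro i
        refine Fin.cases ?_ (fun j => ?_) i
        · intro a b
          simp only [Fin.cons_zero]
          exact h1 a b y
        · intro a b
          simp only [Fin.cons_succ]
          exact hA j a b
      · intro i
        refine Fin.cases ?_ (fun j => ?_) i
        · intro a b
          simp only [Fin.cons_zero]
          exact h2 x a b
        · intro a b
          simp only [Fin.cons_succ]
          exact hB j a b
      · intro c d
        rw [Fin.sum_univ_succ]
        simp only [Fin.cons_zero, Fin.cons_succ]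
        rw [← hAB, hh']
        ring
      · intro s t
        obtain ⟨c, hc⟩ := hs (fun i => s i.succ) (fun i => t i.succ)
        obtain ⟨u, hu⟩ : ∃ u : ℕ, (u : ZMod p) = s 0 - h c y := ⟨(s 0 - h c y).val, ZMod.natCast_zmod_val _⟩
        obtain ⟨v, hv⟩ : ∃ v : ℕ, (v : ZMod p) = t 0 - h x c := ⟨(t 0 - h x c).val, ZMod.natCast_zmod_val _⟩
        refine ⟨c * (x ^ u * y ^ v), fun i => ?_⟩
        refine Fin.cases ?_ (fun j => ?_) i
        · simp only [Fin.cons_zero]
          constructor
          · rw [h1, h1, hlp, hlp, hx, h3, hu]
            ring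
          · have e1 := la_pow (fun z => h x z) (fun z w => h2 x z w) x u
            have e2 := la_pow (fun z => h x z) (fun z w => h2 x z w) y v
            rw [h2, h2, e1, e2, h3, hx, hv]
            ring
        · simp only [Fin.cons_succ]
          constructor
          · rw [hA, hA, la_pow (A j) (hA j), la_pow (A j) (hA j), (hzx j).1, (hzy j).1, (hc j).1]
            ring
          · rw [hB, hB, la_pow (B j) (hB j), la_pow (B j) (hB j), (hzx j).2, (hzy j).2, (hc j).2]
            ring

theorem la1 {p : ℕ} (hp : p.Prime) {C : Type} [CommGroup C] (h : C → C → ZMod p)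
    (h1 : ∀ x y a, h (x * y) a = h x a + h y a) (h2 : ∀ x a b, h x (a * b) = h x a + h x b)
    (h3 : ∀ x, h x x = 0) (h4 : ∃ R : Finset C, ∀ x, ∃ y ∈ R, ∀ a, h (x * y⁻¹) a = 0) :
    ∃ (n : ℕ) (A B : Fin n → C → ZMod p), (∀ i x y, A i (x * y) = A i x + A i y) ∧
      (∀ i x y, B i (x * y) = B i x + B i y) ∧
      (∀ x y, h x y = ∑ i, (A i x * B i y - B i x * A i y)) ∧
      ∀ s t : Fin n → ZMod p, ∃ x, ∀ i, A i x = s i ∧ B i x = t i := by
  obtain ⟨R, hR⟩ := h4
  exact la_aux hp R.card h h1 h2 h3 ⟨R, le_rfl, hR⟩

end H24.S3
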