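import Mathlib

/-!
# [H24 S3 LA2] transversality

`la2`: `U` an isotropic subspace of `k^ι × k^ι` (form `∑ (x_i y'_i - y_i x'_i)`) of dimension at least `#ι`: there is `J ⊆ ι` such that `u ↦ (u.1 i (i ∈ J), u.2 i (i ∉ J))` is bijective `U → k^ι`.
Proof. Choose `J` of MAXIMAL cardinality such that `u ↦ (u.1 i)_{i ∈ J}` is SURJECTIVE `U → k^J` (row rank). Then for `i ∉ J` the functional `u ↦ u.1 i` is on `U` a linear combination of the `u ↦ u.1 j`, `j ∈ J` (maximality:
functionals on `U` are linearly independent iff jointly surjective). So `U_0 := {u ∈ U | u.1 j = 0, j ∈ J} = {u ∈ U | u.1 = 0}`. INJECTIVE: let `u ∈ U` with `u.1 j = 0` (`j ∈ J`) and `u.2 i = 0` (`i ∉ J`); then `u.1 = 0`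
and for all `w ∈ U` isotropy gives `∑_{j ∈ J} w.1 j u.2 j = 0`; as the `w.1 j`, `j ∈ J`, take all values, `u.2 j = 0` for `j ∈ J`, `u = 0`. An injective linear map from a space of dimension at least `#ι` to `k^ι` is
bijective.
-/

set_option autoImplicit false
set_option linter.dupNamespace false

open scoped Classical

noncomputable section

namespace H24.S3

theorem la2 {k : Type} [Field k] {ι : Type} [Fintype ι] (U : Submodule k ((ι → k) × (ι → k)))
    (h1 : ∀ u ∈ U, ∀ w ∈ U, ∑ i, (u.1 i * w.2 i - u.2 i * w.1 i) = 0)
    (h2 : Fintype.card ι ≤ Module.finrank k U) :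
    ∃ J : Finset ι, Function.Bijective fun (u : U) (i : ι) => if i ∈ J then u.1.1 i else u.1.2 i := by
  obtain ⟨J, hJ, hmax⟩ := Finset.exists_max_image
    (Finset.univ.filter fun J : Finset ι => ∀ t : ι → k, ∃ u ∈ U, ∀ j ∈ J, u.1 j = t j)
    Finset.card ⟨∅, by
      simp only [Finset.mem_filter, Finset.mem_univ, true_and]
      intro t
      exact ⟨0, U.zero_mem, by simp⟩⟩
  simp only [Finset.mem_filter, Finset.mem_univ, true_and] at hJ hmax
  have key : ∀ u ∈ U, (∀ j ∈ J, u.1 j = 0) → ∀ i, u.1 i = 0 := by
    intro u hu huJ i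
    by_contra hi
    have hiJ : i ∉ J := fun h => hi (huJ i h)
    have := hmax (insert i J) (by
      intro t
      obtain ⟨v, hv, hvJ⟩ := hJ t
      refine ⟨v + ((t i - v.1 i) / u.1 i) • u, U.add_mem hv (U.smul_mem _ hu), ?_⟩
      intro j hj
      rcases Finset.mem_insert.1 hj with rfl | hj
      · simp only [Prod.fst_add, Prod.smul_fst, Pi.add_apply, Pi.smul_apply, smul_eq_mul]
        field_simp
        ring
      · simp only [Prod.fst_add, Prod.smul_fst, Pi.add_apply, Pi.smul_apply, smul_eq_mul]
        rw [hvJ j hj, huJ j hj]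
        ring)
    rw [Finset.card_insert_of_notMem hiJ] at this
    omega
  let f : U →ₗ[k] (ι → k) :=
    { toFun := fun u i => if i ∈ J then u.1.1 i else u.1.2 i
      map_add' := by
        intro x y
        funext i
        by_cases hi : i ∈ J <;> simp [hi]
      map_smul' := by
        intro c x
        funext i
        by_cases hi : i ∈ J <;> simp [hi] }
  have hinj : Function.Injective f := by
    rw [← LinearMap.ker_eq_bot, LinearMap.ker_eq_bot']
    intro u hu
    have hu1 : ∀ j ∈ J, u.1.1 j = 0 := by
      intro j hj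
      have := congrFun hu j
      simpa [f, hj] using this
    have hu2 : ∀ j, j ∉ J → u.1.2 j = 0 := by
      intro j hj
      have := congrFun hu j
      simpa [f, hj] using this
    have h0 := key u.1 u.2 hu1
    have hu3 : ∀ j, u.1.2 j = 0 := by
      intro j
      by_cases hj : j ∈ J
      · obtain ⟨w, hw, hwJ⟩ := hJ (fun i => if i = j then 1 else 0)
        have := h1 u.1 u.2 w hw
        rw [Finset.sum_eq_single j] at this
        · rw [h0 j, hwJ j hj] at this
          simpa using this
        · intro i _ hij
          by_cases hiJ : i ∈ J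
          · rw [h0 i, hwJ i hiJ]
            simp [hij]
          · rw [h0 i, hu2 i hiJ]
            simp
        · intro h
          exact absurd (Finset.mem_univ j) h
      · exact hu2 j hj
    apply Subtype.ext
    apply Prod.ext
    · funext i
      exact h0 i
    · funext i
      exact hu3 i
  have hle := LinearMap.finrank_le_finrank_of_injective hinj
  rw [Module.finrank_fintype_fun_eq_card] at hle
  have heq : Module.finrank k U = Module.finrank k (ι → k) := by
    rw [Module.finrank_fintype_fun_eq_card]
    omega
  refine ⟨J, hinj, ?_⟩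
  exact (LinearMap.injective_iff_surjective_of_finrank_eq_finrank heq).1 hinj

end H24.S3
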