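import Pool.Agent.H24.S3.Df
import Pool.Agent.H77.S3.Lrm

/-!
# [H24 S3 LRL] the local relator

`lrl`: existence of `ρ` with `Lcr` for the letters of `Lgn`, from `lrr` (H77/S3/Lrm.lean).
-/

set_option autoImplicit false
set_option linter.dupNamespace false

open scoped NumberField commutatorElement
open IsDedekindDomain
open scoped Classical

noncomputable section

namespace H24.S3

open H63.MA H38.BB H38.BG H57.PC H57.BRA H89.BRG H57.RQ H24.RK Pool.Agent.H19.NF
  Pool.Agent.H19.AB Pool.Agent.H19.A2 Pool.Agent.H19 H77.WD H77.WE H77.GL H77.S3 H82.SF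

variable {K : Type} [Field K] [NumberField K] {Ω : Type} [Field Ω] [Algebra K Ω]
  [IsAlgClosure K Ω] {p m : ℕ} {ζ : K}

theorem lrl (hp : p.Prime) (hζ : IsPrimitiveRoot ζ p) {k M : ℕ} (hkm : k ≤ m) [NeZero (p ^ m)]
    {D : RD0 K p ζ} {L : LDs D Ω} {Q : DP K Ω} {Fr : FR L} {I : Fnl K Ω p m}
    (hI : FnC p k m D L Q Fr I) {v : Pl K} (hv : v ∈ D.S0) {r : ℕ} (x : Lgn p ζ Q v r) :
    ∃ ρ : FreeGroup (Fin r), Lcr k M D Q I v x.x ρ := by
  obtain ⟨ρ, h1, h2⟩ := lrr (M := M) hp hζ hkm hI hv x.mem (fun c hc σ hσ => by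
    rw [x.all c σ hσ]
    exact Finset.sum_eq_zero fun i _ => by rw [hc i, zero_mul])
  refine ⟨ρ, ⟨fun R _ _ hR φ hφ => ?_, ?_⟩⟩
  · by_contra hne
    obtain ⟨S, i1, i2, f, hS, hf⟩ := hR _ hne
    apply hf
    have h3 := h2 S hS (f.comp φ) (by
      obtain ⟨E, hE, hE2⟩ := hφ
      exact ⟨E, hE, fun u hu => by
        have h4 := hE2 hu
        rw [MonoidHom.mem_ker] at h4 ⊢
        rw [MonoidHom.comp_apply, h4, map_one]⟩)
    have h4 : FreeGroup.lift (fun j => (f.comp φ) (x.x j)) =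
        (f.comp φ).comp (FreeGroup.lift x.x) := FreeGroup.ext_hom _ _ fun j => by
      simp only [MonoidHom.comp_apply, FreeGroup.lift_apply_of]
    rw [h4] at h3
    exact h3
  · intro H H' _ _ _ _ π e c hπ hc he1 he2 hcm hL hR lam hlam θ hθ
    have h3 := h1 H H' π e c hπ hc he1 he2 hcm hL hR lam hlam (fun j => θ (FreeGroup.of j)) hθ
    have h4 : FreeGroup.lift (fun j => θ (FreeGroup.of j)) = θ :=
      FreeGroup.ext_hom _ _ fun j => by simp only [FreeGroup.lift_apply_of]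
    rw [h4] at h3
    exact h3

end H24.S3
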