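import Pool.Agent.H24.S3.Df
import Pool.Agent.H77.S3.Blk

/-!
# [H24 S3 MKB] the subgroup `Mk`: basic facts

* `mk_normal`, `mk_map`. `mk_lw`: if `H` satisfies the laws of the small groups, homomorphisms of finitely generated free groups to `H` kill `Mk` (transport along `ι ≃ Fin n`). `mk_rsm`: `Mk` of a residually small group is trivial.
* `mk_fin`: `ι` finite: `FreeGroup ι / Mk` is finite. Proof: for small `S` of order `n ≤ M`, `f : F → S`, choose `S ↪ Perm (Fin n)` (Cayley); so `Mk` contains (is) the intersection of the kernels of finitely many homomorphisms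
  `F → Perm (Fin n)`, `n ≤ M` (homomorphisms `F → Perm (Fin n)` are functions `ι → Perm (Fin n)`), each of finite index.
* `mk_rq`: `F / Mk` is residually small (`F` arbitrary: homomorphisms to small groups factor through `F / Mk`). `mk_lq`: `F / Mk` satisfies the laws of the small groups (`F` any group: an element `f w` of `F / Mk`; its image under every
  homomorphism to a small group is `1`; `mk_rq`).
* `mk_pow`, `rsm_pow`, `rsm_pg`, `lw_pg`: exponent `p ^ k`, `p`-groups. `rsm_prod`, `rsm_pi`: products; `rsm_inj`: subgroups. `zm_sml`: `ZMod (p ^ j)`, `j ≤ k`, `p ^ j ≤ M`, is small.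
-/

set_option autoImplicit false
set_option linter.dupNamespace false

open scoped NumberField commutatorElement
open IsDedekindDomain
open scoped Classical

noncomputable section

namespace H24.S3

open H63.MA H38.BB H38.BG H57.PC H57.BRA H89.BRG H57.RQ H24.RK Pool.Agent.H19.NF
  Pool.Agent.H19.AB Pool.Agent.H19.A2 Pool.Agent.H19 H77.WD H77.WE H77.GL H77.S3

variable {p k M : ℕ}

theorem mk_normal (F : Type) [Group F] : (Mk p k M F).Normal := by
  refine ⟨fun x hx g S _ _ hS f => ?_⟩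
  rw [map_mul, map_mul, hx S hS f, mul_one, map_inv, mul_inv_cancel]

theorem mk_map {F F' : Type} [Group F] [Group F'] (f : F →* F') :
    Mk p k M F ≤ (Mk p k M F').comap f := by
  intro x hx
  rw [Subgroup.mem_comap]
  intro S _ _ hS g
  exact hx S hS (g.comp f)

theorem mk_rsm {R : Type} [Group R] (h : Rsm p k M R) : Mk p k M R = ⊥ := by
  rw [eq_bot_iff]
  intro x hx
  rw [Subgroup.mem_bot]
  by_contra hne
  obtain ⟨S, _, _, f, hS, hf⟩ := h x hne
  exact hf (hx S hS f)

theorem mk_lw {ι : Type} [Finite ι] {H : Type} [Group H] (h : Lw p k M H) (f : FreeGroup ι →* H) :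
    Mk p k M (FreeGroup ι) ≤ f.ker := by
  intro x hx
  obtain ⟨n, ⟨e⟩⟩ := Finite.exists_equiv_fin ι
  rw [MonoidHom.mem_ker]
  have h1 := h n (FreeGroup.map e x) (fun S _ _ hS g => hx S hS (g.comp (FreeGroup.map e)))
    (f.comp (FreeGroup.map e.symm))
  rw [MonoidHom.comp_apply, FreeGroup.map.comp] at h1
  have h2 : (e.symm ∘ e : ι → ι) = id := by
    funext i
    exact e.symm_apply_apply i
  rwa [h2, FreeGroup.map.id] at h1

theorem mk_fin {ι : Type} [Finite ι] : Finite (FreeGroup ι ⧸ Mk p k M (FreeGroup ι)) := by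
  have hfin : ∀ n : Fin (M + 1), Finite (FreeGroup ι →* Equiv.Perm (Fin n)) := fun n =>
    Finite.of_equiv (ι → Equiv.Perm (Fin n)) FreeGroup.lift
  let Φ : FreeGroup ι →* (∀ j : (Σ n : Fin (M + 1), (FreeGroup ι →* Equiv.Perm (Fin n))),
      Equiv.Perm (Fin j.1)) := MonoidHom.pi fun j => j.2
  have hle : Φ.ker ≤ Mk p k M (FreeGroup ι) := by
    intro x hx S _ _ hS f
    rw [MonoidHom.mem_ker] at hx
    have hn : Nat.card S < M + 1 := Nat.lt_succ_of_le hS.2.1
    let e : S ≃ Fin (Nat.card S) := Finite.equivFin S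
    let g : S →* Equiv.Perm (Fin (Nat.card S)) :=
      (e.permCongrHom.toMonoidHom).comp (MulAction.toPermHom S S)
    have hg : Function.Injective g := by
      intro a b hab
      have h1 : MulAction.toPermHom S S a = MulAction.toPermHom S S b :=
        e.permCongrHom.injective hab
      have h2 := congrArg (fun t : Equiv.Perm S => t 1) h1
      simpa using h2
    have h3 := congrFun hx ⟨⟨Nat.card S, hn⟩, g.comp f⟩
    have h4 : g (f x) = 1 := h3
    apply hg
    rw [h4, map_one]
  have h5 : Φ.ker.FiniteIndex := inferInstance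
  have h6 : (Mk p k M (FreeGroup ι)).FiniteIndex := Subgroup.finiteIndex_of_le hle
  exact Subgroup.finite_quotient_of_finiteIndex

theorem mk_pow {F : Type} [Group F] (x : F) : x ^ p ^ k ∈ Mk p k M F := by
  intro S _ _ hS f
  rw [map_pow, hS.2.2]

theorem rsm_pow {R : Type} [Group R] (h : Rsm p k M R) (x : R) : x ^ p ^ k = 1 := by
  by_contra hne
  obtain ⟨S, _, _, f, hS, hf⟩ := h _ hne
  exact hf (by rw [map_pow, hS.2.2])

theorem rsm_pg {R : Type} [Group R] (h : Rsm p k M R) : IsPGroup p R :=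
  fun x => ⟨k, rsm_pow h x⟩

theorem lw_pg {R : Type} [Group R] (h : Lw p k M R) : IsPGroup p R :=
  fun x => ⟨k, lw_pow h x⟩

theorem rsm_inj {R R' : Type} [Group R] [Group R'] (h : Rsm p k M R') (f : R →* R')
    (hf : Function.Injective f) : Rsm p k M R := by
  intro x hx
  obtain ⟨S, i1, i2, g, hS, hg⟩ := h (f x) (fun h1 => hx (hf (by rw [h1, map_one])))
  exact ⟨S, i1, i2, g.comp f, hS, hg⟩

theorem rsm_pi {κ : Type} (R : κ → Type) [∀ i, Group (R i)] (h : ∀ i, Rsm p k M (R i)) :
    Rsm p k M (∀ i, R i) := by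
  intro x hx
  obtain ⟨i, hi⟩ := Function.ne_iff.1 hx
  obtain ⟨S, i1, i2, g, hS, hg⟩ := h i (x i) hi
  exact ⟨S, i1, i2, g.comp (Pi.evalMonoidHom R i), hS, hg⟩

theorem rsm_prod {R R' : Type} [Group R] [Group R'] (h : Rsm p k M R) (h' : Rsm p k M R') :
    Rsm p k M (R × R') := by
  intro x hx
  by_cases h1 : x.1 = 1
  · have h2 : x.2 ≠ 1 := fun h2 => hx (Prod.ext h1 h2)
    obtain ⟨S, i1, i2, g, hS, hg⟩ := h' x.2 h2
    exact ⟨S, i1, i2, g.comp (MonoidHom.snd R R'), hS, hg⟩
  · obtain ⟨S, i1, i2, g, hS, hg⟩ := h x.1 h1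
    exact ⟨S, i1, i2, g.comp (MonoidHom.fst R R'), hS, hg⟩

theorem mk_rq (F : Type) [Group F] (N : Subgroup F) [N.Normal] (hN : N = Mk p k M F) :
    Rsm p k M (F ⧸ N) := by
  intro x hx
  obtain ⟨a, rfl⟩ := QuotientGroup.mk'_surjective N x
  have h1 : a ∉ Mk p k M F := by
    intro h2
    apply hx
    rw [← hN] at h2
    exact (QuotientGroup.eq_one_iff a).2 h2
  have h3 : ∃ (S : Type) (_ : Group S) (_ : Finite S), Sml p k M S ∧ ∃ f : F →* S, f a ≠ 1 := by
    by_contra hcon
    apply h1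
    intro S i1 i2 hS f
    by_contra hf
    exact hcon ⟨S, i1, i2, hS, f, hf⟩
  obtain ⟨S, i1, i2, hS, f, hf⟩ := h3
  refine ⟨S, i1, i2, QuotientGroup.lift N f (fun y hy => ?_), hS, hf⟩
  rw [hN] at hy
  exact hy S hS f

theorem mk_lq (F : Type) [Group F] (N : Subgroup F) [N.Normal] (hN : N = Mk p k M F) :
    Lw p k M (F ⧸ N) := by
  intro n w hw f
  by_contra hne
  obtain ⟨S, i1, i2, g, hS, hg⟩ := mk_rq F N hN (f w) hne
  exact hg (hw S hS (g.comp f))

theorem zm_sml (hp : p.Prime) {j : ℕ} (hj : j ≤ k) (hM : p ^ j ≤ M) :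
    Sml p k M (Multiplicative (ZMod (p ^ j))) := by
  have h1 : Nat.card (Multiplicative (ZMod (p ^ j))) = p ^ j := by
    rw [Nat.card_congr Multiplicative.toAdd, Nat.card_zmod]
  refine ⟨IsPGroup.of_card (n := j) h1, by rw [h1]; exact hM, fun x => ?_⟩
  have h2 : x ^ Nat.card (Multiplicative (ZMod (p ^ j))) = 1 := pow_card_eq_one'
  rw [h1] at h2
  rw [← Nat.sub_add_cancel hj, pow_add, mul_comm, pow_mul, h2, one_pow]

end H24.S3
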