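import Pool.Agent.H24.S3.Dd

/-!
# [H24 S3 RLX] the relator of a functional on 2-cochains

`rel_ex`: `f : F → R` a homomorphism, `N` normal in `F` with `F / N` finite, `J` an additive functional on the functions `R × R → ZMod n` which is zero on all `α` which are a coboundary on the image of `f`. Then there is `ρ ∈ ker f` such that
`J α = χ(ρ)` for all pairs `(χ, α)`, `α` normalised, `χ(x y) = χ x + χ y + α (f x) (f y)`, `χ = 0` on `N`.
Proof. The pairs form an additive group `P`; `(χ, α) ↦ χ|_{ker f}` is a homomorphism `P → (ker f → ZMod n)` whose image `X` consists of homomorphisms (`α (f x) _ = α 1 _ = 0`). `X` is finite: `χ` is constant on the cosets `x N` (`χ (x y) = χ x +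
χ y + α (f x) (f y)` with `y ∈ N`, `f y = 1` by `hN`, `χ y = 0`), so `X` is in bijection with a subset of the functions on the finite image of `ker f` in `F / N`. If `χ = 0` on `ker f` then `J α = 0`: for `f x = f y`, `x = y r`, `r ∈ ker f`:
`χ x = χ y + χ r + α (f y) 1 = χ y`, so `χ = η ∘ f` with a function `η : R → ZMod n`, and `α (f x) (f y) = η (f x * f y) - η (f x) - η (f y)` on the image: `hJ` with `-η`. So `J` induces a homomorphism `X → ℝ/ℤ` (apply the last fact to
differences), `dd` (for the group `ker f`).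
-/

set_option autoImplicit false
set_option linter.dupNamespace false

open scoped Classical

noncomputable section

namespace H24.S3

private def PP {F R : Type} [Group F] [Group R] {n : ℕ} (f : F →* R) (N : Subgroup F) :
    AddSubgroup ((F → ZMod n) × (R → R → ZMod n)) where
  carrier := {p | (∀ x, p.2 1 x = 0) ∧ (∀ x, p.2 x 1 = 0) ∧
    (∀ x y, p.1 (x * y) = p.1 x + p.1 y + p.2 (f x) (f y)) ∧ (∀ x ∈ N, p.1 x = 0)}
  add_mem' := by
    rintro ⟨a, b⟩ ⟨c, d⟩ ⟨h1, h2, h3, h4⟩ ⟨k1, k2, k3, k4⟩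
    simp only at h1 h2 h3 h4 k1 k2 k3 k4
    refine ⟨fun x => ?_, fun x => ?_, fun x y => ?_, fun x hx => ?_⟩
    · simp [h1, k1]
    · simp [h2, k2]
    · simp only [Prod.mk_add_mk, Pi.add_apply, h3, k3]
      ring
    · simp [h4 x hx, k4 x hx]
  zero_mem' := by
    refine ⟨fun x => rfl, fun x => rfl, fun x y => ?_, fun x _ => rfl⟩
    simp
  neg_mem' := by
    rintro ⟨a, b⟩ ⟨h1, h2, h3, h4⟩
    simp only at h1 h2 h3 h4
    refine ⟨fun x => ?_, fun x => ?_, fun x y => ?_, fun x hx => ?_⟩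
    · simp [h1]
    · simp [h2]
    · simp only [Prod.neg_mk, Pi.neg_apply, h3]
      ring
    · simp [h4 x hx]

private def resP {F R : Type} [Group F] [Group R] {n : ℕ} (f : F →* R) (N : Subgroup F) :
    (PP (n := n) f N) →+ (f.ker → ZMod n) where
  toFun p := fun r => p.1.1 r.1
  map_zero' := rfl
  map_add' _ _ := rfl

private def sndP {F R : Type} [Group F] [Group R] {n : ℕ} (f : F →* R) (N : Subgroup F) :
    (PP (n := n) f N) →+ (R → R → ZMod n) where
  toFun p := p.1.2
  map_zero' := rfl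
  map_add' _ _ := rfl

theorem rel_ex {F R : Type} [Group F] [Group R] {n : ℕ} [NeZero n] (f : F →* R) (N : Subgroup F)
    [N.Normal] [Finite (F ⧸ N)] (hN : N ≤ f.ker) (J : (R → R → ZMod n) →+ AddCircle (1 : ℝ))
    (hJ : ∀ (α : R → R → ZMod n) (η : R → ZMod n),
      (∀ g ∈ f.range, ∀ h ∈ f.range, α g h = η g + η h - η (g * h)) → J α = 0) :
    ∃ ρ : F, f ρ = 1 ∧ ∀ (χ : F → ZMod n) (α : R → R → ZMod n), (∀ x, α 1 x = 0) →
      (∀ x, α x 1 = 0) → (∀ x y, χ (x * y) = χ x + χ y + α (f x) (f y)) → (∀ x ∈ N, χ x = 0) →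
      J α = ZMod.toAddCircle (χ ρ) := by
  have hfin : Finite (resP (n := n) f N).range := by
    let Φ : (F ⧸ N → ZMod n) → (f.ker → ZMod n) := fun g r => g (QuotientGroup.mk r.1)
    have hs : ((resP (n := n) f N).range : Set (f.ker → ZMod n)) ⊆ Set.range Φ := by
      rintro _ ⟨⟨⟨χ, α⟩, h1, h2, h3, h4⟩, rfl⟩
      refine ⟨fun q => χ q.out, ?_⟩
      funext r
      obtain ⟨y, hy⟩ := QuotientGroup.mk_out_eq_mul N r.1
      simp only at h1 h2 h3 h4
      change χ (Quotient.out (QuotientGroup.mk (s := N) r.1)) = χ r.1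
      rw [hy, h3, h4 _ y.2, MonoidHom.mem_ker.1 (hN y.2), h2]
      simp
    exact Set.Finite.to_subtype ((Set.finite_range Φ).subset hs)
  have hker : (resP (n := n) f N).rangeRestrict.ker ≤ (J.comp (sndP (n := n) f N)).ker := by
    rintro ⟨⟨χ, α⟩, h1, h2, h3, h4⟩ h
    simp only at h1 h2 h3 h4
    rw [AddMonoidHom.mem_ker] at h ⊢
    have h0 : ∀ r : F, f r = 1 → χ r = 0 := by
      intro r hr
      have := congrArg (fun z => (z : (resP (n := n) f N).range).1 ⟨r, MonoidHom.mem_ker.2 hr⟩) h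
      exact this
    have h5 : ∀ x z : F, f x = f z → χ x = χ z := by
      intro x z hxz
      have h6 : f (z⁻¹ * x) = 1 := by rw [map_mul, map_inv, hxz, inv_mul_cancel]
      have h7 := h3 z (z⁻¹ * x)
      rw [mul_inv_cancel_left, h0 _ h6, h6, h2] at h7
      simpa using h7
    change J α = 0
    let c : R → F := fun g => if h : ∃ x, f x = g then h.choose else 1
    have hc : ∀ g ∈ f.range, f (c g) = g := by
      rintro g hg
      have hg' : ∃ x, f x = g := hg
      simp only [c, dif_pos hg']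
      exact hg'.choose_spec
    refine hJ α (fun g => - χ (c g)) fun g hg h hh => ?_
    have h8 := h3 (c g) (c h)
    have h9 : χ (c (g * h)) = χ (c g * c h) := by
      apply h5
      rw [hc _ (mul_mem hg hh), map_mul, hc _ hg, hc _ hh]
    rw [hc _ hg, hc _ hh] at h8
    rw [h9, h8]
    ring
  obtain ⟨J', hJ'⟩ : ∃ J' : (resP (n := n) f N).range →+ AddCircle (1 : ℝ),
      ∀ p, J' ((resP (n := n) f N).rangeRestrict p) = J p.1.2 := by
    refine ⟨AddMonoidHom.liftOfSurjective _ (AddMonoidHom.rangeRestrict_surjective _) ⟨_, hker⟩, fun p => ?_⟩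
    exact AddMonoidHom.liftOfRightInverse_comp_apply _ _ _ _ _
  obtain ⟨a, ha⟩ := dd (A := f.ker) (resP (n := n) f N).range (by
    rintro _ ⟨⟨⟨χ, α⟩, h1, h2, h3, h4⟩, rfl⟩ a b
    simp only at h1 h2 h3 h4
    change χ (a.1 * b.1) = χ a.1 + χ b.1
    rw [h3, MonoidHom.mem_ker.1 a.2, h1, add_zero]) J'
  refine ⟨a.1, MonoidHom.mem_ker.1 a.2, fun χ α h1 h2 h3 h4 => ?_⟩
  have h5 := hJ' ⟨(χ, α), h1, h2, h3, h4⟩
  have h6 := ha ((resP (n := n) f N).rangeRestrict ⟨(χ, α), h1, h2, h3, h4⟩)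
  rw [h5] at h6
  exact h6

end H24.S3
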