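import Pool.Agent.H24.S3.Df
import Pool.Agent.H24.S3.La1

/-!
# [H24 S3 SYC] symplectic coordinates at `v`

`syc`: existence. Proof: `la1` for `C = Kˣ`, `h = hs v`: `hs_mul_left`, `hs_mul_right`, `hs_self` (H82/SF/Hsa.lean), finitely many classes by `lv_fin` (H82/SF/Lvb.lean) and `hs_lv` (H82/SF/Hsb.lean).
`sco_lv`: `Lv v x` iff all coordinates are zero (`hs_lv`, `lv_hs` and `Sco.sur`). `sco_swap`: exchange of the pairs `(A i, B i)` with `(B i, - A i)` for the `i ∉ J`. `sco_map`: reindexing.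
-/

set_option autoImplicit false
set_option linter.dupNamespace false

open scoped NumberField commutatorElement
open IsDedekindDomain
open scoped Classical

noncomputable section

namespace H24.S3

open H63.MA H38.BB H38.BG H57.PC H57.BRA H89.BRG H57.RQ H24.RK Pool.Agent.H19.NF
  Pool.Agent.H19.AB Pool.Agent.H19.A2 Pool.Agent.H19 H77.WD H77.WE H77.GL H77.S3 H82.SF

variable {K : Type} [Field K] [NumberField K] {Ω : Type} [Field Ω] [Algebra K Ω]
  [IsAlgClosure K Ω] {p m : ℕ} {ζ : K}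

theorem syc (hp : p.Prime) (hp2 : MOne p K) (hζ : IsPrimitiveRoot ζ p) (v : Pl K) :
    ∃ n : ℕ, Nonempty (Sco p ζ Ω v (Fin n)) := by
  obtain ⟨R, hR⟩ := lv_fin (Ω := Ω) hp hp2 hζ v
  obtain ⟨n, A, B, hA, hB, hs1, hs2⟩ := la1 hp (hs p ζ Ω v)
    (fun x y a => hs_mul_left hp hp2 hζ v x y a) (fun x a b => hs_mul_right hp hp2 hζ v x a b)
    (fun x => hs_self hp hp2 hζ v x) ⟨R, fun x => by
      obtain ⟨y, hy, h⟩ := hR x
      exact ⟨y, hy, fun a => hs_lv hp hp2 hζ h a⟩⟩
  exact ⟨n, ⟨⟨A, B, hA, hB, hs1, hs2⟩⟩⟩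

theorem sco_lv (hp : p.Prime) (hp2 : MOne p K) (hζ : IsPrimitiveRoot ζ p) {v : Pl K} {ι : Type}
    [Fintype ι] (S : Sco p ζ Ω v ι) (x : Kˣ) :
    Lv p ζ Ω v x ↔ ∀ i, S.A i x = 0 ∧ S.B i x = 0 := by
  constructor
  · intro h i
    constructor
    · obtain ⟨a, ha⟩ := S.sur (fun _ => 0) (fun j => if j = i then 1 else 0)
      have h1 := hs_lv hp hp2 hζ h a
      rw [S.hs, Finset.sum_eq_single i] at h1
      · rw [(ha i).1, (ha i).2, if_pos rfl, mul_one, mul_zero, sub_zero] at h1
        exact h1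
      · intro j _ hj
        rw [(ha j).1, (ha j).2, if_neg hj, mul_zero, mul_zero, sub_zero]
      · intro hi
        exact absurd (Finset.mem_univ i) hi
    · obtain ⟨a, ha⟩ := S.sur (fun j => if j = i then 1 else 0) (fun _ => 0)
      have h1 := hs_lv hp hp2 hζ h a
      rw [S.hs, Finset.sum_eq_single i] at h1
      · rw [(ha i).1, (ha i).2, if_pos rfl, mul_one, mul_zero, zero_sub, neg_eq_zero] at h1
        exact h1
      · intro j _ hj
        rw [(ha j).1, (ha j).2, if_neg hj, mul_zero, mul_zero, sub_zero]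
      · intro hi
        exact absurd (Finset.mem_univ i) hi
  · intro h
    refine lv_hs hp hp2 hζ fun a => ?_
    rw [S.hs]
    refine Finset.sum_eq_zero fun i _ => ?_
    rw [(h i).1, (h i).2, zero_mul, zero_mul, sub_zero]

theorem sco_swap {v : Pl K} {ι : Type} [Fintype ι] (S : Sco p ζ Ω v ι) (J : ι → Prop) :
    ∃ S' : Sco p ζ Ω v ι, ∀ i x, S'.A i x = if J i then S.A i x else S.B i x := by
  refine ⟨⟨fun i x => if J i then S.A i x else S.B i x,
    fun i x => if J i then S.B i x else -S.A i x, fun i x y => ?_, fun i x y => ?_,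
    fun x y => ?_, fun s t => ?_⟩, fun i x => rfl⟩
  · by_cases h : J i
    · simp only [if_pos h, S.mulA]
    · simp only [if_neg h, S.mulB]
  · by_cases h : J i
    · simp only [if_pos h, S.mulB]
    · simp only [if_neg h, S.mulA, neg_add]
  · rw [S.hs]
    refine Finset.sum_congr rfl fun i _ => ?_
    by_cases h : J i
    · simp only [if_pos h]
    · simp only [if_neg h]
      ring
  · obtain ⟨x, hx⟩ := S.sur (fun i => if J i then s i else -t i) (fun i => if J i then t i else s i)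
    refine ⟨x, fun i => ?_⟩
    by_cases h : J i
    · simp only [if_pos h, (hx i).1, (hx i).2]
      exact ⟨trivial, trivial⟩
    · simp only [if_neg h, (hx i).1, (hx i).2, neg_neg]
      exact ⟨trivial, trivial⟩

theorem sco_map {v : Pl K} {ι κ : Type} [Fintype ι] [Fintype κ] (S : Sco p ζ Ω v ι) (e : κ ≃ ι) :
    ∃ S' : Sco p ζ Ω v κ, ∀ i x, S'.A i x = S.A (e i) x ∧ S'.B i x = S.B (e i) x := by
  refine ⟨⟨fun i x => S.A (e i) x, fun i x => S.B (e i) x, fun i x y => S.mulA _ x y,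
    fun i x y => S.mulB _ x y, fun x y => ?_, fun s t => ?_⟩, fun i x => ⟨rfl, rfl⟩⟩
  · rw [S.hs]
    exact (Equiv.sum_comp e fun i => S.A i x * S.B i y - S.B i x * S.A i y).symm
  · obtain ⟨x, hx⟩ := S.sur (fun i => s (e.symm i)) (fun i => t (e.symm i))
    refine ⟨x, fun i => ?_⟩
    have h := hx (e i)
    simp only [Equiv.symm_apply_apply] at h
    exact h

end H24.S3
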