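import Pool.Agent.H63.MA.KumE

/-!
# [H24 S3 UCN] the number of classes of `T`-units modulo `p`-th powers

`ucn`: if the `T`-units `u_1..u_g` generate the `T`-units modulo `p`-th powers, then `[K:ℚ] + 2 #T ≤ 2 g`.
Proof. `U = UT T` (H63/MA/SUnit.lean) is finitely generated of rank `ρ = rank (𝓞 K)ˣ + #T` (`ut_finite`, `ut_rank`) and contains `ζ` of order `p`. So `U ≅ ℤ^ρ × (finite group with p-torsion)` and `U / U^p` has at least `p^(ρ+1)` elements (structure theorem, or: the torsion
free quotient `U / torsion ≅ ℤ^ρ` gives `p^ρ` classes; `T0 = torsion` finite, `#(T0 / T0^p) = #T0[p] ≥ p`, and `T0 ∩ U^p = T0^p` because `U / T0` is torsion free). `U → U / (Kˣ)^p`: if `x ∈ U`, `x = y ^ p` then `y ∈ U` (`ord_pow`). The `u_i` generate `U` modulo `p`-th powers: at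
most `p^g` classes, `ρ + 1 ≤ g`. `rank (𝓞 K)ˣ + 1` = number of infinite places = `[K:ℚ] / 2`, all places are complex because `K` contains `ζ`, `p > 2`, or `p = 2` and `MOne`: `i ∈ K` (see `units_rank` in H63/MA/KumE.lean and its proof; `NumberField.InfinitePlace`).
-/

set_option autoImplicit false
set_option linter.dupNamespace false

open scoped NumberField
open IsDedekindDomain
open scoped Classical

noncomputable section

namespace H24.S3

open H63.MA

/-- a finitely generated abelian group with an element of order `p`, generated modulo `p` by `g`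
elements, has rank less than `g` -/
private theorem rk_aux {A : Type} [AddCommGroup A] [Module.Finite ℤ A] {p : ℕ} (hp : p.Prime)
    {z : A} (hz : z ≠ 0) (hpz : (p : ℤ) • z = 0) {g : ℕ} (u : Fin g → A)
    (hs : ∀ x : A, ∃ (n : Fin g → ℤ) (y : A), x = (∑ i, n i • u i) + (p : ℤ) • y) :
    Module.finrank ℤ A + 1 ≤ g := by
  classical
  let φ : (Fin g → ℤ) →ₗ[ℤ] A := Fintype.linearCombination ℤ u
  have hφ : ∀ n : Fin g → ℤ, φ n = ∑ i, n i • u i := fun n => by
    simp only [φ, Fintype.linearCombination_apply]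
  set B : Submodule ℤ A := LinearMap.range φ with hB
  have hq : (⊤ : Submodule ℤ (A ⧸ B)) ≤ (Ideal.span {(p : ℤ)}) • (⊤ : Submodule ℤ (A ⧸ B)) := by
    intro q _
    obtain ⟨x, rfl⟩ := Submodule.mkQ_surjective B q
    obtain ⟨n, y, hx⟩ := hs x
    have h1 : B.mkQ (∑ i, n i • u i) = 0 := by
      rw [Submodule.mkQ_apply, Submodule.Quotient.mk_eq_zero, hB]
      exact ⟨n, hφ n⟩
    rw [hx, map_add, h1, zero_add, map_smul]
    exact Submodule.smul_mem_smul (Ideal.mem_span_singleton_self _) trivial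
  obtain ⟨r, hr1, hr2⟩ := Submodule.exists_sub_one_mem_and_smul_eq_zero_of_fg_of_le_smul
    (Ideal.span {(p : ℤ)}) (⊤ : Submodule ℤ (A ⧸ B)) (Module.finite_def.1 inferInstance) hq
  have hrB : ∀ x : A, r • x ∈ B := by
    intro x
    have h1 := hr2 (B.mkQ x) trivial
    rw [← map_smul, Submodule.mkQ_apply, Submodule.Quotient.mk_eq_zero] at h1
    exact h1
  obtain ⟨k, hk⟩ := Ideal.mem_span_singleton'.1 hr1
  have hr0 : r ≠ 0 := by
    intro h0
    rw [h0] at hk
    have h1 : (p : ℤ) ∣ 1 := ⟨-k, by linear_combination hk⟩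
    have h2 := Int.natAbs_dvd_natAbs.2 h1
    simp only [Int.natAbs_natCast, Int.natAbs_one] at h2
    exact hp.one_lt.ne' (Nat.dvd_one.1 h2)
  have hzB : z ∈ B := by
    have h1 : r • z = z := by
      have h2 : r = k * (p : ℤ) + 1 := by linear_combination -hk
      rw [h2, add_smul, one_smul, mul_smul, hpz, smul_zero, zero_add]
    rw [← h1]
    exact hrB z
  have hrk : Module.finrank ℤ (A ⧸ B) = 0 := by
    rw [Module.finrank_eq_zero_iff]
    intro q
    exact ⟨r, hr0, hr2 q trivial⟩
  have h1 := Submodule.finrank_quotient_add_finrank B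
  have h2 : Module.finrank ℤ B + Module.finrank ℤ (LinearMap.ker φ) =
      Module.finrank ℤ (Fin g → ℤ) := by
    rw [← Submodule.finrank_quotient_add_finrank (LinearMap.ker φ), φ.quotKerEquivRange.finrank_eq]
  have h3 : LinearMap.ker φ ≠ ⊥ := by
    obtain ⟨c, hc⟩ := hzB
    intro h4
    have h5 : (p : ℤ) • c ∈ LinearMap.ker φ := by
      rw [LinearMap.mem_ker, map_smul, hc, hpz]
    rw [h4, Submodule.mem_bot] at h5
    have hp0 : (p : ℤ) ≠ 0 := by exact_mod_cast hp.ne_zero
    have h6 : c = 0 := (smul_eq_zero.1 h5).resolve_left hp0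
    rw [h6, map_zero] at hc
    exact hz hc.symm
  have h4 : 1 ≤ Module.finrank ℤ (LinearMap.ker φ) := Submodule.one_le_finrank_iff.2 h3
  rw [Module.finrank_fin_fun] at h2
  rw [hrk, zero_add] at h1
  omega

theorem ucn {K : Type} [Field K] [NumberField K] {p : ℕ} {ζ : K} (hp : p.Prime) (hp2 : MOne p K)
    (hζ : IsPrimitiveRoot ζ p) (T : Finset (Pl K)) {g : ℕ} (u : Fin g → Kˣ)
    (hu : ∀ i, TUnit T (u i)) (hs : ∀ x : Kˣ, TUnit T x →
      ∃ (n : Fin g → ℕ) (y : Kˣ), x = (∏ i, u i ^ n i) * y ^ p) :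
    Module.finrank ℚ K + 2 * T.card ≤ 2 * g := by
  classical
  have hex : ∃ (n : ℕ) (z : K), 2 < n ∧ IsPrimitiveRoot z n := by
    by_cases h2 : p = 2
    · obtain ⟨i, hi⟩ := hp2
      subst h2
      refine ⟨4, i, by norm_num, ?_⟩
      have h3 : orderOf i = 2 ^ (1 + 1) := by
        refine orderOf_eq_prime_pow ?_ ?_
        · rw [pow_one, hi]
          intro h4
          have h5 : (2 : K) = 0 := by linear_combination -h4
          exact two_ne_zero h5
        · rw [pow_succ, pow_one, pow_mul, hi, neg_one_sq]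
      have h6 := IsPrimitiveRoot.orderOf i
      rw [h3] at h6
      exact h6
    · exact ⟨p, ζ, lt_of_le_of_ne hp.two_le (Ne.symm h2), hζ⟩
  obtain ⟨n, z, hp3, hzK⟩ := hex
  have hK0 : NumberField.InfinitePlace.nrRealPlaces K = 0 :=
    NumberField.InfinitePlace.IsPrimitiveRoot.nrRealPlaces_eq_zero_of_two_lt hp3 hzK
  have hKr := NumberField.InfinitePlace.card_add_two_mul_card_eq_rank K
  have hKc := NumberField.InfinitePlace.card_eq_nrRealPlaces_add_nrComplexPlaces K
  have hposK : 0 < Fintype.card (NumberField.InfinitePlace K) := Fintype.card_pos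
  have hrK : NumberField.Units.rank K + 1 = Fintype.card (NumberField.InfinitePlace K) := by
    unfold NumberField.Units.rank
    exact Nat.sub_add_cancel hposK
  have hζ0 : ζ ≠ 0 := hζ.ne_zero hp.ne_zero
  set zu : Kˣ := Units.mk0 ζ hζ0 with hzu
  have hzp : zu ^ p = 1 := by
    apply Units.ext
    rw [Units.val_pow_eq_pow_val, hzu, Units.val_mk0, hζ.pow_eq_one, Units.val_one]
  have hordp : ∀ (v : Pl K) (y : Kˣ), ord v (y ^ p) = 0 → ord v y = 0 := by
    intro v y h
    rw [ord_pow] at h
    exact (mul_eq_zero.1 h).resolve_left (by exact_mod_cast hp.ne_zero)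
  have hzU : zu ∈ UT T := mem_UT.2 fun v _ => hordp v zu (by rw [hzp, ord_one])
  have hfin := ut_finite T
  have hrank := ut_rank T
  have key := rk_aux (A := Additive (UT T)) hp (z := Additive.ofMul ⟨zu, hzU⟩) (by
      intro h
      have h1 : zu = 1 := congrArg (fun e : Additive (UT T) => ((Additive.toMul e : UT T) : Kˣ)) h
      have h2 : ζ = 1 := congrArg (fun e : Kˣ => (e : K)) h1
      exact hζ.ne_one hp.one_lt h2) (by
      apply Additive.toMul.injective
      apply Subtype.ext
      rw [toMul_zsmul, toMul_ofMul, zpow_natCast, SubgroupClass.coe_pow]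
      exact hzp) (fun i => Additive.ofMul ⟨u i, mem_UT.2 (hu i)⟩) (by
      intro x
      obtain ⟨n, y, hx⟩ := hs (Additive.toMul x : UT T).1 (mem_UT.1 (Additive.toMul x : UT T).2)
      have hy : y ∈ UT T := by
        refine mem_UT.2 fun v hv => hordp v y ?_
        have h1 : (∏ i, u i ^ n i) ∈ UT T :=
          Subgroup.prod_mem _ fun i _ => Subgroup.pow_mem _ (mem_UT.2 (hu i)) _
        have h2 : y ^ p = (∏ i, u i ^ n i)⁻¹ * (Additive.toMul x : UT T).1 := by
          rw [hx, inv_mul_cancel_left]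
        have h3 : y ^ p ∈ UT T := by
          rw [h2]
          exact Subgroup.mul_mem _ (Subgroup.inv_mem _ h1) (Additive.toMul x : UT T).2
        exact mem_UT.1 h3 v hv
      refine ⟨fun i => n i, Additive.ofMul ⟨y, hy⟩, ?_⟩
      apply Additive.toMul.injective
      apply Subtype.ext
      rw [hx, toMul_add, toMul_sum, toMul_zsmul, zpow_natCast]
      simp only [toMul_zsmul, zpow_natCast, toMul_ofMul, Subgroup.coe_mul, SubgroupClass.coe_pow,
        Subgroup.val_finsetProd])
  omega

end H24.S3
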