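import Pool.Agent.H24.S3.Df

/-!
# [H24 S3 UIS] the `S0`-units are isotropic

* `hs_sum`: `∑_{v ∈ S0} hs v x a = ∑_{w ∉ S0} b1 w x a`. Proof: choose `x_v` (`v ∈ S0`) by `at_exS` (H82/SF/Lvc.lean): `Lv v (x_v x⁻¹)`, `Lv v' x_v` for the other `v' ∈ S0`. `y := x / ∏ x_v` is `Lv` at all `v ∈ S0`. The right side is additive in `x` (`b1_mul_left`, finite support `b1_fin`), it is
  `hs v x_v a = hs v x a` for `x_v` (`hs_S`, H82/SF/Hsc.lean; `hs_cong`), and for `y` it is `hs v y a = 0` for any `v ∈ S0` (`hs_S`, `hs_lv`); `S0` is not empty: there is a prime above `p`.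
* `uis`: for `S0`-units `u, u'` the sum is `0`: `b1 w u u' = 0` for `w ∉ S0` (`b1`, `B`: tame symbol of two units; see the private `nT_unit` in H82/SF/Ndg.lean).
* `uinj`: an `S0`-unit `u` with `Lv v u` for all `v ∈ S0` is a `p`-th power. Proof: `hs v u a = 0` for all `v ∈ S0` (`hs_lv`), so `∑_{w ∉ S0} b1 w u a = 0` for all `a`; `a = D.pi w`: `LL w u = 0`, that is `Spl w u`, for all `w ∉ S0` (see `nT_pi` in Ndg.lean, `B_unit`), so `u` is a `p`-th power: otherwise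
  the primes with `Spl` have density `1/p` (`pz_spl`, H63/MA/PzS.lean, with `pz_all`); or use an existing lemma of this kind (`non` in the construction of `RD`, H63/MA/RMkC.lean).
-/

set_option autoImplicit false
set_option linter.dupNamespace false

open scoped NumberField commutatorElement
open IsDedekindDomain
open scoped Classical

noncomputable section

namespace H24.S3

open H63.MA H38.BB H38.BG H57.PC H57.BRA H89.BRG H57.RQ H24.RK Pool.Agent.H19.NF
  Pool.Agent.H19.AB Pool.Agent.H19.A2 Pool.Agent.H19 H77.WD H77.WE H77.GL H77.S3 H82.SF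

variable {K : Type} [Field K] [NumberField K] {Ω : Type} [Field Ω] [Algebra K Ω]
  [IsAlgClosure K Ω] {p m : ℕ} {ζ : K}

/-- the sum of the symbols outside `S0` -/
private def uT (D : RD0 K p ζ) (x a : Kˣ) : ZMod p :=
  ∑ᶠ w, if w ∈ D.S0 then 0 else b1 p ζ w x a

private theorem uT_fin (hp : p.Prime) (hζ : IsPrimitiveRoot ζ p) (D : RD0 K p ζ) (x a : Kˣ) :
    (Function.support fun w => if w ∈ D.S0 then (0 : ZMod p) else b1 p ζ w x a).Finite := by
  refine (b1_fin hp hζ x a).subset fun w hw => ?_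
  rw [Function.mem_support] at hw
  intro h0
  exact hw (by rw [h0, ite_self])

private theorem uT_mul (hp : p.Prime) (hζ : IsPrimitiveRoot ζ p) (D : RD0 K p ζ)
    (x x' a : Kˣ) : uT D (x * x') a = uT D x a + uT D x' a := by
  unfold uT
  rw [← finsum_add_distrib (uT_fin hp hζ D x a) (uT_fin hp hζ D x' a)]
  refine finsum_congr fun w => ?_
  by_cases h : w ∈ D.S0
  · rw [if_pos h, if_pos h, if_pos h, add_zero]
  · rw [if_neg h, if_neg h, if_neg h, b1_mul_left hp hζ]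

private theorem uT_prod (hp : p.Prime) (hζ : IsPrimitiveRoot ζ p) (D : RD0 K p ζ)
    (T : Finset (Pl K)) (f : Pl K → Kˣ) (a : Kˣ) :
    uT D (∏ v ∈ T, f v) a = ∑ v ∈ T, uT D (f v) a := by
  induction T using Finset.induction_on with
  | empty =>
    rw [Finset.prod_empty, Finset.sum_empty]
    have h1 := uT_mul hp hζ D 1 1 a
    rw [one_mul] at h1
    exact left_eq_add.1 h1
  | insert i s hi ih =>
    rw [Finset.prod_insert hi, Finset.sum_insert hi, uT_mul hp hζ, ih]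

private theorem uT_lv (hp : p.Prime) (hp2 : MOne p K) (hζ : IsPrimitiveRoot ζ p) (D : RD0 K p ζ)
    {x : Kˣ} (h : ∀ v ∈ D.S0, Lv p ζ Ω v x) (a : Kˣ) : uT D x a = 0 := by
  have h1 : Ts p ζ x a = 0 := ts_lv (Ω := Ω) hp hp2 hζ fun v hv => Or.inl (h v (D.above v hv))
  rw [← h1]
  unfold uT Ts
  refine finsum_congr fun w => ?_
  by_cases hw : w ∈ D.S0
  · rw [if_pos hw]
    unfold b1
    by_cases ha : Above p w
    · rw [if_pos ha]
    · rw [if_neg ha, spl_lv hp hζ ha (h w hw) a]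
  · rw [if_neg hw]

private theorem lv_pr (hp : p.Prime) (hζ : IsPrimitiveRoot ζ p) {v : Pl K}
    (T : Finset (Pl K)) (f : Pl K → Kˣ) (h : ∀ w ∈ T, Lv p ζ Ω v (f w)) :
    Lv p ζ Ω v (∏ w ∈ T, f w) := by
  induction T using Finset.induction_on with
  | empty => exact lv_one hp hζ v
  | insert i s hi ih =>
    rw [Finset.prod_insert hi]
    exact lv_mul hp hζ (h i (Finset.mem_insert_self _ _))
      (ih fun w hw => h w (Finset.mem_insert_of_mem hw))

/-- the sum of the symbols at `S0` is the sum of the tame symbols outside `S0` -/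
theorem uis_sum (hp : p.Prime) (hp2 : MOne p K) (hζ : IsPrimitiveRoot ζ p) (D : RD0 K p ζ)
    (x a : Kˣ) : ∑ v ∈ D.S0, hs p ζ Ω v x a =
      ∑ᶠ w, if w ∈ D.S0 then (0 : ZMod p) else b1 p ζ w x a := by
  have hex : ∀ v : Pl K, ∃ x' : Kˣ, Lv p ζ Ω v (x' * x⁻¹) ∧ ∀ v' ∈ D.S0, v' ≠ v →
      Lv p ζ Ω v' x' := fun v => at_exS hp hζ D.S0 v x
  choose f hf1 hf2 using hex
  have hy : ∀ v ∈ D.S0, Lv p ζ Ω v (x * (∏ w ∈ D.S0, f w)⁻¹) := by
    intro v hv
    rw [← Finset.mul_prod_erase D.S0 f hv]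
    have e : x * (f v * ∏ w ∈ D.S0.erase v, f w)⁻¹ =
        (f v * x⁻¹)⁻¹ * (∏ w ∈ D.S0.erase v, f w)⁻¹ := by
      rw [mul_inv, mul_inv, inv_inv, ← mul_assoc, mul_comm x (f v)⁻¹]
    rw [e]
    refine lv_mul hp hζ (lv_inv hp hζ (hf1 v)) (lv_inv hp hζ (lv_pr hp hζ _ _ fun w hw => ?_))
    exact hf2 w v hv (Finset.ne_of_mem_erase hw).symm
  have h1 : uT D x a = ∑ v ∈ D.S0, hs p ζ Ω v x a := by
    have e : x = (x * (∏ w ∈ D.S0, f w)⁻¹) * ∏ w ∈ D.S0, f w := by
      rw [inv_mul_cancel_right]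
    rw [e, uT_mul hp hζ, uT_lv hp hp2 hζ D hy a, zero_add, uT_prod hp hζ, ← e]
    refine Finset.sum_congr rfl fun v hv => ?_
    unfold uT
    rw [hs_S (Ω := Ω) hp hp2 hζ D.above hv (fun v' hv' hne => hf2 v v' hv' hne) a]
    exact hs_cong hp hp2 hζ (hf1 v) a
  rw [← h1]
  rfl

theorem uis (hp : p.Prime) (hp2 : MOne p K) (hζ : IsPrimitiveRoot ζ p) (D : RD0 K p ζ) {u u' : Kˣ}
    (hu : TUnit D.S0 u) (hu' : TUnit D.S0 u') : ∑ v ∈ D.S0, hs p ζ Ω v u u' = 0 := by
  rw [uis_sum hp hp2 hζ D u u']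
  have h1 : ∀ w, (if w ∈ D.S0 then (0 : ZMod p) else b1 p ζ w u u') = 0 := by
    intro w
    by_cases hw : w ∈ D.S0
    · rw [if_pos hw]
    · rw [if_neg hw]
      unfold b1
      rw [if_neg (fun h => hw (D.above w h)), B_eq hp hζ D hw, hu w hw, hu' w hw]
      push_cast
      ring
  rw [finsum_congr h1, finsum_zero]

theorem uinj (hp : p.Prime) (hp2 : MOne p K) (hζ : IsPrimitiveRoot ζ p) (D : RD0 K p ζ) {u : Kˣ}
    (hu : TUnit D.S0 u) (h : ∀ v ∈ D.S0, Lv p ζ Ω v u) : IsPow p u := by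
  by_contra hcon
  obtain ⟨v, hv, -, -, hne⟩ := rmkC_non hp hζ D u hcon ∅
  apply hne
  have h1 := uT_lv hp hp2 hζ D h (D.pi v)
  rw [← h1]
  unfold uT
  symm
  rw [finsum_eq_single _ v]
  · rw [if_neg hv.1]
    unfold b1
    rw [if_neg (fun h2 => hv.1 (D.above v h2)), B_eq hp hζ D hv.1, hu v hv.1, D.pi_self v hv.1]
    push_cast
    ring
  · intro w hw
    by_cases hwS : w ∈ D.S0
    · rw [if_pos hwS]
    · rw [if_neg hwS]
      unfold b1
      rw [if_neg (fun h2 => hwS (D.above w h2)), B_eq hp hζ D hwS, hu w hwS,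
        D.pi_ne v w hv.1 hwS hw]
      push_cast
      ring

end H24.S3
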