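import Pool.Agent.H24.S3.Glx
import Pool.Agent.H24.S3.Uis
import Pool.Agent.H24.S3.Ucn
import Pool.Agent.H24.S3.La2

/-!
# [H24 S3 TRS] transversality: coordinates dual to the `S0`-units

`trs`: existence of `Tsv`. Proof. `G` from `glx`. `P i = (S (pl i)).A ⟨i, _⟩`, `Q i = .B ⟨i, _⟩`. `U ⊆ (ZMod p)^g × (ZMod p)^g`: the image of the `S0`-units under `(P, Q)`, a subspace (`n • ` = powers). Isotropic: `∑_i (P i u Q i u' - Q i u P i u') = ∑_{v ∈ S0} hs v u u' = 0` (`Sco.hs`, the sum over `i` sorted by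
`pl i`; `uis`). Dimension at least `g`: let `d = finrank U`, choose units `u_1..u_d` whose images are a basis; they generate the units modulo `p`-th powers (`uinj` with `sco_lv`: if all coordinates of a unit are zero it is `Lv v` for all `v ∈ S0`, so a `p`-th power), so `[K:ℚ] + 2 #S0 ≤ 2 d` (`ucn`), and `2 g ≤ 2 #S0
+ [K:ℚ] ≤ 2 d` (`Glc.cnt`). `la2` gives `J`; `S' v := sco_swap (S v) (fun i => i.1 ∈ J)`, so `u ↦ ((S' (pl i)).A ⟨i, _⟩ u)_i` is bijective from the units modulo `p`-th powers to `(ZMod p)^g`: `u i` with `dual`; `span`: for a unit `x` with coordinates `n i` the unit `x ∏ u_i^(- n i)` has coordinates zero, so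
its image in `U` is zero by injectivity, so it is a `p`-th power.
-/

set_option autoImplicit false
set_option linter.dupNamespace false

open scoped NumberField commutatorElement
open IsDedekindDomain
open scoped Classical

noncomputable section

namespace H24.S3

open H63.MA H38.BB H38.BG H57.PC H57.BRA H89.BRG H57.RQ H24.RK Pool.Agent.H19.NF
  Pool.Agent.H19.AB Pool.Agent.H19.A2 Pool.Agent.H19 H77.WD H77.WE H77.GL H77.S3 H82.SF

variable {K : Type} [Field K] [NumberField K] {Ω : Type} [Field Ω] [Algebra K Ω]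
  [IsAlgClosure K Ω] {p m : ℕ} {ζ : K}

section add

variable {G : Type} [CommGroup G] {f : G → ZMod p}

private theorem trs_one (hf : ∀ x y, f (x * y) = f x + f y) : f 1 = 0 := by
  have h := hf 1 1
  rw [one_mul] at h
  exact left_eq_add.1 h

private theorem trs_inv (hf : ∀ x y, f (x * y) = f x + f y) (x : G) : f x⁻¹ = -f x := by
  have h := hf x⁻¹ x
  rw [inv_mul_cancel, trs_one hf] at h
  exact eq_neg_of_add_eq_zero_left h.symm

private theorem trs_pow (hf : ∀ x y, f (x * y) = f x + f y) (x : G) (n : ℕ) :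
    f (x ^ n) = n * f x := by
  induction n with
  | zero => rw [pow_zero, trs_one hf, Nat.cast_zero, zero_mul]
  | succ n ih => rw [pow_succ, hf, ih]; push_cast; ring

private theorem trs_prod (hf : ∀ x y, f (x * y) = f x + f y) {κ : Type} (s : Finset κ)
    (g : κ → G) : f (∏ k ∈ s, g k) = ∑ k ∈ s, f (g k) := by
  induction s using Finset.induction_on with
  | empty => rw [Finset.prod_empty, Finset.sum_empty, trs_one hf]
  | insert a s ha ih => rw [Finset.prod_insert ha, Finset.sum_insert ha, hf, ih]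

end add

private theorem trs_gen {T : Finset (Pl K)} {n : ℕ} {u : Fin n → Kˣ} (hu : ∀ i, TUnit T (u i))
    (c : Fin n → ℕ) {x : Kˣ} (hx : TUnit T x) : TUnit T (x * (∏ i, u i ^ c i)⁻¹) :=
  (UT T).mul_mem hx ((UT T).inv_mem ((UT T).prod_mem fun i _ => (UT T).pow_mem (hu i) _))

theorem trs (hp : p.Prime) (hp2 : MOne p K) (hζ : IsPrimitiveRoot ζ p) (D : RD0 K p ζ) :
    Nonempty (Tsv D Ω) := by
  have hF : Fact p.Prime := ⟨hp⟩
  obtain ⟨G⟩ := glx (Ω := Ω) hp hp2 hζ D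
  obtain ⟨P, hP⟩ : ∃ P : Fin G.g → Kˣ → ZMod p,
      ∀ i x, P i x = (G.S (G.pl i) (G.mem i)).A ⟨i, rfl⟩ x := ⟨_, fun _ _ => rfl⟩
  obtain ⟨Q, hQ⟩ : ∃ Q : Fin G.g → Kˣ → ZMod p,
      ∀ i x, Q i x = (G.S (G.pl i) (G.mem i)).B ⟨i, rfl⟩ x := ⟨_, fun _ _ => rfl⟩
  have hPm : ∀ i x y, P i (x * y) = P i x + P i y := fun i x y => by
    rw [hP, hP, hP, (G.S (G.pl i) (G.mem i)).mulA]
  have hQm : ∀ i x y, Q i (x * y) = Q i x + Q i y := fun i x y => by
    rw [hQ, hQ, hQ, (G.S (G.pl i) (G.mem i)).mulB]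
  -- coordinates at `v`
  have hPv : ∀ (v : Pl K) (hv : v ∈ D.S0) (i : {i : Fin G.g // G.pl i = v}) (x : Kˣ),
      (G.S v hv).A i x = P i.1 x ∧ (G.S v hv).B i x = Q i.1 x := by
    rintro v hv ⟨i, rfl⟩ x
    exact ⟨(hP i x).symm, (hQ i x).symm⟩
  -- zero coordinates
  have hzero : ∀ x : Kˣ, TUnit D.S0 x → (∀ i, P i x = 0 ∧ Q i x = 0) → IsPow p x := by
    intro x hx h
    refine uinj (Ω := Ω) hp hp2 hζ D hx fun v hv => ?_
    refine (sco_lv hp hp2 hζ (G.S v hv) x).2 fun i => ?_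
    obtain ⟨h1, h2⟩ := hPv v hv i x
    exact ⟨h1.trans (h i.1).1, h2.trans (h i.1).2⟩
  -- the image of the units
  obtain ⟨U, hU⟩ : ∃ U : Submodule (ZMod p) ((Fin G.g → ZMod p) × (Fin G.g → ZMod p)),
      ∀ w, w ∈ U ↔ ∃ u : Kˣ, TUnit D.S0 u ∧ (∀ i, w.1 i = P i u) ∧ ∀ i, w.2 i = Q i u := by
    refine ⟨{ carrier := {w | ∃ u : Kˣ, TUnit D.S0 u ∧ (∀ i, w.1 i = P i u) ∧ ∀ i, w.2 i = Q i u}
              add_mem' := ?_
              zero_mem' := ?_
              smul_mem' := ?_ }, fun w => Iff.rfl⟩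
    · rintro w w' ⟨u, h1, h2, h3⟩ ⟨u', h1', h2', h3'⟩
      exact ⟨u * u', (UT D.S0).mul_mem h1 h1', fun i => by
        rw [Prod.fst_add, Pi.add_apply, h2, h2', hPm], fun i => by
        rw [Prod.snd_add, Pi.add_apply, h3, h3', hQm]⟩
    · exact ⟨1, (UT D.S0).one_mem, fun i => by
        rw [trs_one (hPm i)]; rfl, fun i => by rw [trs_one (hQm i)]; rfl⟩
    · rintro c w ⟨u, h1, h2, h3⟩
      refine ⟨u ^ c.val, (UT D.S0).pow_mem h1 _, fun i => ?_, fun i => ?_⟩
      · rw [trs_pow (hPm i), ZMod.natCast_zmod_val, Prod.smul_fst, Pi.smul_apply, h2, smul_eq_mul]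
      · rw [trs_pow (hQm i), ZMod.natCast_zmod_val, Prod.smul_snd, Pi.smul_apply, h3, smul_eq_mul]
  -- isotropic
  have hiso : ∀ u ∈ U, ∀ w ∈ U, ∑ i, (u.1 i * w.2 i - u.2 i * w.1 i) = 0 := by
    intro w hw w' hw'
    obtain ⟨u, h1, h2, h3⟩ := (hU w).1 hw
    obtain ⟨u', h1', h2', h3'⟩ := (hU w').1 hw'
    rw [← uis (Ω := Ω) hp hp2 hζ D h1 h1']
    have h4 : ∀ i, w.1 i * w'.2 i - w.2 i * w'.1 i = P i u * Q i u' - Q i u * P i u' := fun i => by
      rw [h2, h3, h2', h3']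
    rw [Finset.sum_congr rfl fun i _ => h4 i,
      ← Finset.sum_fiberwise_of_maps_to (s := Finset.univ) (t := D.S0) (g := G.pl)
        (fun i _ => G.mem i)]
    refine Finset.sum_congr rfl fun v hv => ?_
    rw [(G.S v hv).hs]
    rw [Finset.sum_subtype (p := fun i => G.pl i = v) _ (fun i => by
      rw [Finset.mem_filter]; exact ⟨fun h => h.2, fun h => ⟨Finset.mem_univ _, h⟩⟩)]
    refine Finset.sum_congr rfl fun i _ => ?_
    rw [(hPv v hv i u).1, (hPv v hv i u).2, (hPv v hv i u').1, (hPv v hv i u').2]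
  -- dimension
  have hdim : Fintype.card (Fin G.g) ≤ Module.finrank (ZMod p) U := by
    rw [Fintype.card_fin]
    obtain ⟨d, hd⟩ : ∃ d, d = Module.finrank (ZMod p) U := ⟨_, rfl⟩
    let b : Module.Basis (Fin d) (ZMod p) U := (Module.finBasis (ZMod p) U).reindex (finCongr hd.symm)
    choose w hw1 hw2 hw3 using fun j => (hU _).1 (b j).2
    have h5 := ucn hp hp2 hζ D.S0 w hw1 (fun x hx => by
      obtain ⟨c, hc⟩ : ∃ c : U, (∀ i, c.1.1 i = P i x) ∧ ∀ i, c.1.2 i = Q i x :=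
        ⟨⟨(fun i => P i x, fun i => Q i x), (hU _).2 ⟨x, hx, fun _ => rfl, fun _ => rfl⟩⟩,
          fun _ => rfl, fun _ => rfl⟩
      have hsum := b.sum_repr c
      have hs1 : ∀ i, P i x = ∑ j, b.repr c j * P i (w j) := by
        intro i
        rw [← hc.1 i]
        have h6 := congrArg (fun z : U => z.1.1 i) hsum
        rw [← h6]
        simp only [Submodule.coe_sum, Submodule.coe_smul, Prod.fst_sum, Prod.smul_fst,
          Finset.sum_apply, Pi.smul_apply, smul_eq_mul, hw2]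
      have hs2 : ∀ i, Q i x = ∑ j, b.repr c j * Q i (w j) := by
        intro i
        rw [← hc.2 i]
        have h6 := congrArg (fun z : U => z.1.2 i) hsum
        rw [← h6]
        simp only [Submodule.coe_sum, Submodule.coe_smul, Prod.snd_sum, Prod.smul_snd,
          Finset.sum_apply, Pi.smul_apply, smul_eq_mul, hw3]
      have h7 : IsPow p (x * (∏ j, w j ^ (b.repr c j).val)⁻¹) := by
        refine hzero _ (trs_gen hw1 _ hx) fun i => ⟨?_, ?_⟩
        · rw [hPm, trs_inv (hPm i), trs_prod (hPm i), hs1 i, add_neg_eq_zero]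
          refine Finset.sum_congr rfl fun j _ => ?_
          rw [trs_pow (hPm i), ZMod.natCast_zmod_val]
        · rw [hQm, trs_inv (hQm i), trs_prod (hQm i), hs2 i, add_neg_eq_zero]
          refine Finset.sum_congr rfl fun j _ => ?_
          rw [trs_pow (hQm i), ZMod.natCast_zmod_val]
      obtain ⟨y, hy⟩ := h7
      refine ⟨fun j => (b.repr c j).val, y, ?_⟩
      rw [hy, mul_comm (∏ j, w j ^ (b.repr c j).val), inv_mul_cancel_right])
    have h6 := G.cnt
    omega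
  obtain ⟨J, hJ⟩ := la2 U hiso hdim
  choose S' hS' using fun (v : Pl K) (hv : v ∈ D.S0) => sco_swap (G.S v hv) fun i => i.1 ∈ J
  obtain ⟨V, hV⟩ : ∃ V : Fin G.g → Kˣ → ZMod p,
      ∀ i x, V i x = (S' (G.pl i) (G.mem i)).A ⟨i, rfl⟩ x := ⟨_, fun _ _ => rfl⟩
  have hVm : ∀ i x y, V i (x * y) = V i x + V i y := fun i x y => by
    rw [hV, hV, hV, (S' (G.pl i) (G.mem i)).mulA]
  have hV2 : ∀ i x, V i x = if i ∈ J then P i x else Q i x := by
    intro i x
    rw [hV, hS', hP, hQ]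
    by_cases h : i ∈ J
    · rw [if_pos h, if_pos h]
    · rw [if_neg h, if_neg h]
  -- the dual units
  have hu : ∀ i, ∃ u : Kˣ, TUnit D.S0 u ∧ ∀ j, V j u = if i = j then 1 else 0 := by
    intro i
    obtain ⟨c, hc⟩ := hJ.2 fun j => if i = j then 1 else 0
    obtain ⟨u, h1, h2, h3⟩ := (hU _).1 c.2
    refine ⟨u, h1, fun j => ?_⟩
    have h4 := congrFun hc j
    rw [hV2, ← h2, ← h3]
    refine Eq.trans ?_ h4
    by_cases h : j ∈ J
    · rw [if_pos h]
      exact (if_pos h).symm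
    · rw [if_neg h]
      exact (if_neg h).symm
  choose u hu1 hu2 using hu
  refine ⟨⟨G.g, G.pl, G.mem, S', u, hu1, fun i j => ?_, fun x hx => ?_⟩⟩
  · rw [← hV, hu2]
  · have h7 : ∀ i, V i (x * (∏ j, u j ^ (V j x).val)⁻¹) = 0 := by
      intro i
      rw [hVm, trs_inv (hVm i), trs_prod (hVm i), add_neg_eq_zero]
      rw [Finset.sum_eq_single i (fun j _ hj => by
        rw [trs_pow (hVm i), hu2, if_neg hj, mul_zero]) (fun h => absurd (Finset.mem_univ _) h),
        trs_pow (hVm i), hu2, if_pos rfl, mul_one, ZMod.natCast_zmod_val]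
    have h8 : TUnit D.S0 (x * (∏ j, u j ^ (V j x).val)⁻¹) := trs_gen hu1 _ hx
    obtain ⟨z, hz⟩ : ∃ z, z = x * (∏ j, u j ^ (V j x).val)⁻¹ := ⟨_, rfl⟩
    rw [← hz] at h7 h8
    obtain ⟨c, hc⟩ : ∃ c : U, (∀ i, c.1.1 i = P i z) ∧ ∀ i, c.1.2 i = Q i z :=
      ⟨⟨(fun i => P i z, fun i => Q i z), (hU _).2 ⟨z, h8, fun _ => rfl, fun _ => rfl⟩⟩,
        fun _ => rfl, fun _ => rfl⟩
    have h9 : c = 0 := by
      refine hJ.1 (funext fun i => ?_)
      have h10 := h7 i
      rw [hV2, ← hc.1, ← hc.2] at h10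
      by_cases h : i ∈ J
      · rw [if_pos h] at h10
        exact ((if_pos h).trans h10).trans (if_pos h).symm
      · rw [if_neg h] at h10
        exact ((if_neg h).trans h10).trans (if_neg h).symm
    obtain ⟨y, hy⟩ := hzero z h8 fun i => by
      rw [← hc.1, ← hc.2, h9]
      exact ⟨rfl, rfl⟩
    refine ⟨fun j => (V j x).val, y, ?_⟩
    rw [hy, hz, mul_comm (∏ j, u j ^ (V j x).val), inv_mul_cancel_right]

end H24.S3
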